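import Mathlib

/-!
A basis adapted to a chain of subsets of a family of vectors.
-/

namespace Pool.Agent.MP_8e2770_co.H72

open Submodule

variable {K V E : Type} [Field K] [AddCommGroup V] [Module K V] [DecidableEq E] (h : E → V)

lemma exists_adapted_aux (c : Finset (Finset E)) (hc : IsChain (· ⊆ ·) (c : Set (Finset E)))
    (T : Finset E) (hT : ∀ S ∈ c, S ⊆ T) :
    ∃ B : Finset E, B ⊆ T ∧ LinearIndepOn K h B ∧ (∀ e ∈ T, h e ∈ span K (h '' B)) ∧
      ∀ S ∈ c, ∀ e ∈ S, h e ∈ span K (h '' (B ∩ S : Finset E)) := by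
  have ext : ∀ B₀ T : Finset E, B₀ ⊆ T → LinearIndepOn K h B₀ →
      ∃ B : Finset E, B₀ ⊆ B ∧ B ⊆ T ∧ LinearIndepOn K h B ∧ ∀ e ∈ T, h e ∈ span K (h '' B) := by
    intro B₀ T h0 hi
    obtain ⟨b, hbT, h0b, hsp, hb⟩ :=
      exists_linearIndepOn_extension hi (t := (T : Set E)) (by exact_mod_cast h0)
    lift b to Finset E using T.finite_toSet.subset hbT
    exact ⟨b, by exact_mod_cast h0b, by exact_mod_cast hbT, hb, fun e he => hsp ⟨e, he, rfl⟩⟩
  revert T hc
  refine Finset.induction_on_max_value Finset.card c ?_ ?_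
  · intro _ T _
    obtain ⟨B, -, h1, h2, h3⟩ := ext ∅ T (Finset.empty_subset _) (by simp)
    exact ⟨B, h1, h2, h3, by simp⟩
  · intro S c hS hmax ih hc T hT
    have hsub : ∀ S' ∈ c, S' ⊆ S := by
      intro S' hS'
      have hne : S' ≠ S := fun h => hS (h ▸ hS')
      rcases hc (Finset.mem_coe.2 (Finset.mem_insert_of_mem hS'))
        (Finset.mem_coe.2 (Finset.mem_insert_self S c)) hne with h | h
      · exact h
      · exact (Finset.eq_of_subset_of_card_le h (hmax S' hS')).symm.subset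
    obtain ⟨B₀, h0S, h0i, h0sp, h0c⟩ :=
      ih (hc.mono (by simp [Set.subset_insert])) S hsub
    obtain ⟨B, h0B, hBT, hBi, hBsp⟩ :=
      ext B₀ T (h0S.trans (hT S (Finset.mem_insert_self _ _))) h0i
    refine ⟨B, hBT, hBi, hBsp, fun S' hS' e he => ?_⟩
    rcases Finset.mem_insert.1 hS' with rfl | hS'
    · exact span_mono (Set.image_mono (by exact_mod_cast Finset.subset_inter h0B h0S)) (h0sp e he)
    · exact span_mono (Set.image_mono (by
        exact_mod_cast Finset.inter_subset_inter h0B subset_rfl)) (h0c S' hS' e he)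

/-- For a chain `c` there is an independent spanning subfamily `B` whose trace on each member of the
chain spans that member. -/
theorem exists_adapted [Fintype E] (c : Finset (Finset E))
    (hc : IsChain (· ⊆ ·) (c : Set (Finset E))) :
    ∃ B : Finset E, LinearIndepOn K h B ∧ (∀ e, h e ∈ span K (h '' B)) ∧
      ∀ S ∈ c, ∀ e ∈ S, h e ∈ span K (h '' (B ∩ S : Finset E)) := by
  obtain ⟨B, -, h1, h2, h3⟩ := exists_adapted_aux (K := K) h c hc Finset.univ (by simp)
  exact ⟨B, h1, fun e => h2 e (Finset.mem_univ e), h3⟩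

/-- Coordinates in an adapted basis: `h e` only involves basis elements lying in every member of the
chain that contains `e`. -/
theorem exists_adapted_coeff [Fintype E] (c : Finset (Finset E))
    (hc : IsChain (· ⊆ ·) (c : Set (Finset E))) :
    ∃ (B : Finset E) (lam : E → E → K), LinearIndepOn K h B ∧
      (∀ e, h e = ∑ b ∈ B, lam e b • h b) ∧
      (∀ e, ∀ b ∈ B, lam e b ≠ 0 → ∀ S ∈ c, e ∈ S → b ∈ S) ∧
      ∀ e ∈ B, ∀ b ∈ B, lam e b = if e = b then 1 else 0 := by
  obtain ⟨B, h1, h2, h3⟩ := exists_adapted (K := K) h c hc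
  have uniq : ∀ l l' : E → K, ∑ b ∈ B, l b • h b = ∑ b ∈ B, l' b • h b → ∀ b ∈ B, l b = l' b := by
    intro l l' hl b hb
    have := (linearIndepOn_finset_iff.1 h1) (fun b => l b - l' b)
      (by simp [sub_smul, hl]) b hb
    exact sub_eq_zero.1 this
  have ex : ∀ (B' : Finset E) (e : E), B' ⊆ B → h e ∈ span K (h '' B') →
      ∃ l : E → K, h e = ∑ b ∈ B, l b • h b ∧ ∀ b, l b ≠ 0 → b ∈ B' := by
    intro B' e hB' he
    obtain ⟨l, hl⟩ := (Submodule.mem_span_image_finset_iff_exists_fun' K).1 he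
    refine ⟨fun b => if b ∈ B' then l b else 0, ?_, fun b hb => by_contra fun h' => hb (if_neg h')⟩
    rw [← hl]
    symm
    refine (Finset.sum_subset hB' fun b _ hb => by simp [hb]).symm.trans ?_
    exact Finset.sum_congr rfl fun b hb => by simp [hb]
  choose lam hlam _ using fun e => ex B e subset_rfl (h2 e)
  refine ⟨B, lam, h1, hlam, fun e b hb hne S hS he => ?_, fun e he b hb => ?_⟩
  · obtain ⟨l, hl, hl'⟩ := ex (B ∩ S) e Finset.inter_subset_left (h3 S hS e he)
    have := uniq _ _ ((hlam e).symm.trans hl) b hb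
    exact (Finset.mem_inter.1 (hl' b (this ▸ hne))).2
  · refine uniq (lam e) (fun b => if e = b then 1 else 0) ?_ b hb
    rw [← hlam]
    simp [he]

end Pool.Agent.MP_8e2770_co.H72
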