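import Pool.Agent.MP_8e2770_co.H72.Forms

/-!
The arrangement of the coordinate forms and the rows of a square matrix.
-/

namespace Pool.Agent.MP_8e2770_co.H72

noncomputable section

variable {K : Type} [Field K] {n : ℕ}

/-- The coordinate forms together with the rows of `A`. -/
def arr (A : Matrix (Fin n) (Fin n) K) : Fin n ⊕ Fin n → Fin n → K :=
  Sum.elim (fun i => Pi.single i 1) fun j => A j

/-- Weight `-a` on the coordinate forms and `a` on the rows. -/
def wt (n : ℕ) (a : ℕ) : Fin n ⊕ Fin n → ℤ := Sum.elim (fun _ => -(a : ℤ)) fun _ => a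

/-- The form `dx / x`. -/
def vol (A : Matrix (Fin n) (Fin n) K) : Om K n :=
  (List.ofFn fun i : Fin n => om (arr A) (Sum.inl i)).prod

end

end Pool.Agent.MP_8e2770_co.H72
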