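import Mathlib

/-!
Elementary homological algebra of cubes of submodules: the augmented Cech complex of a monotone
family of submodules indexed by the subsets of a finite set.
-/

namespace Pool.Agent.MP_8e2770_co.H72

open Finset

noncomputable section

variable {K : Type} [Field K] {M : Type} [AddCommGroup M] [Module K M]

/-- The subquotient `X / Y` is acyclic for the differential `D`. -/
def Acyc (D : M →ₗ[K] M) (X Y : Submodule K M) : Prop :=
  ∀ x ∈ X, D x ∈ Y → ∃ g ∈ X, x - D g ∈ Y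

namespace Acyc

variable {D : M →ₗ[K] M} {X Y Z : Submodule K M}

lemma refl (X : Submodule K M) : Acyc D X X := fun x hx _ => ⟨0, zero_mem _, by simpa using hx⟩

lemma trans (hD : ∀ x, D (D x) = 0) (h1 : Y ≤ X) (h2 : Z ≤ Y) (a : Acyc D X Y) (b : Acyc D Y Z) :
    Acyc D X Z := by
  intro x hx hdx
  obtain ⟨g, hg, h⟩ := a x hx (h2 hdx)
  obtain ⟨g', hg', h'⟩ := b _ h (by simpa [hD] using hdx)
  exact ⟨g + g', add_mem hg (h1 hg'), by simpa [sub_sub] using h'⟩

lemma quot (hD : ∀ x, D (D x) = 0) (h1 : Y ≤ X) (h2 : Z ≤ Y) (a : Acyc D X Z) (b : Acyc D Y Z) :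
    Acyc D X Y := by
  intro x hx hdx
  obtain ⟨y, hy, h⟩ := b _ hdx (by simp [hD])
  obtain ⟨g, hg, h'⟩ := a (x - y) (sub_mem hx (h1 hy)) (by simpa using h)
  refine ⟨g, hg, ?_⟩
  have := add_mem (h2 h') hy
  convert this using 1
  abel

end Acyc

/-- The product of a family of submodules. -/
def Tot {P : Type} (X : P → Submodule K M) : Submodule K (P → M) := Submodule.pi Set.univ X

lemma mem_Tot {P : Type} {X : P → Submodule K M} {f : P → M} : f ∈ Tot X ↔ ∀ p, f p ∈ X p := by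
  simp [Tot, Submodule.mem_pi]

lemma Tot_mono {P : Type} {X Y : P → Submodule K M} (h : ∀ p, X p ≤ Y p) : Tot X ≤ Tot Y :=
  fun _ hf => mem_Tot.2 fun p => h p (mem_Tot.1 hf p)

lemma Tot_bot {P : Type} : Tot (fun _ : P => (⊥ : Submodule K M)) = ⊥ := by
  ext f; simp [mem_Tot, funext_iff]

variable {ι : Type} [LinearOrder ι]

/-- The basic sign. -/
def eps (K : Type) [Field K] (j i : ι) : K := if j < i then -1 else 1

/-- The sign of `i` in `σ`. -/
def sg (K : Type) [Field K] (i : ι) (σ : Finset ι) : K := ∏ j ∈ σ, eps K j i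

lemma eps_self (i : ι) : eps K i i = 1 := by simp [eps]

lemma eps_mul_self (j i : ι) : eps K j i * eps K j i = 1 := by
  unfold eps; split_ifs <;> simp

lemma eps_swap {i j : ι} (h : i ≠ j) : eps K i j = -eps K j i := by
  unfold eps
  rcases lt_or_gt_of_ne h with h | h
  · simp [h, h.not_gt]
  · simp [h, h.not_gt]

lemma sg_mul_self (i : ι) (σ : Finset ι) : sg K i σ * sg K i σ = 1 := by
  simp [sg, ← prod_mul_distrib, eps_mul_self]

lemma sg_erase {j : ι} {σ : Finset ι} (i : ι) (hj : j ∈ σ) :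
    sg K i σ = eps K j i * sg K i (σ.erase j) := (mul_prod_erase σ (fun j => eps K j i) hj).symm

lemma sg_insert {j : ι} {σ : Finset ι} (i : ι) (hj : j ∉ σ) :
    sg K i (insert j σ) = eps K j i * sg K i σ := prod_insert hj

/-- The Cech differential. -/
def cech : (Finset ι → M) →ₗ[K] (Finset ι → M) where
  toFun f σ := ∑ i ∈ σ, sg K i σ • f (σ.erase i)
  map_add' f g := by ext σ; simp [sum_add_distrib]
  map_smul' c f := by ext σ; simp [smul_sum, smul_comm c]

lemma cech_apply (f : Finset ι → M) (σ : Finset ι) :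
    cech (K := K) f σ = ∑ i ∈ σ, sg K i σ • f (σ.erase i) := rfl

lemma cech_empty (f : Finset ι → M) : cech (K := K) f ∅ = 0 := by simp [cech_apply]

lemma cech_singleton (f : Finset ι → M) (i : ι) : cech (K := K) f {i} = f ∅ := by
  simp [cech_apply, sg, eps_self]

lemma cech_cech (f : Finset ι → M) : cech (K := K) (cech (K := K) f) = 0 := by
  ext σ
  simp only [cech_apply, smul_sum, smul_smul, Pi.zero_apply]
  rw [sum_sigma']
  refine sum_involution (fun p _ => ⟨p.2, p.1⟩) (fun p hp => ?_) (fun p hp _ he => ?_)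
    (fun p hp => ?_) (fun _ _ => rfl)
  · simp only [mem_sigma, mem_erase] at hp
    obtain ⟨h1, h2, h3⟩ := hp
    rw [erase_right_comm, ← add_smul, sg_erase p.1 h3, sg_erase p.2 h1, eps_swap h2]
    convert zero_smul K _
    ring
  · simp only [mem_sigma, mem_erase] at hp
    exact hp.2.1 (congrArg Sigma.fst he)
  · simp only [mem_sigma, mem_erase] at hp ⊢
    exact ⟨hp.2.2, hp.2.1.symm, hp.1⟩

lemma cech_comp {M' : Type} [AddCommGroup M'] [Module K M'] (T : M →ₗ[K] M') (f : Finset ι → M) :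
    cech (K := K) (fun σ => T (f σ)) = fun σ => T (cech (K := K) f σ) := by
  ext σ; simp [cech_apply]

lemma cech_mem {X : Finset ι → Submodule K M} (hX : Monotone X) {f : Finset ι → M}
    (hf : f ∈ Tot X) : cech (K := K) f ∈ Tot X :=
  mem_Tot.2 fun σ => sum_mem fun i _ =>
    Submodule.smul_mem _ _ (hX (erase_subset i σ) (mem_Tot.1 hf _))

lemma cech_congr {f g : Finset ι → M} {σ : Finset ι} (h : ∀ i ∈ σ, f (σ.erase i) = g (σ.erase i)) :
    cech (K := K) f σ = cech (K := K) g σ := sum_congr rfl fun i hi => by rw [h i hi]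

/-- The contracting homotopy at `i`. -/
def cone (i : ι) (f : Finset ι → M) (σ : Finset ι) : M :=
  if i ∈ σ then 0 else sg K i σ • f (insert i σ)

lemma cech_cone (i : ι) (f : Finset ι → M) :
    f - cech (K := K) (cone (K := K) i f) = cone (K := K) i (cech (K := K) f) := by
  ext σ
  rw [Pi.sub_apply, sub_eq_iff_eq_add]
  by_cases hi : i ∈ σ
  · rw [cone, if_pos hi, zero_add, cech_apply, sum_eq_single_of_mem i hi]
    · rw [cone, if_neg (notMem_erase i σ), insert_erase hi, smul_smul, sg_erase i hi, eps_self,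
        one_mul, sg_mul_self, one_smul]
    · intro j _ hj
      rw [cone, if_pos (mem_erase.2 ⟨hj.symm, hi⟩), smul_zero]
  · rw [cone, if_neg hi, cech_apply, cech_apply, sum_insert hi, erase_insert hi, sg_insert i hi,
      eps_self, one_mul, smul_add, smul_smul, sg_mul_self, one_smul, smul_sum, add_assoc,
      ← sum_add_distrib, sum_eq_zero, add_zero]
    intro j hj
    have hne : i ≠ j := fun h => hi (h ▸ hj)
    rw [cone, if_neg fun h => hi (mem_of_mem_erase h), erase_insert_of_ne hne, smul_smul,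
      smul_smul, ← add_smul, sg_insert j hi, sg_erase i hj, eps_swap hne]
    have := eps_mul_self (K := K) j i
    rw [show eps K j i * sg K i (σ.erase j) * (-eps K j i * sg K j σ) +
      sg K j σ * sg K i (σ.erase j) =
        (1 - eps K j i * eps K j i) * (sg K j σ * sg K i (σ.erase j)) by ring, this]
    simp

lemma cone_mem {X : Finset ι → Submodule K M} {i : ι} (hX : ∀ σ, X (insert i σ) ≤ X σ)
    {f : Finset ι → M} (hf : f ∈ Tot X) : cone (K := K) i f ∈ Tot X := by
  refine mem_Tot.2 fun σ => ?_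
  unfold cone
  split_ifs
  · exact zero_mem _
  · exact Submodule.smul_mem _ _ (hX σ (mem_Tot.1 hf _))

lemma acyc_cone {X Y : Finset ι → Submodule K M} (i : ι) (hX : ∀ σ, X (insert i σ) ≤ X σ)
    (hY : ∀ σ, Y (insert i σ) ≤ Y σ) : Acyc cech (Tot X) (Tot Y) := fun f hf hd =>
  ⟨cone (K := K) i f, cone_mem hX hf, by rw [cech_cone]; exact cone_mem hY hd⟩

/-- On an upper set of faces one may replace a trivial subquotient by any other. -/
lemma acyc_fill {X Y : Finset ι → Submodule K M} (hX : Monotone X) (U : Finset ι → Prop)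
    [DecidablePred U] (hU : ∀ σ i, U (σ.erase i) → U σ) :
    Acyc cech (Tot fun σ => if U σ then ⊤ else X σ) (Tot fun σ => if U σ then ⊤ else Y σ) ↔
      Acyc cech (Tot X) (Tot fun σ => if U σ then X σ else Y σ) := by
  have tr : ∀ g ∈ Tot fun σ => if U σ then ⊤ else X σ,
      (fun σ => if U σ then 0 else g σ) ∈ Tot X ∧ ∀ σ, ¬U σ →
        cech (K := K) (fun σ => if U σ then 0 else g σ) σ = cech (K := K) g σ := by
    intro g hg
    refine ⟨mem_Tot.2 fun σ => ?_, fun σ hσ => cech_congr fun i _ => if_neg fun h => hσ (hU _ _ h)⟩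
    have := mem_Tot.1 hg σ
    split_ifs at this ⊢
    · exact zero_mem _
    · exact this
  have up : Tot X ≤ Tot fun σ => if U σ then ⊤ else X σ :=
    Tot_mono fun σ => by split_ifs <;> simp
  constructor
  · intro h f hf hd
    obtain ⟨g, hg, hfg⟩ := h f (up hf) (Tot_mono (fun σ => by split_ifs <;> simp) hd)
    obtain ⟨h1, h2⟩ := tr g hg
    refine ⟨_, h1, mem_Tot.2 fun σ => ?_⟩
    have := mem_Tot.1 hfg σ
    split_ifs at this ⊢ with hσ
    · exact mem_Tot.1 (sub_mem hf (cech_mem hX h1)) σ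
    · rwa [Pi.sub_apply, h2 σ hσ]
  · intro h f hf hd
    obtain ⟨h1, h2⟩ := tr f hf
    obtain ⟨g, hg, hfg⟩ := h _ h1 (mem_Tot.2 fun σ => by
      have := mem_Tot.1 hd σ
      split_ifs at this ⊢ with hσ
      · exact mem_Tot.1 (cech_mem hX h1) σ
      · rwa [h2 σ hσ])
    refine ⟨g, up hg, mem_Tot.2 fun σ => ?_⟩
    have := mem_Tot.1 hfg σ
    split_ifs at this ⊢ with hσ
    · trivial
    · simpa [hσ] using this

/-- The faces containing a redundant index form an acyclic complex. -/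
lemma acyc_bad {X : Finset ι → Submodule K M} (hX : Monotone X) (B : Finset ι)
    (tw : ∀ i ∈ B, ∃ i' ∉ B, ∀ σ, i ∈ σ → X (insert i' σ) ≤ X σ) :
    Acyc cech (Tot fun σ => if Disjoint σ B then ⊥ else X σ) ⊥ := by
  suffices h : ∀ B' ⊆ B, Acyc cech (Tot fun σ => if Disjoint σ B' then ⊥ else X σ) ⊥ from
    h B subset_rfl
  intro B'
  induction B' using Finset.induction_on with
  | empty => intro _; simpa [Tot_bot] using Acyc.refl ⊥
  | insert i B' hi ih =>
    intro hB
    obtain ⟨i', hi', hX'⟩ := tw i (hB (mem_insert_self _ _))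
    have hi'' : i' ∉ insert i B' := fun h => hi' (hB h)
    have mono : Monotone fun σ => if Disjoint σ (insert i B') then ⊥ else X σ := by
      intro σ σ' h
      dsimp only
      split_ifs with h1 h2 h2
      · exact le_rfl
      · exact bot_le
      · exact absurd (h2.mono_left h) h1
      · exact hX h
    refine Acyc.trans cech_cech (Tot_mono fun σ => ?_) bot_le ?_
      (ih ((subset_insert _ _).trans hB))
    · split_ifs with h1 h2 h2
      · exact le_rfl
      · exact bot_le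
      · exact absurd (h2.mono_right (subset_insert _ _)) h1
      · exact le_rfl
    · have := (acyc_fill (Y := fun _ => ⊥) mono (fun σ => ¬Disjoint σ B')
        fun σ j h h' => h (h'.mono_left (erase_subset _ _))).1 (acyc_cone i' ?_ ?_)
      · convert this using 3 with σ
        split_ifs with h1 h2
        · rfl
        · exact absurd (h2.mono_right (subset_insert _ _)) h1
        · rfl
      · intro σ
        simp only [mem_insert, not_or] at hi''
        by_cases h1 : Disjoint σ B' <;> by_cases h2 : i ∈ σ <;>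
          simp [h1, h2, hi''.2, Ne.symm hi''.1, hX']
      · intro σ
        simp only [mem_insert, not_or] at hi''
        by_cases h1 : Disjoint σ B' <;> simp [h1, hi''.2]

/-- Acyclicity only depends on the faces avoiding a set of redundant indices. -/
lemma acyc_congr_bad {X X' : Finset ι → Submodule K M} (hX : Monotone X) (hX' : Monotone X')
    (B : Finset ι) (tw : ∀ i ∈ B, ∃ i' ∉ B, ∀ σ, i ∈ σ → X (insert i' σ) ≤ X σ)
    (tw' : ∀ i ∈ B, ∃ i' ∉ B, ∀ σ, i ∈ σ → X' (insert i' σ) ≤ X' σ)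
    (he : ∀ σ, Disjoint σ B → X σ = X' σ) (h : Acyc cech (Tot X) ⊥) : Acyc cech (Tot X') ⊥ := by
  have hU : ∀ (σ : Finset ι) j, ¬Disjoint (σ.erase j) B → ¬Disjoint σ B :=
    fun σ j h h' => h (h'.mono_left (erase_subset _ _))
  have h1 := Acyc.quot cech_cech (Tot_mono fun σ => by split_ifs <;> simp) bot_le h
    (acyc_bad hX B tw)
  have h2 := (acyc_fill (Y := fun _ => ⊥) hX (fun σ => ¬Disjoint σ B) hU).2
    (by simpa only [ite_not] using h1)
  have h3 := (acyc_fill (Y := fun _ => ⊥) hX' (fun σ => ¬Disjoint σ B) hU).1 (by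
    convert h2 using 3 with σ
    split_ifs with hσ
    · exact (he σ hσ).symm
    · rfl)
  exact Acyc.trans cech_cech (Tot_mono fun σ => by split_ifs <;> simp) bot_le
    (by simpa only [ite_not] using h3) (acyc_bad hX' B tw')

/-- Passing to a direct summand. -/
lemma acyc_inf {X : Finset ι → Submodule K M} {P Q : Submodule K M} (hPQ : Disjoint P Q)
    (hX : ∀ σ, X σ ≤ X σ ⊓ P ⊔ Q) (h : Acyc cech (Tot X) ⊥) :
    Acyc cech (Tot fun σ => X σ ⊓ P) ⊥ := by
  intro f hf hd
  obtain ⟨g, hg, hfg⟩ := h f (Tot_mono (fun σ => inf_le_left) hf) hd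
  choose a ha b hb hab using fun σ => Submodule.mem_sup.1 (hX σ (mem_Tot.1 hg σ))
  refine ⟨a, mem_Tot.2 ha, funext fun σ => ?_⟩
  have e : g = a + b := funext fun σ => (hab σ).symm
  rw [Submodule.mem_bot, e, map_add, ← sub_sub, sub_eq_zero] at hfg
  refine (Submodule.disjoint_def.1 hPQ) _ ?_ ?_
  · exact sub_mem (mem_Tot.1 hf σ).2 (sum_mem fun i _ => Submodule.smul_mem _ _ (ha _).2)
  · rw [hfg]; exact sum_mem fun i _ => Submodule.smul_mem _ _ (hb _)

/-- Localisation at an invertible operator. -/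
lemma acyc_loc [Fintype ι] {X X' : Finset ι → Submodule K M} (T : M ≃ₗ[K] M)
    (hT : ∀ σ, ∀ x ∈ X σ, T x ∈ X σ) (hle : ∀ σ, X σ ≤ X' σ)
    (hT' : ∀ σ, ∀ x ∈ X' σ, T.symm x ∈ X' σ) (hX' : ∀ σ, ∀ x ∈ X' σ, ∃ k : ℕ, (T ^ k) x ∈ X σ)
    (h : Acyc cech (Tot X) ⊥) : Acyc cech (Tot X') ⊥ := by
  intro f hf hd
  choose k hk using fun σ => hX' σ _ (mem_Tot.1 hf σ)
  have hp : ∀ σ (j : ℕ), ∀ x ∈ X σ, (T ^ j) x ∈ X σ := by
    intro σ j
    induction j with
    | zero => simp
    | succ j ih => intro x hx; rw [pow_succ']; exact hT σ _ (ih x hx)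
  have hp' : ∀ σ (j : ℕ), ∀ x ∈ X' σ, (T ^ j).symm x ∈ X' σ := by
    intro σ j
    induction j with
    | zero => intro x hx; exact hx
    | succ j ih => intro x hx; rw [pow_succ']; exact ih _ (hT' σ x hx)
  obtain ⟨g, hg, hfg⟩ := h (fun σ => (T ^ univ.sup k).toLinearMap (f σ)) (mem_Tot.2 fun σ => by
    obtain ⟨j, hj⟩ := Nat.exists_eq_add_of_le' (le_sup (f := k) (mem_univ σ))
    rw [hj, pow_add]
    exact hp σ j _ (hk σ)) (by
      rw [Submodule.mem_bot] at hd ⊢
      rw [cech_comp, hd]; ext; simp)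
  refine ⟨fun σ => (T ^ univ.sup k).symm.toLinearMap (g σ),
    mem_Tot.2 fun σ => hp' σ _ _ (hle σ (mem_Tot.1 hg σ)), ?_⟩
  rw [Submodule.mem_bot, sub_eq_zero] at hfg ⊢
  rw [cech_comp, ← hfg]
  ext σ; simp

/-- The total differential. -/
def tot (p : M →ₗ[K] M) : (Finset ι → M) →ₗ[K] (Finset ι → M) where
  toFun f σ := cech (K := K) f σ + (-1 : K) ^ #σ • p (f σ)
  map_add' f g := by ext σ; simp; abel
  map_smul' c f := by ext σ; simp [smul_comm c]

lemma tot_apply (p : M →ₗ[K] M) (f : Finset ι → M) (σ : Finset ι) :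
    tot p f σ = cech (K := K) f σ + (-1 : K) ^ #σ • p (f σ) := rfl

lemma tot_tot {p : M →ₗ[K] M} (hp : ∀ x, p (p x) = 0) (f : Finset ι → M) :
    tot p (tot p f) = 0 := by
  ext σ
  have h1 : tot p f = cech (K := K) f + fun σ => (-1 : K) ^ #σ • p (f σ) := rfl
  rw [tot_apply, tot_apply, h1, map_add, cech_cech, zero_add, map_add, map_smul, hp, smul_zero,
    add_zero, cech_apply, cech_apply, map_sum, smul_sum, ← sum_add_distrib]
  refine sum_eq_zero fun i hi => ?_
  rw [← card_erase_add_one hi, pow_succ, map_smul, smul_smul, smul_smul, ← add_smul]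
  simp [mul_comm]

lemma tot_mem {p : M →ₗ[K] M} {X : Finset ι → Submodule K M} (hX : Monotone X)
    (hp : ∀ σ, ∀ x ∈ X σ, p x ∈ X σ) {f : Finset ι → M} (hf : f ∈ Tot X) : tot p f ∈ Tot X :=
  mem_Tot.2 fun σ => add_mem (mem_Tot.1 (cech_mem hX hf) σ)
    (Submodule.smul_mem _ _ (hp σ _ (mem_Tot.1 hf σ)))

/-- If every face is acyclic for the inner differential, the total complex is acyclic. -/
lemma acyc_tot_of_inner [Fintype ι] {p : M →ₗ[K] M} (hp : ∀ x, p (p x) = 0)
    {X Y : Finset ι → Submodule K M} (hX : Monotone X) (hY : Monotone Y) (hYX : ∀ σ, Y σ ≤ X σ)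
    (hpX : ∀ σ, ∀ x ∈ X σ, p x ∈ X σ) (h : ∀ σ, Acyc p (X σ) (Y σ)) :
    Acyc (tot p) (Tot X) (Tot Y) := by
  have low : ∀ (f : Finset ι → M) σ, (∀ τ, #τ < #σ → f τ ∈ Y τ) → cech (K := K) f σ ∈ Y σ :=
    fun f σ hf => sum_mem fun i hi =>
      Submodule.smul_mem _ _ (hY (erase_subset i σ) (hf _ (card_erase_lt_of_mem hi)))
  have key : ∀ k, Acyc (tot p) (Tot X) (Tot fun σ => if #σ < k then Y σ else X σ) := by
    intro k
    induction k with
    | zero => simpa using Acyc.refl _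
    | succ k ih =>
      refine Acyc.trans (tot_tot hp) (Tot_mono fun σ => by split_ifs <;> simp [hYX])
        (Tot_mono fun σ => by split_ifs <;> first | simp [hYX] | omega) ih fun f hf hd => ?_
      have hfX : ∀ σ, f σ ∈ X σ := fun σ => by
        have := mem_Tot.1 hf σ
        split_ifs at this
        · exact hYX σ this
        · exact this
      have hfY : ∀ σ, #σ < k → f σ ∈ Y σ := fun σ hσ => by simpa [hσ] using mem_Tot.1 hf σ
      have : ∀ σ : Finset ι, ∃ g ∈ X σ, (#σ ≠ k → g = 0) ∧ (#σ = k → f σ - p g ∈ Y σ) := by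
        intro σ
        by_cases hσ : #σ = k
        · have h1 := mem_Tot.1 hd σ
          rw [if_pos (by omega), tot_apply] at h1
          have h2 := (add_mem_cancel_left (low f σ fun τ hτ => hfY τ (hσ ▸ hτ))).1 h1
          obtain ⟨g, hg, hg'⟩ := h σ _ (hfX σ)
            ((Submodule.smul_mem_iff _ (pow_ne_zero _ (by simp))).1 h2)
          exact ⟨g, hg, fun h => absurd hσ h, fun _ => hg'⟩
        · exact ⟨0, zero_mem _, fun _ => rfl, fun h => absurd h hσ⟩
      choose g hg hg0 hg1 using this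
      have hgX : (fun σ => (-1 : K) ^ #σ • g σ) ∈ Tot X :=
        mem_Tot.2 fun σ => Submodule.smul_mem _ _ (hg σ)
      refine ⟨fun σ => (-1 : K) ^ #σ • g σ, mem_Tot.2 fun σ => ?_, mem_Tot.2 fun σ => ?_⟩
      · split_ifs with hσ
        · simp [hg0 σ hσ.ne]
        · exact mem_Tot.1 hgX σ
      · split_ifs with hσ
        · have h3 := low (fun σ => (-1 : K) ^ #σ • g σ) σ fun τ hτ => by
            simp [hg0 τ (by omega)]
          rw [Pi.sub_apply, tot_apply, map_smul, smul_smul, ← mul_pow, neg_one_mul, neg_neg,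
            one_pow, one_smul, add_comm, ← sub_sub]
          refine sub_mem ?_ h3
          by_cases hk : #σ = k
          · exact hg1 σ hk
          · simpa [hg0 σ hk] using hfY σ (by omega)
        · exact sub_mem (hfX σ) (mem_Tot.1 (tot_mem hX hpX hgX) σ)
  have := key (Fintype.card ι + 1)
  simpa [fun σ : Finset ι => Nat.lt_succ_of_le (card_le_univ σ)] using this

/-- If the Cech complex of each step of a finite filtration raised by the inner differential is
acyclic, the total complex is acyclic. -/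
lemma acyc_tot_of_cech {p : M →ₗ[K] M} (hp : ∀ x, p (p x) = 0) {X : Finset ι → Submodule K M}
    (Φ : ℕ → Submodule K M) (hΦ : Antitone Φ) (N : ℕ) (h0 : ∀ σ, X σ ≤ Φ 0) (hN : Φ N = ⊥)
    (hpX : ∀ σ q, ∀ x ∈ X σ ⊓ Φ q, p x ∈ X σ ⊓ Φ (q + 1))
    (h : ∀ q, Acyc cech (Tot fun σ => X σ ⊓ Φ q) ⊥) : Acyc (tot p) (Tot X) ⊥ := by
  have key : ∀ q, Acyc (tot p) (Tot X) (Tot fun σ => X σ ⊓ Φ q) := by
    intro q
    induction q with
    | zero => simpa [fun σ => inf_eq_left.2 (h0 σ)] using Acyc.refl _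
    | succ q ih =>
      have hle : (Tot fun σ => X σ ⊓ Φ (q + 1)) ≤ Tot fun σ => X σ ⊓ Φ q :=
        Tot_mono fun σ => inf_le_inf_left _ (hΦ q.le_succ)
      refine Acyc.trans (tot_tot hp) (Tot_mono fun σ => inf_le_left) hle ih fun f hf hd => ?_
      have hi : ∀ g ∈ Tot fun σ => X σ ⊓ Φ q,
          tot p g - cech (K := K) g ∈ Tot fun σ => X σ ⊓ Φ (q + 1) := fun g hg =>
        mem_Tot.2 fun σ => by
          rw [Pi.sub_apply, tot_apply, add_sub_cancel_left]
          exact Submodule.smul_mem _ _ (hpX σ q _ (mem_Tot.1 hg σ))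
      obtain ⟨g, hg, hfg⟩ := Acyc.quot cech_cech hle bot_le (h q) (h (q + 1)) f hf
        (by simpa using sub_mem hd (hi f hf))
      exact ⟨g, hg, by simpa using sub_mem hfg (hi g hg)⟩
  simpa [hN, Tot_bot] using key N

/-- The two spectral sequences of a double cube. -/
lemma acyc_double [Fintype ι] {κ : Type} [LinearOrder κ] [Fintype κ]
    {X : Finset ι → Finset κ → Submodule K M} (h1 : Monotone X) (h2 : ∀ σ, Monotone (X σ))
    (hrow : ∀ σ, Acyc cech (Tot (X σ)) ⊥)
    (hcol : ∀ τ, τ ≠ ∅ → Acyc cech (Tot fun σ => X σ τ) ⊥) :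
    Acyc cech (Tot fun σ => X σ ∅) ⊥ := by
  have a1 : Acyc (tot cech) (Tot fun σ => Tot (X σ)) ⊥ := by
    have := acyc_tot_of_inner (Y := fun _ => ⊥) cech_cech (fun _ _ h => Tot_mono (h1 h))
      monotone_const (fun _ => bot_le) (fun σ _ hx => cech_mem (h2 σ) hx) hrow
    rwa [Tot_bot] at this
  let Φ : ℕ → Submodule K (Finset κ → M) := fun q => Tot fun τ => if #τ ≤ q then ⊥ else ⊤
  have hΦ : ∀ q f, f ∈ Φ q ↔ ∀ τ, #τ ≤ q → f τ = 0 := fun q f => by
    simp only [Φ, mem_Tot]
    exact forall_congr' fun τ => by split_ifs with h <;> simp [h]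
  have a2 : Acyc (tot cech) (Tot fun σ => Tot (X σ) ⊓ Φ 0) ⊥ := by
    refine acyc_tot_of_cech cech_cech Φ (fun q q' h f hf => ?_) (Fintype.card κ)
      (fun σ => inf_le_right) ?_ (fun σ q f hf => ?_) fun q f hf hd => ?_
    · exact (hΦ _ _).2 fun τ hτ => (hΦ _ _).1 hf τ (hτ.trans h)
    · exact eq_bot_iff.2 fun f hf => funext fun τ => (hΦ _ _).1 hf τ (card_le_univ τ)
    · have : cech (K := K) f ∈ Φ (q + 1) := (hΦ _ _).2 fun τ hτ => sum_eq_zero fun i hi => by
        rw [(hΦ _ _).1 hf.2 _ (by have := card_erase_lt_of_mem hi; omega), smul_zero]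
      exact ⟨⟨cech_mem (h2 σ) hf.1.1, (hΦ _ _).2 fun τ hτ => (hΦ _ _).1 this τ (by omega)⟩, this⟩
    · have : ∀ τ : Finset κ, ∃ g ∈ Tot fun σ => X σ τ, (#τ ≤ q → g = 0) ∧
          (fun σ => f σ τ) = cech (K := K) g := by
        intro τ
        by_cases hτ : #τ ≤ q
        · exact ⟨0, zero_mem _, fun _ => rfl,
            by rw [map_zero]; exact funext fun σ => (hΦ _ _).1 (mem_Tot.1 hf σ).2 τ hτ⟩
        · obtain ⟨g, hg, hfg⟩ := hcol τ (by rintro rfl; simp at hτ) (fun σ => f σ τ)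
            (mem_Tot.2 fun σ => mem_Tot.1 (mem_Tot.1 hf σ).1.1 τ) (by
              rw [Submodule.mem_bot] at hd ⊢
              have := cech_comp (LinearMap.proj τ : (Finset κ → M) →ₗ[K] M) f
              rw [hd] at this
              exact this)
          exact ⟨g, hg, fun h => absurd h hτ, sub_eq_zero.1 hfg⟩
      choose g hg hg0 hg1 using this
      have hq : ∀ σ, (fun τ => g τ σ) ∈ Φ q := fun σ => (hΦ _ _).2 fun τ hτ => by simp [hg0 τ hτ]
      refine ⟨fun σ τ => g τ σ, mem_Tot.2 fun σ => ⟨⟨mem_Tot.2 fun τ => mem_Tot.1 (hg τ) σ,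
        (hΦ _ _).2 fun τ hτ => (hΦ _ _).1 (hq σ) τ (by omega)⟩, hq σ⟩, ?_⟩
      rw [Submodule.mem_bot, sub_eq_zero]
      ext σ τ
      rw [congrFun (hg1 τ) σ]
      simp [cech_apply]
  have a3 := Acyc.quot (tot_tot cech_cech) (Tot_mono fun σ => inf_le_left) bot_le a1 a2
  intro f hf hd
  have hF : (fun σ τ => if τ = ∅ then f σ else 0) ∈ Tot fun σ => Tot (X σ) :=
    mem_Tot.2 fun σ => mem_Tot.2 fun τ => by
      split_ifs with h
      · exact h ▸ mem_Tot.1 hf σ
      · exact zero_mem _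
  have ev : ∀ (G : Finset ι → Finset κ → M) σ,
      tot (cech (K := K)) G σ ∅ = cech (K := K) (fun σ => G σ ∅) σ := fun G σ => by
    simp [tot_apply, cech_apply]
  obtain ⟨G, hG, hFG⟩ := a3 _ hF (mem_Tot.2 fun σ => ⟨mem_Tot.1
    (tot_mem (fun _ _ h => Tot_mono (h1 h)) (fun σ _ hx => cech_mem (h2 σ) hx) hF) σ,
      (hΦ _ _).2 fun τ hτ => by
        obtain rfl : τ = ∅ := by simpa using hτ
        rw [ev]
        simpa using congrFun hd σ⟩)
  refine ⟨fun σ => G σ ∅, mem_Tot.2 fun σ => mem_Tot.1 (mem_Tot.1 hG σ) ∅, funext fun σ => ?_⟩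
  have := (hΦ _ _).1 (mem_Tot.1 hFG σ).2 ∅ (by simp)
  simpa [ev] using this

/-- The zigzag through the total complexes. -/
lemma cube_zigzag [Fintype ι] (i₀ : ι) {A : Type} [AddCommGroup A] [Module K A] {p : A →ₗ[K] A}
    (hp : ∀ x, p (p x) = 0) {d : M →ₗ[K] M} (ψ : A →ₗ[K] M) (hψ : ∀ x, ψ (p x) = d (ψ x))
    {X Y : Finset ι → Submodule K A} {F : Finset ι → Submodule K M}
    (hX : Monotone X) (hY : Monotone Y) (hYX : ∀ σ, Y σ ≤ X σ) (h0 : X ∅ = ⊥)
    (hpX : ∀ σ, ∀ x ∈ X σ, p x ∈ X σ) (h : ∀ σ, Acyc p (X σ) (Y σ))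
    (hF : Acyc (tot d) (Tot F) ⊥) (hψY : ∀ σ, ∀ x ∈ Y σ, ψ x ∈ F σ)
    {v : A} (hv : ∀ i, v ∈ X {i}) (hv0 : p v = 0) : ∃ α ∈ F ∅, ∃ η, ψ v = α + d η := by
  let y : Finset ι → A := tot p fun σ => if σ = ∅ then v else 0
  have hy : y ∈ Tot X := mem_Tot.2 fun σ => by
    refine add_mem (sum_mem fun i hi => Submodule.smul_mem _ _ ?_) ?_
    · dsimp only
      split_ifs
      · exact hX (singleton_subset_iff.2 hi) (hv i)
      · exact zero_mem _
    · dsimp only
      split_ifs <;> simp [hv0]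
  obtain ⟨z, hz, hyz⟩ := acyc_tot_of_inner hp hX hY hYX hpX h y hy (by simp [y, tot_tot hp])
  have comm : ∀ f : Finset ι → A, tot d (fun σ => ψ (f σ)) = fun σ => ψ (tot p f σ) := fun f => by
    ext σ; simp [tot_apply, cech_comp, hψ]
  obtain ⟨z', hz', h'⟩ := hF (fun σ => ψ ((y - tot p z) σ))
    (mem_Tot.2 fun σ => hψY σ _ (mem_Tot.1 hyz σ)) (by
      rw [comm, map_sub, tot_tot hp, tot_tot hp]; ext; simp)
  refine ⟨z' ∅, mem_Tot.1 hz' ∅, -z' {i₀} - ψ (z {i₀}), ?_⟩
  have e := congrFun ((Submodule.mem_bot K).1 h') {i₀}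
  have hz0 : z ∅ = 0 := by simpa [h0] using mem_Tot.1 hz ∅
  simp only [Pi.sub_apply, y, tot_apply, cech_singleton, card_singleton, pow_one, hz0,
    singleton_ne_empty, if_true, if_false, map_zero, smul_zero, add_zero, zero_add, neg_smul,
    one_smul, sub_neg_eq_add, map_add, hψ, Pi.zero_apply, sub_eq_zero] at e
  rw [map_sub, map_neg, ← add_sub_assoc, ← e, add_sub_cancel_right]

end

end Pool.Agent.MP_8e2770_co.H72
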