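import Pool.Agent.MP_8e2770_co.H72.Pres

/-!
The deletion-restriction sequence of the presented modules, and their torsion freeness.
-/

namespace Pool.Agent.MP_8e2770_co.H72

open Finset

noncomputable section

variable {K V E N : Type} [Field K] [AddCommGroup V] [Module K V] [Fintype E] [DecidableEq E]
  [AddCommGroup N] [Module K N] {h : E → V} {m : V →ₗ[K] N →ₗ[K] N}
  {P Q : Finset E} {Y : Submodule K V} {e f : E} {x : LL K (V × (E → K)) N}

/-- The residue along the generators in `Q`. -/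
def rho (Q : Finset E) : LL K (V × (E → K)) N →ₗ[K] LL K (V × (E → K)) N :=
  br (kl Q) ∘ₗ ct (ph Q)

omit [Fintype E] in
lemma rho_apply : rho Q x = br (kl Q) (ct (ph Q) x) := rfl

omit [Fintype E] in
lemma GP_cases (Q : Finset E) {g : V × (E → K)} (hg : g ∈ GP P) :
    (g ∈ GP (P \ Q) ∧ kl Q g = g ∧ ph Q g = 0) ∨ ∃ f ∈ Q, g = eU f := by
  rcases hg with ⟨v, rfl⟩ | ⟨f, hf, rfl⟩
  · exact Or.inl ⟨dU_mem v, by simp, by simp⟩
  · by_cases hQ : f ∈ Q
    · exact Or.inr ⟨f, hQ, rfl⟩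
    · exact Or.inl ⟨eU_mem (mem_sdiff.2 ⟨hf, hQ⟩), by simp [hQ], by simp [hQ]⟩

omit [Fintype E] in
lemma GP_sdiff {g : V × (E → K)} (hg : g ∈ GP (P \ Q)) : kl Q g = g ∧ ph Q g = 0 := by
  rcases hg with ⟨v, rfl⟩ | ⟨f, hf, rfl⟩
  · simp
  · simp [(mem_sdiff.1 hf).2]

omit [Fintype E] in
lemma bar_mem (hx : x ∈ XX N P) : br (kl Q) x ∈ XX N (P \ Q) :=
  XX_map (br (kl Q)) (fun n => by simpa using inn_mem n) (fun g hg a _ ha => by
    rcases GP_cases Q hg with ⟨h1, h2, -⟩ | ⟨f, hf, rfl⟩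
    · simpa [h2] using mu_XX h1 ha
    · simp [hf]) hx

omit [Fintype E] in
lemma rho_mem (hx : x ∈ XX N P) : rho Q x ∈ XX N (P \ Q) := bar_mem (ct_mem_XX _ hx)

omit [Fintype E] in
lemma bar_eq (hx : x ∈ XX N (P \ Q)) : br (kl Q) x = x :=
  sub_eq_zero.1 (XX_map (br (kl Q) - LinearMap.id) (Z := ⊥) (fun n => by simp)
    (fun g hg a _ ha => by
      simp only [Submodule.mem_bot, LinearMap.sub_apply, LinearMap.id_apply, sub_eq_zero] at ha ⊢
      rw [br_mu, ha, (GP_sdiff hg).1]) hx)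

omit [Fintype E] in
lemma ct_eq (hx : x ∈ XX N (P \ Q)) : ct (ph Q) x = 0 :=
  XX_map (ct (ph Q)) (Z := ⊥) (fun n => by simp) (fun g hg a _ ha => by
    rw [Submodule.mem_bot] at ha
    simp [ha, (GP_sdiff hg).2]) hx

variable (h) in
/-- `Q` is a set of generators in `P` parallel to `e` modulo `Y`. -/
structure Cls (P Q : Finset E) (Y : Submodule K V) (e : E) : Prop where
  sub : Q ⊆ P
  mem : e ∈ Q
  nl : ∀ f ∈ P, h f ∉ Y
  par : ∀ f ∈ Q, h f ∈ Y ⊔ K ∙ h e

namespace Cls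

variable (H : Cls h P Q Y e)
include H

omit [Fintype E] [DecidableEq E] in
lemma ex (hf : f ∈ Q) : ∃ c : K, c ≠ 0 ∧ h f - c • h e ∈ Y := by
  obtain ⟨y, hy, z, hz, e1⟩ := Submodule.mem_sup.1 (H.par f hf)
  obtain ⟨c, rfl⟩ := Submodule.mem_span_singleton.1 hz
  refine ⟨c, ?_, by simpa [← e1] using hy⟩
  rintro rfl
  exact H.nl f (H.sub hf) (by simpa [← e1] using hy)

lemma j4 (hf : f ∈ Q) (hx : x ∈ XX N P) : mu (eU f) x - mu (eU e) x ∈ JJ h m P Y := by
  by_cases hfe : f = e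
  · simp [hfe]
  refine J4 (H.sub H.mem) (H.sub hf) (Dep.cons ⟨Pi.single f 1, ⟨f, by simp⟩, fun c hc => ?_, ?_⟩
    (by simpa using Ne.symm hfe)) hx
  · by_contra h'
    exact hc (Pi.single_eq_of_ne (by simpa using h') _)
  · simpa [Pi.single_apply, ite_smul] using H.par f hf

lemma res (hx : x ∈ JJ h m P Y) : br (kl Q) x ∈ JJ h m (P \ Q) (Y ⊔ K ∙ h e) ∧
    rho Q x ∈ JJ h m (P \ Q) (Y ⊔ K ∙ h e) := by
  refine Cl_map ((br (kl Q)).prod (rho Q)) (Z := Submodule.prod _ _) (fun x hx => ?_)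
    (fun g hg a _ ha => ?_) hx
  · cases hx with
    | r1 y hy n => simpa [rho_apply] using Bas.mem (Bas.r1 y (Submodule.mem_sup_left hy) n)
    | r2 y hy n => simpa [rho_apply] using Bas.mem (Bas.r2 y (Submodule.mem_sup_left hy) n)
    | r3 f hf n =>
      by_cases hQ : f ∈ Q
      · simpa [rho_apply, hQ] using
          And.intro (Bas.mem (Bas.r2 _ (H.par f hQ) n)) (Bas.mem (Bas.r1 _ (H.par f hQ) n))
      · simpa [rho_apply, hQ] using Bas.mem (Bas.r3 f (mem_sdiff.2 ⟨hf, hQ⟩) n)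
    | r4 C hC hd n =>
      refine r4_cases Q _ n (fun C hC hd => ?_) (fun f hf C hC hd => ?_) (fun f hf f' hf' z => ?_)
        C hC hd
      · have := ct_mem_XX (ph univ) (eL_mem (K := K) (V := V) hC n)
        simpa [rho_apply, bar_eq this, ct_eq this] using
          Bas.mem (Bas.r4 C hC (hd.mono le_sup_left fun _ => id) n)
      · have h1 := eL_mem (K := K) (V := V) hC n
        have h2 := ct_mem_XX (ph univ) h1
        have hd' := hd.tail le_sup_left (H.nl f (H.sub hf)) (H.par f hf)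
        simpa [rho_apply, bar_eq h1, ct_eq h1, bar_eq h2, ct_eq h2, hf] using
          And.intro (J5 hC hd' n) (Bas.mem (Bas.r4 C hC hd' n))
      · simp [rho_apply, hf, hf']
  · rcases GP_cases Q hg with ⟨h1, h2, h3⟩ | ⟨f, hf, rfl⟩
    · simpa [rho_apply, h2, h3] using And.intro (mu_JJ h1 ha.1) (mu_JJ h1 ha.2)
    · simpa [rho_apply, hf] using ha.1

lemma ker_aux (hx : x ∈ XX N P) : mu (eU e) (x - br (kl Q) x) ∈ JJ h m P Y :=
  XX_map (mu (eU e) ∘ₗ (LinearMap.id - br (kl Q))) (fun n => by simp) (fun g hg a ha ha' => by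
    rcases GP_cases Q hg with ⟨-, h2, -⟩ | ⟨f, hf, rfl⟩
    · simpa [h2, mu_swap (eU e) g, neg_add_eq_sub, ← sub_eq_add_neg] using neg_mem (mu_JJ hg ha')
    · simpa [hf, mu_mu] using mu_JJ (eU_mem (H.sub H.mem)) (H.j4 (m := m) hf ha)) hx

omit H in
lemma mu_sup {g : V × (E → K)} (hg : g ∈ GP (P \ Q)) (hx : x ∈ XX N (P \ Q) ⊔ JJ h m P Y) :
    mu g x ∈ XX N (P \ Q) ⊔ JJ h m P Y := by
  obtain ⟨a, ha, b, hb, rfl⟩ := Submodule.mem_sup.1 hx
  rw [map_add]
  exact Submodule.add_mem_sup (mu_XX hg ha) (mu_JJ (GP_mono sdiff_subset hg) hb)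

lemma ker (hx : x ∈ XX N P) : x - mu (eU e) (rho Q x) ∈ XX N (P \ Q) ⊔ JJ h m P Y :=
  XX_map (LinearMap.id - mu (eU e) ∘ₗ rho Q)
    (fun n => by simpa [rho_apply] using Submodule.mem_sup_left (inn_mem n))
    (fun g hg a ha ha' => by
      rcases GP_cases Q hg with ⟨h1, h2, h3⟩ | ⟨f, hf, rfl⟩
      · simpa [rho_apply, h2, h3, mu_swap (eU e) g] using mu_sup h1 ha'
      · refine Submodule.mem_sup_right ?_
        simpa [rho_apply, hf] using add_mem (H.j4 hf ha) (H.ker_aux ha)) hx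

lemma e_de (hx : x ∈ XX N P) : mu (eU e) (mu (dU (h e)) x) ∈ JJ h m P Y := by
  simpa [mu_mu] using mu_JJ (eU_mem (H.sub H.mem)) (J3 (h := h) (m := m) (H.sub H.mem) hx)

lemma sec (hx : x ∈ JJ h m (P \ Q) (Y ⊔ K ∙ h e)) :
    mu (eU e) x ∈ XX N (P \ Q) ⊔ JJ h m P Y := by
  have he := H.sub H.mem
  refine Cl_map (mu (eU e)) (fun x hx => ?_) (fun g hg a _ ha => ?_) hx
  · cases hx with
    | r1 y hy n =>
      obtain ⟨y, hy', z, hz, rfl⟩ := Submodule.mem_sup.1 hy
      obtain ⟨c, rfl⟩ := Submodule.mem_span_singleton.1 hz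
      have := Submodule.add_mem_sup (Submodule.smul_mem _ c (mu_XX (P := P \ Q) (dU_mem (h e))
        (inn_mem n))) (add_mem (mu_JJ (eU_mem he) (Bas.mem (Bas.r1 y hy' n)))
          (Submodule.smul_mem _ c (Bas.mem (Bas.r3 (h := h) (m := m) e he n))))
      convert this using 1
      simp [smul_sub]
      abel
    | r2 y hy n =>
      obtain ⟨y, hy', z, hz, rfl⟩ := Submodule.mem_sup.1 hy
      obtain ⟨c, rfl⟩ := Submodule.mem_span_singleton.1 hz
      refine Submodule.mem_sup_right ?_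
      simpa using add_mem (mu_JJ (eU_mem he) (Bas.mem (Bas.r2 y hy' n)))
        (Submodule.smul_mem _ c (H.e_de (inn_mem n)))
    | r3 f hf n =>
      exact Submodule.mem_sup_right
        (mu_JJ (eU_mem he) (Bas.mem (Bas.r3 f (mem_sdiff.1 hf).1 n)))
    | r4 C hC hd n =>
      have := Submodule.add_mem_sup (eL_mem hC n) (neg_mem (Bas.mem
        (Bas.r4 (m := m) (P := P) (e :: C) (by simpa [he] using fun c hc => (mem_sdiff.1 (hC c hc)).1)
          (hd.cons fun hc => (mem_sdiff.1 (hC e hc)).2 H.mem) n)))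
      simpa using this
  · rw [mu_swap]
    exact neg_mem (mu_sup hg ha)

end Cls

variable (h m) in
/-- Torsion freeness. -/
def TF (P : Finset E) (Y : Submodule K V) : Prop :=
  ∀ v ∉ Y, ∀ x ∈ XX N P, rT (m v) x ∈ JJ h m P Y → x ∈ JJ h m P Y

variable (h m) in
/-- Multiplication by `h e`, written without the generators in `Q`. -/
def psi (Q : Finset E) (e : E) : LL K (V × (E → K)) N →ₗ[K] LL K (V × (E → K)) N :=
  rT (m (h e)) ∘ₗ br (kl Q) + mu (dU (h e)) ∘ₗ rho Q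

omit [Fintype E] in
lemma psi_apply : psi h m Q e x = rT (m (h e)) (br (kl Q) x) + mu (dU (h e)) (rho Q x) := rfl

variable (hm : ∀ v w n, m v (m w n) = m w (m v n))
include hm

lemma Cls.psi_mem (H : Cls h P Q Y e) (T : TF h m (P \ Q) Y) (hx : x ∈ JJ h m P Y) :
    psi h m Q e x ∈ JJ h m (P \ Q) Y := by
  have M : ∀ v, ∀ x ∈ JJ h m (P \ Q) Y, rT (m v) x ∈ JJ h m (P \ Q) Y :=
    fun v x => rT_mem_JJ (hm v)
  refine Cl_map (psi h m Q e) (fun x hx => ?_) (fun g hg a ha ha' => ?_) hx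
  · cases hx with
    | r1 y hy n => simpa [psi_apply, rho_apply] using M (h e) _ (Bas.mem (Bas.r1 y hy n))
    | r2 y hy n => simpa [psi_apply, rho_apply] using M (h e) _ (Bas.mem (Bas.r2 y hy n))
    | r3 f hf n =>
      by_cases hQ : f ∈ Q
      · obtain ⟨c, -, hc⟩ := H.ex hQ
        convert sub_mem (mu_JJ (dU_mem (h e)) (Bas.mem (Bas.r1 _ hc n)))
          (M (h e) _ (Bas.mem (Bas.r2 _ hc n))) using 1
        simp [psi_apply, rho_apply, hQ]
        abel
      · simpa [psi_apply, rho_apply, hQ] using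
          M (h e) _ (Bas.mem (Bas.r3 f (mem_sdiff.2 ⟨hf, hQ⟩) n))
    | r4 C hC hd n =>
      refine r4_cases Q _ n (fun C hC hd => ?_) (fun f hf C hC hd => ?_) (fun f hf f' hf' z => ?_)
        C hC hd
      · have := ct_mem_XX (ph univ) (eL_mem (K := K) (V := V) hC n)
        rw [psi_apply, rho_apply, bar_eq this, ct_eq this, map_zero, map_zero, add_zero]
        exact M _ _ (Bas.mem (Bas.r4 C hC hd n))
      · have h1 := eL_mem (K := K) (V := V) hC n
        have h2 := ct_mem_XX (ph univ) h1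
        set z := eL C (inn n : LL K (V × (E → K)) N) with hz
        let Θ : V →ₗ[K] LL K (V × (E → K)) N :=
          rT.flip z ∘ₗ m - mu.flip (ct (ph univ) z) ∘ₗ dU
        have hΘ : ∀ v, Θ v = rT (m v) z - mu (dU v) (ct (ph univ) z) := fun v => rfl
        suffices Θ (h e) ∈ JJ h m (P \ Q) Y by
          simpa [psi_apply, rho_apply, bar_eq h1, ct_eq h1, bar_eq h2, ct_eq h2, hf, hΘ,
            sub_eq_add_neg] using this
        obtain ⟨l, ⟨g, hg⟩, hl, hs⟩ := hd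
        by_cases hlf : l f = 0
        · have hd' : Dep h Y C := ⟨l, ⟨g, hg⟩, fun c hc => (List.mem_cons.1 (hl c hc)).resolve_left
            fun h' => hc (h' ▸ hlf), hs⟩
          exact sub_mem (M _ _ (J5 hC hd' n)) (mu_JJ (dU_mem _) (Bas.mem (Bas.r4 C hC hd' n)))
        have hY : Y ≤ (JJ h m (P \ Q) Y).comap Θ := fun y hy => sub_mem (J1 hy h1) (J2 hy h2)
        obtain ⟨c, hc0, hc⟩ := H.ex hf
        have h3 : ∑ c ∈ univ.erase f, l c • h c ∈ (JJ h m (P \ Q) Y).comap Θ := by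
          refine sum_mem fun c hc => ?_
          by_cases hlc : l c = 0
          · simp [hlc]
          have hcC := (List.mem_cons.1 (hl c hlc)).resolve_left (ne_of_mem_erase hc)
          refine Submodule.smul_mem _ _ ?_
          have := J3 (h := h) (m := m) (Y := Y) (hC c hcC) h2
          rwa [← rT_mu, mu_ct_eL hcC] at this
        have h4 := hY hs
        rw [← sum_erase_add _ _ (mem_univ f), add_mem_cancel_left h3,
          Submodule.smul_mem_iff _ hlf] at h4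
        exact (Submodule.smul_mem_iff _ hc0).1 (by simpa using sub_mem h4 (hY hc))
      · simp [psi_apply, rho_apply, hf, hf']
  · rcases GP_cases Q hg with ⟨h1, h2, h3⟩ | ⟨f, hf, rfl⟩
    · simpa [psi_apply, rho_apply, h2, h3, mu_swap (dU (h e)) g] using mu_JJ h1 ha'
    · have := T _ (H.nl e (H.sub H.mem)) _ (mu_XX (dU_mem (h e)) (bar_mem (JJ_le_XX ha)))
        (by simpa [psi_apply, mu_mu] using mu_JJ (dU_mem (h e)) ha')
      simpa [psi_apply, rho_apply, hf] using this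

lemma Cls.inj (H : Cls h P Q Y e) (T : TF h m (P \ Q) Y) (hx : x ∈ XX N (P \ Q))
    (hx' : x ∈ JJ h m P Y) : x ∈ JJ h m (P \ Q) Y :=
  T _ (H.nl e (H.sub H.mem)) _ hx
    (by simpa [psi_apply, rho_apply, bar_eq hx, ct_eq hx] using H.psi_mem hm T hx')

variable (m) in
/-- The submodule generated by the forms in `Y`. -/
def YN (Y : Submodule K V) : Submodule K N := Submodule.span K {a | ∃ y ∈ Y, ∃ n, a = m y n}

omit hm in
lemma mem_YN {y : V} (hy : y ∈ Y) (n : N) : m y n ∈ YN m Y := Submodule.subset_span ⟨y, hy, n, rfl⟩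

omit hm in
lemma YN_map {M : Type} [AddCommGroup M] [Module K M] (F : N →ₗ[K] M) {Z : Submodule K M}
    (bas : ∀ y ∈ Y, ∀ n, F (m y n) ∈ Z) {a : N} (ha : a ∈ YN m Y) : F a ∈ Z :=
  (Submodule.span_le.2 (by rintro _ ⟨y, hy, n, rfl⟩; exact bas y hy n) : YN m Y ≤ Z.comap F) ha

omit hm in
lemma map_mem_YN {A : N →ₗ[K] N} (hA : ∀ v n, A (m v n) = m v (A n)) {a : N} (ha : a ∈ YN m Y) :
    A a ∈ YN m Y := YN_map A (fun y hy n => hA y n ▸ mem_YN hy _) ha

omit hm in
lemma inn_mem_JJ {a : N} (ha : a ∈ YN m Y) : inn a ∈ JJ h m P Y :=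
  YN_map inn (fun y hy n => (Bas.r1 y hy n).mem) ha

variable (hN : ∀ (Y : Submodule K V), ∀ v ∉ Y, ∀ n, m v n ∈ YN m Y → n ∈ YN m Y)
include hN

lemma tf_empty (Y : Submodule K V) : TF h m ∅ Y := by
  obtain ⟨Y', hY'⟩ := Y.exists_isCompl
  let π : V →ₗ[K] V := LinearMap.id - Y.projection Y' hY'
  have π1 : ∀ y ∈ Y, π y = 0 := fun y hy => by simp [π, Submodule.projection_apply_of_mem_left hY' hy]
  have π2 : ∀ v, v - π v ∈ Y := fun v => by simp [π]
  let πU : V × (E → K) →ₗ[K] V × (E → K) := dU ∘ₗ π ∘ₗ LinearMap.fst K _ _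
  have hπ : ∀ v, πU (dU v) = dU (π v) := fun v => rfl
  have a : ∀ x ∈ XX N (∅ : Finset E), x - br πU x ∈ JJ h m ∅ Y := fun x hx =>
    XX_map (LinearMap.id - br πU) (by simp) (by
      rintro _ (⟨v, rfl⟩ | ⟨f, hf, rfl⟩) a ha ha'
      · simpa [hπ] using add_mem (J2 (π2 v) ha) (mu_JJ (dU_mem (π v)) ha')
      · simp at hf) hx
  have b : ∀ x ∈ JJ h m ∅ Y, rT (YN m Y).mkQ (br πU x) = 0 := fun x hx =>
    Cl_map (rT (YN m Y).mkQ ∘ₗ br πU) (Z := ⊥) (fun x hx => by
      cases hx with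
      | r1 y hy n => simp [(Submodule.Quotient.mk_eq_zero _).2 (mem_YN hy n)]
      | r2 y hy n => simp [hπ, π1 y hy]
      | r3 f hf n => simp at hf
      | r4 C hC hd n =>
        obtain ⟨l, ⟨f, hf⟩, h2, -⟩ := hd
        simpa using hC f (h2 f hf)) (fun g _ a _ ha => by
      simp only [Submodule.mem_bot, LinearMap.comp_apply] at ha ⊢
      rw [br_mu, rT_mu, ha, map_zero]) hx
  have c : ∀ y, br πU (rT (YN m Y).subtype y) ∈ JJ h m ∅ Y := fun y => by
    induction y using ll_induction with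
    | inn n => simpa using inn_mem_JJ n.2
    | add a b ha hb => simpa using add_mem ha hb
    | mu u a ha => rw [rT_mu, br_mu]; exact mu_JJ (dU_mem _) ha
  intro v hv x hx hvx
  have inj : Function.Injective ((YN m Y).mapQ (YN m Y) (m v) fun _ => map_mem_YN (hm v)) := by
    rw [injective_iff_map_eq_zero]
    intro z hz
    obtain ⟨n, rfl⟩ := (YN m Y).mkQ_surjective z
    exact (Submodule.Quotient.mk_eq_zero _).2 (hN Y v hv n ((Submodule.Quotient.mk_eq_zero _).1 hz))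
  obtain ⟨y, hy⟩ := exists_of_rT_mkQ (YN m Y) (x := br πU x) (rT_injective inj (by
    rw [map_zero, rT_rT, Submodule.mapQ_mkQ, ← rT_rT, rT_br (m v), b _ hvx]))
  have h1 := a x hx
  have h2 := a (br πU x) (by simpa using sub_mem hx (JJ_le_XX h1))
  have h3 := c y
  rw [hy] at h3
  simpa using add_mem (add_mem h1 h2) h3

lemma tf_par (H : Cls h P P Y e) (hx : x ∈ XX N P) (hx' : rT (m (h e)) x ∈ JJ h m P Y) :
    x ∈ JJ h m P Y := by
  have he := H.nl e H.mem
  obtain ⟨ξ, ξ1, ξ0⟩ := Y.exists_dual_map_eq_bot_of_notMem he inferInstance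
  replace ξ0 : ∀ y ∈ Y, ξ y = 0 := fun y hy => by simpa [ξ0] using Submodule.mem_map_of_mem (f := ξ) hy
  let φ : V × (E → K) →ₗ[K] K := ((ξ (h e))⁻¹ • ξ) ∘ₗ LinearMap.fst K _ _
  have φ1 : φ (dU (h e)) = 1 := by simp [φ, dU, ξ1]
  have T : TF h m (P \ P) Y := by rw [Finset.sdiff_self]; exact tf_empty hm hN Y
  have c : ∀ x ∈ JJ h m (P \ P) Y, ct φ x ∈ JJ h m (P \ P) Y := fun x hx =>
    Cl_map (ct φ) (fun x hx => by
      cases hx with
      | r1 y hy n => simp
      | r2 y hy n => simp [φ, dU, ξ0 y hy]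
      | r3 f hf n => simp at hf
      | r4 C hC hd n =>
        obtain ⟨l, ⟨f, hf⟩, h2, -⟩ := hd
        simpa using hC f (h2 f hf)) (fun g hg a ha ha' => by
      rw [ct_mu]; exact sub_mem (Submodule.smul_mem _ _ ha) (mu_JJ hg ha')) hx
  obtain ⟨α, hα, j, hj, e1⟩ := Submodule.mem_sup.1 (H.ker (m := m) hx)
  have hβ := rho_mem (Q := P) hx
  have h1 : psi h m P e x ∈ JJ h m (P \ P) Y :=
    T _ he _ (add_mem (rT_mem_XX _ (bar_mem hx)) (mu_XX (dU_mem _) (rho_mem hx))) (by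
      simpa [psi_apply, rho_apply, rT_comm (hm (h e) (h e))] using H.psi_mem hm T hx')
  generalize rho P x = β at e1 hβ
  obtain rfl : x = α + j + mu (eU e) β := by rw [e1, sub_add_cancel]
  have h2 : rT (m (h e)) α + mu (dU (h e)) β ∈ JJ h m (P \ P) Y := by
    have := sub_mem h1 (H.psi_mem hm T hj)
    rw [← map_sub, add_sub_right_comm, add_sub_cancel_right] at this
    simpa [psi_apply, rho_apply, bar_eq hα, ct_eq hα, bar_eq hβ, H.mem] using this
  have h3 := c _ (T _ he _ (mu_XX (dU_mem (h e)) hα)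
    (by simpa [mu_mu] using mu_JJ (dU_mem (h e)) h2))
  have le : JJ h m (P \ P) Y ≤ JJ h m P Y := JJ_mono sdiff_subset le_rfl
  have le' : XX (K := K) (V := V) N (P \ P) ≤ XX N P := XX_mono sdiff_subset
  have := add_mem (add_mem (add_mem hj (le h3)) (mu_JJ (eU_mem H.mem) (le (c _ h2))))
    (sub_mem (H.e_de (ct_mem_XX φ (le' hβ))) (J3 H.mem (ct_mem_XX φ (le' hα))))
  convert this using 1
  simp [φ1]
  abel

theorem tf (P : Finset E) (Y : Submodule K V) (hP : ∀ f ∈ P, h f ∉ Y) : TF h m P Y := by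
  classical
  induction P using Finset.strongInduction generalizing Y with
  | H P ih =>
  intro v hv x hx hvx
  by_cases hA : ∃ e ∈ P, v ∉ Y ⊔ K ∙ h e
  · obtain ⟨e, he, hve⟩ := hA
    have H : Cls h P (P.filter fun f => h f ∈ Y ⊔ K ∙ h e) Y e := ⟨filter_subset _ _,
      mem_filter.2 ⟨he, Submodule.mem_sup_right (Submodule.mem_span_singleton_self _)⟩, hP,
      fun f hf => (mem_filter.1 hf).2⟩
    have hlt := sdiff_ssubset H.sub ⟨e, H.mem⟩
    have T := ih _ hlt Y fun f hf => hP f (mem_sdiff.1 hf).1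
    have h1 := ih _ hlt (Y ⊔ K ∙ h e) (fun f hf h' => (mem_sdiff.1 hf).2
      (mem_filter.2 ⟨(mem_sdiff.1 hf).1, h'⟩)) v hve _ (rho_mem hx)
      (by simpa [rho_apply] using (H.res hvx).2)
    obtain ⟨y, hy, j, hj, e1⟩ := Submodule.mem_sup.1 (add_mem (H.ker hx) (H.sec h1))
    rw [sub_add_cancel] at e1
    subst e1
    refine add_mem (JJ_mono sdiff_subset le_rfl (T v hv y hy (H.inj hm T (rT_mem_XX _ hy) ?_))) hj
    simpa using sub_mem hvx (rT_mem_JJ (hm v) hj)
  rcases P.eq_empty_or_nonempty with rfl | ⟨e, he⟩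
  · exact tf_empty hm hN Y v hv x hx hvx
  push Not at hA
  have ex : ∀ f ∈ P, ∃ c : K, c ≠ 0 ∧ v - c • h f ∈ Y := fun f hf => by
    obtain ⟨y, hy, z, hz, rfl⟩ := Submodule.mem_sup.1 (hA f hf)
    obtain ⟨c, rfl⟩ := Submodule.mem_span_singleton.1 hz
    exact ⟨c, by rintro rfl; exact hv (by simpa using hy), by simpa using hy⟩
  obtain ⟨c, hc, hc'⟩ := ex e he
  refine tf_par hm hN ⟨subset_rfl, he, hP, fun f hf => ?_⟩ hx
    ((Submodule.smul_mem_iff _ hc).1 (by simpa using sub_mem hvx (J1 hc' hx)))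
  obtain ⟨c, hc, hc'⟩ := ex f hf
  exact (Submodule.smul_mem_iff _ hc).1
    (by simpa using sub_mem (hA e he) (Submodule.mem_sup_left hc'))

end

end Pool.Agent.MP_8e2770_co.H72
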