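import Mathlib

/-!
Gradings given by the eigenspaces of an operator for the powers of an element of infinite order.
-/

namespace Pool.Agent.MP_8e2770_co.H72

noncomputable section

variable {K : Type} [Field K] {M M' : Type} [AddCommGroup M] [Module K M] [AddCommGroup M']
  [Module K M']

/-- The elements of degree `s`. -/
def Eig (T : M →ₗ[K] M) (t : K) (s : ℤ) : Submodule K M := Module.End.eigenspace T (t ^ s)

/-- The elements of degree at least `a`. -/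
def Ge (T : M →ₗ[K] M) (t : K) (a : ℤ) : Submodule K M := ⨆ s ∈ Set.Ici a, Eig T t s

/-- The elements of degree less than `a`. -/
def Lt (T : M →ₗ[K] M) (t : K) (a : ℤ) : Submodule K M := ⨆ s ∈ Set.Iio a, Eig T t s

/-- The sums of homogeneous elements. -/
def Gr (T : M →ₗ[K] M) (t : K) : Submodule K M := ⨆ s, Eig T t s

variable {T : M →ₗ[K] M} {T' : M' →ₗ[K] M'} {t : K}

lemma mem_Eig {s : ℤ} {x : M} : x ∈ Eig T t s ↔ T x = t ^ s • x := Module.End.mem_eigenspace_iff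

lemma Eig_le_Ge {a s : ℤ} (h : a ≤ s) : Eig T t s ≤ Ge T t a :=
  le_biSup (fun s => Eig T t s) (Set.mem_Ici.2 h)

lemma Eig_le_Lt {a s : ℤ} (h : s < a) : Eig T t s ≤ Lt T t a :=
  le_biSup (fun s => Eig T t s) (Set.mem_Iio.2 h)

lemma Eig_le_Gr (s : ℤ) : Eig T t s ≤ Gr T t := le_iSup (fun s => Eig T t s) s

lemma Ge_le {a : ℤ} {X : Submodule K M} (h : ∀ s, a ≤ s → Eig T t s ≤ X) : Ge T t a ≤ X :=
  iSup₂_le h

lemma Lt_le {a : ℤ} {X : Submodule K M} (h : ∀ s, s < a → Eig T t s ≤ X) : Lt T t a ≤ X :=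
  iSup₂_le h

lemma Ge_anti {a b : ℤ} (h : a ≤ b) : Ge T t b ≤ Ge T t a :=
  Ge_le fun _ hs => Eig_le_Ge (h.trans hs)

lemma ne_zero_of_inj (ht : Function.Injective fun m : ℤ => t ^ m) : t ≠ 0 := by
  rintro rfl
  have := @ht 1 2 (by simp)
  omega

lemma disjoint_Ge_Lt (ht : Function.Injective fun m : ℤ => t ^ m) (a : ℤ) :
    Disjoint (Ge T t a) (Lt T t a) :=
  ((Module.End.eigenspaces_iSupIndep T).comp ht).disjoint_biSup_biSup
    (Set.disjoint_left.2 fun _ h h' => absurd (Set.mem_Iio.1 h') (not_lt.2 h))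

lemma eq_zero_of_Ge_Lt (ht : Function.Injective fun m : ℤ => t ^ m) {a : ℤ} {x : M}
    (h : x ∈ Ge T t a) (h' : x ∈ Lt T t a) : x = 0 :=
  Submodule.disjoint_def.1 (disjoint_Ge_Lt ht a) x h h'

lemma inf_Gr_le (ht : Function.Injective fun m : ℤ => t ^ m) {X : Submodule K M}
    (hX : ∀ x ∈ X, T x ∈ X) {x : M} (hx : x ∈ X) (hx' : x ∈ Gr T t) :
    x ∈ ⨆ s, X ⊓ Eig T t s := by
  have key : ∀ (F : Finset ℤ) (y : ℤ → M), (∀ s, y s ∈ Eig T t s) → ∑ s ∈ F, y s ∈ X →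
      ∀ s ∈ F, y s ∈ X := by
    intro F
    induction F using Finset.induction_on with
    | empty => simp
    | insert a F ha ih =>
      intro y hy hs
      have h1 : ∑ s ∈ F, (t ^ s - t ^ a) • y s ∈ X := by
        convert sub_mem (hX _ hs) (X.smul_mem (t ^ a) hs) using 1
        simp only [Finset.sum_insert ha, map_add, map_sum, mem_Eig.1 (hy _), sub_smul,
          Finset.sum_sub_distrib, smul_add, Finset.smul_sum]
        abel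
      have h2 : ∀ s ∈ F, y s ∈ X := fun s hs' =>
        (X.smul_mem_iff (sub_ne_zero.2 fun h => ha ((@ht s a h) ▸ hs'))).1
          (ih _ (fun s => Submodule.smul_mem _ _ (hy s)) h1 s hs')
      intro s hs'
      rcases Finset.mem_insert.1 hs' with rfl | hs'
      · rw [Finset.sum_insert ha] at hs
        exact (add_mem_cancel_right (sum_mem h2)).1 hs
      · exact h2 s hs'
  obtain ⟨y, hy, rfl⟩ := (Submodule.mem_iSup_iff_exists_finsupp _ _).1 hx'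
  exact sum_mem fun s hs => Submodule.mem_iSup_of_mem s ⟨key _ y hy hx s hs, hy s⟩

lemma split (ht : Function.Injective fun m : ℤ => t ^ m) {X : Submodule K M}
    (hX : ∀ x ∈ X, T x ∈ X) {x : M} (hx : x ∈ X) (hx' : x ∈ Gr T t) (a : ℤ) :
    ∃ y ∈ X, ∃ z ∈ X, y ∈ Ge T t a ∧ z ∈ Lt T t a ∧ x = y + z := by
  have : (⨆ s, X ⊓ Eig T t s) ≤ X ⊓ Ge T t a ⊔ X ⊓ Lt T t a := iSup_le fun s => by
    rcases le_or_gt a s with h | h
    · exact le_sup_of_le_left (inf_le_inf_left _ (Eig_le_Ge h))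
    · exact le_sup_of_le_right (inf_le_inf_left _ (Eig_le_Lt h))
  obtain ⟨y, hy, z, hz, h⟩ := Submodule.mem_sup.1 (this (inf_Gr_le ht hX hx hx'))
  exact ⟨y, hy.1, z, hz.1, hy.2, hz.2, h.symm⟩

lemma Eig_map (h0 : t ≠ 0) (r : M →ₗ[K] M') (k : ℤ) (hr : ∀ x, T' (r x) = t ^ k • r (T x))
    {s : ℤ} {x : M} (hx : x ∈ Eig T t s) : r x ∈ Eig T' t (s + k) := by
  rw [mem_Eig, hr, mem_Eig.1 hx, map_smul, smul_smul, add_comm, zpow_add₀ h0]

lemma Ge_map (h0 : t ≠ 0) (r : M →ₗ[K] M') (k : ℤ) (hr : ∀ x, T' (r x) = t ^ k • r (T x))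
    {a : ℤ} {x : M} (hx : x ∈ Ge T t a) : r x ∈ Ge T' t (a + k) :=
  Ge_le (X := (Ge T' t (a + k)).comap r)
    (fun _ hs _ hy => Eig_le_Ge (by omega) (Eig_map h0 r k hr hy)) hx

lemma Lt_map (h0 : t ≠ 0) (r : M →ₗ[K] M') (k : ℤ) (hr : ∀ x, T' (r x) = t ^ k • r (T x))
    {a : ℤ} {x : M} (hx : x ∈ Lt T t a) : r x ∈ Lt T' t (a + k) :=
  Lt_le (X := (Lt T' t (a + k)).comap r)
    (fun _ hs _ hy => Eig_le_Lt (by omega) (Eig_map h0 r k hr hy)) hx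

lemma Gr_map (h0 : t ≠ 0) (r : M →ₗ[K] M') (k : ℤ) (hr : ∀ x, T' (r x) = t ^ k • r (T x))
    {x : M} (hx : x ∈ Gr T t) : r x ∈ Gr T' t :=
  (iSup_le (fun _ _ hy => Eig_le_Gr _ (Eig_map h0 r k hr hy)) : Gr T t ≤ (Gr T' t).comap r) hx

lemma Gr_bilin {U : Type} [AddCommGroup U] [Module K U] {σ : U →ₗ[K] U} (h0 : t ≠ 0)
    (B : U →ₗ[K] M →ₗ[K] M') (hB : ∀ u x, T' (B u x) = B (σ u) (T x)) {u : U} {x : M}
    (hu : u ∈ Gr σ t) (hx : x ∈ Gr T t) : B u x ∈ Gr T' t :=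
  (iSup_le fun s u hu => Gr_map h0 (B u) s (by simp [hB, mem_Eig.1 hu]) hx :
    Gr σ t ≤ (Gr T' t).comap (B.flip x)) hu

lemma Ge_map₀ (h0 : t ≠ 0) (r : M →ₗ[K] M') (hr : ∀ x, T' (r x) = r (T x))
    {a : ℤ} {x : M} (hx : x ∈ Ge T t a) : r x ∈ Ge T' t a := by
  simpa using Ge_map h0 r 0 (by simpa using hr) hx

lemma Lt_map₀ (h0 : t ≠ 0) (r : M →ₗ[K] M') (hr : ∀ x, T' (r x) = r (T x))
    {a : ℤ} {x : M} (hx : x ∈ Lt T t a) : r x ∈ Lt T' t a := by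
  simpa using Lt_map h0 r 0 (by simpa using hr) hx

/-- The subquotient `X / J` has no cohomology in degrees at least `a`. -/
def AcycGe (δ T : M →ₗ[K] M) (t : K) (a : ℤ) (X J : Submodule K M) : Prop :=
  ∀ x ∈ X, x ∈ Ge T t a → δ x ∈ J → ∃ g ∈ X, x - δ g ∈ J

variable {δ : M →ₗ[K] M}

lemma AcycGe.mono {a b : ℤ} {X J : Submodule K M} (h : AcycGe δ T t a X J) (hab : a ≤ b) :
    AcycGe δ T t b X J := fun x hx hx' => h x hx (Ge_anti hab hx')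

/-- One may pass to the part of degree at least `a` in a decomposition. -/
lemma split_three (ht : Function.Injective fun m : ℤ => t ^ m) (hG : ∀ x, x ∈ Gr T t)
    (hδT : ∀ x, T (δ x) = δ (T x)) {X X' J : Submodule K M} (hX : ∀ x ∈ X, T x ∈ X)
    (hX' : ∀ x ∈ X', T x ∈ X') (hJ : ∀ x ∈ J, T x ∈ J) {a : ℤ} {x g : M} (hx : x ∈ Ge T t a)
    (hg : g ∈ X) (h : x - δ g ∈ X' ⊔ J) :
    ∃ g ∈ X, ∃ y ∈ X', g ∈ Ge T t a ∧ y ∈ Ge T t a ∧ x - δ g - y ∈ J := by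
  obtain ⟨y, hy, j, hj, e⟩ := Submodule.mem_sup.1 h
  obtain ⟨g1, hg1, g2, -, a1, a2, rfl⟩ := split ht hX hg (hG g) a
  obtain ⟨y1, hy1, y2, -, b1, b2, rfl⟩ := split ht hX' hy (hG y) a
  obtain ⟨j1, hj1, j2, -, c1, c2, rfl⟩ := split ht hJ hj (hG j) a
  have h0 := ne_zero_of_inj ht
  have : x - δ g1 - y1 - j1 = 0 := by
    refine eq_zero_of_Ge_Lt ht
      (sub_mem (sub_mem (sub_mem hx (Ge_map₀ h0 δ hδT a1)) b1) c1) ?_
    convert add_mem (add_mem (Lt_map₀ h0 δ hδT a2) b2) c2 using 1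
    rw [map_add, eq_sub_iff_add_eq] at e
    rw [← e]; abel
  exact ⟨g1, hg1, y1, hy1, a1, b1, sub_eq_zero.1 this ▸ hj1⟩

/-- The long exact sequence of a short exact sequence of subquotients. -/
lemma AcycGe.step (ht : Function.Injective fun m : ℤ => t ^ m) (hG : ∀ x, x ∈ Gr T t)
    (hδ : ∀ x, δ (δ x) = 0) (hδT : ∀ x, T (δ x) = δ (T x)) {X J X' J' X'' J'' : Submodule K M}
    (hX : ∀ x ∈ X, T x ∈ X) (hX' : ∀ x ∈ X', T x ∈ X') (hJ : ∀ x ∈ J, T x ∈ J)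
    (hδX' : ∀ x ∈ X', δ x ∈ X') (hδJ : ∀ x ∈ J, δ x ∈ J) (h1 : X' ≤ X) (h2 : J' ≤ J)
    (h3 : ∀ x ∈ X', x ∈ J → x ∈ J') (r s : M →ₗ[K] M) (hr : ∀ x, r (δ x) = δ (r x))
    (hs : ∀ x, s (δ x) = δ (s x)) (hrX : ∀ x ∈ X, r x ∈ X'') (hrJ : ∀ x ∈ J, r x ∈ J'')
    (hsX : ∀ x ∈ X'', s x ∈ X) (hsJ : ∀ x ∈ J'', s x ∈ X' ⊔ J)
    (hsr : ∀ x ∈ X, x - s (r x) ∈ X' ⊔ J) {a b : ℤ} (hab : ∀ x ∈ Ge T t a, r x ∈ Ge T t b)
    (A' : AcycGe δ T t a X' J') (A'' : AcycGe δ T t b X'' J'') : AcycGe δ T t a X J := by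
  intro x hx hxa hd
  obtain ⟨g, hg, h⟩ := A'' _ (hrX x hx) (hab x hxa) (hr x ▸ hrJ _ hd)
  obtain ⟨g, hg, y, hy, -, hya, h⟩ := split_three ht hG hδT hX hX' hJ hxa (hsX g hg) (by
    convert add_mem (hsr x hx) (hsJ _ h) using 1
    rw [map_sub, hs]; abel)
  obtain ⟨g', hg', h'⟩ := A' y hy hya (h3 _ (hδX' y hy) (by
    simpa [hδ] using sub_mem hd (hδJ _ h)))
  refine ⟨g + g', add_mem hg (h1 hg'), ?_⟩
  convert add_mem h (h2 h') using 1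
  rw [map_add]; abel

end

end Pool.Agent.MP_8e2770_co.H72
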