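import Pool.Agent.MP_8e2770_co.H72.Zigzag
import Pool.Agent.MP_8e2770_co.H72.Adapted
import Pool.Agent.MP_8e2770_co.H72.Arr

/-!
Lowering the twist with Euler vector fields.
-/

namespace Pool.Agent.MP_8e2770_co.H72

open MvPolynomial Finset

noncomputable section

variable {K : Type} [Field K] {n : ℕ} {E : Type} [Fintype E] [DecidableEq E]
  {h : E → Fin n → K} {c : Finset (Finset E)} {m m' : Finset E → ℤ} {S : Finset E} {x : Om K n}

omit [DecidableEq E] in
lemma Fw_anti (hm : ∀ S ∈ c, m S ≤ m' S) : Fw h m' c ≤ Fw h m c :=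
  Sp_mono (fun _ hu S hS => (hm S hS).trans (hu S hS)) subset_rfl

omit [DecidableEq E] in
lemma mono_smul_Fw (hh : ∀ e, h e ≠ 0) (u : E → ℤ) (hu : ∀ S ∈ c, m' S ≤ ∑ e ∈ S, u e + m S)
    (hx : x ∈ Fw h m c) : mono h u • x ∈ Fw h m' c :=
  mono_smul_Sp hh u (fun u' hu' S hS => by
    have := hu S hS
    have := hu' S hS
    simp only [Pi.add_apply, sum_add_distrib]; omega) hx

lemma ratio_eq (hh : ∀ e, h e ≠ 0) (b e : E) :
    (L (h e))⁻¹ * L (h b) = mono h (Pi.single b 1 - Pi.single e 1) := by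
  rw [sub_eq_neg_add, ← Pi.single_neg, mono_add hh, mono_single, mono_single, zpow_neg_one, zpow_one]

omit [Fintype E] in
lemma sum_ratio (b e : E) (S : Finset E) : ∑ e' ∈ S, (Pi.single b 1 - Pi.single e 1 : E → ℤ) e' =
    (if b ∈ S then 1 else 0) - if e ∈ S then 1 else 0 := by
  simp [sum_sub_distrib, Pi.single_apply]

lemma step_open (hh : ∀ e, h e ≠ 0) (hc : IsChain (· ⊆ ·) (c : Set (Finset E))) (hS : S ∈ c)
    {e : E} (he : e ∉ S) (he' : h e ∈ Submodule.span K (h '' S)) :
    Fw h m c ≤ Fw h (m + Pi.single S 1) c := by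
  intro x hx
  obtain ⟨l, hl⟩ := (Submodule.mem_span_image_finset_iff_exists_fun' K).1 he'
  rw [← inv_smul_smul₀ (L_ne_zero (hh e)) x, smul_smul]
  nth_rewrite 2 [← hl]
  rw [map_sum, mul_sum, sum_smul]
  refine sum_mem fun b hb => ?_
  rw [map_smul, mul_smul_comm, smul_assoc, ratio_eq hh]
  refine Submodule.smul_mem _ _ (mono_smul_Fw hh _ (fun S' hS' => ?_) hx)
  rw [sum_ratio]
  by_cases h1 : S' = S
  · simp [h1, hb, he, add_comm]
  · rcases hc (mem_coe.2 hS') (mem_coe.2 hS) h1 with h2 | h2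
    · simp [h1, mt (@h2 e) he]; split_ifs <;> simp
    · simp [h1, h2 hb]; split_ifs <;> simp

lemma step_euler (hh : ∀ e, h e ≠ 0) (hc : IsChain (· ⊆ ·) (c : Set (Finset E))) (hS : S ∈ c)
    (hs : (m S : K) ≠ 0) : Acyc d (Fw h m c) (Fw h (m + Pi.single S 1) c) := by
  obtain ⟨B, lam, hB, h1, h2, -⟩ := exists_adapted_coeff (K := K) h c hc
  obtain ⟨V2, hV2, hV⟩ := ((linearIndepOn_union_iff (R := K) (v := h) (s := (B \ S : Finset E))
    (t := (B ∩ S : Finset E)) (disjoint_coe.2 (disjoint_sdiff_inter B S))).1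
    (by rwa [← coe_union, sdiff_union_inter])).2.2.exists_isCompl
  let π := Submodule.projection _ _ hV.symm
  have π1 : ∀ e, π (h e) = ∑ b ∈ B ∩ S, lam e b • h b := fun e => by
    rw [h1 e, ← sdiff_union_inter B S, sum_union (disjoint_sdiff_inter B S), map_add,
      Submodule.projection_apply_of_mem_right hV.symm (hV2 (sum_mem fun b hb =>
        Submodule.smul_mem _ _ (Submodule.subset_span ⟨b, hb, rfl⟩))),
      Submodule.projection_apply_of_mem_left hV.symm (sum_mem fun b hb =>
        Submodule.smul_mem _ _ (Submodule.subset_span ⟨b, hb, rfl⟩)), zero_add, sdiff_union_inter]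
  have π2 : ∀ e ∈ S, π (h e) = h e := fun e he => by
    rw [π1]
    exact (sum_subset inter_subset_left fun b hb hb' => by
      rw [by_contra fun a => hb' (mem_inter.2 ⟨hb, h2 e b hb a S hS he⟩), zero_smul]).trans
      (h1 e).symm
  have p1 : ∀ (m : Finset E → ℤ) (v : Fin n → K), ∀ x ∈ Fw h m c,
      L (π v) • x ∈ Fw h (m + Pi.single S 1) c := fun m v x hx => by
    obtain ⟨l, hl⟩ := (Submodule.mem_span_image_finset_iff_exists_fun' K).1
      (Submodule.projection_apply_mem hV.symm v)
    simp only [π, ← hl, map_sum, sum_smul, map_smul, smul_assoc]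
    refine sum_mem fun b hb => Submodule.smul_mem _ _ ?_
    rw [← zpow_one (L (h b)), ← mono_single]
    refine mono_smul_Fw hh _ (fun S' hS' => ?_) hx
    by_cases h1 : S' = S
    · simp [h1, (mem_inter.1 hb).2, add_comm]
    · simp [h1, Pi.single_apply]; split_ifs <;> simp
  let r : E → FF K n := fun e => (L (h e))⁻¹ * L (π (h e))
  have r1 : ∀ e ∈ S, r e = 1 := fun e he => by simp [r, π2 e he, L_ne_zero (hh e)]
  have r2 : ∀ (m : Finset E → ℤ), ∀ e ∉ S, ∀ x ∈ Fw h m c, r e • x ∈ Fw h (m + Pi.single S 1) c :=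
    fun m e he x hx => by
      simp only [r, π1, map_sum, mul_sum, sum_smul, map_smul, mul_smul_comm, smul_assoc,
        ratio_eq hh]
      refine sum_mem fun b hb => ?_
      by_cases a : lam e b = 0
      · simp [a]
      refine Submodule.smul_mem _ _ (mono_smul_Fw hh _ (fun S' hS' => ?_) hx)
      rw [sum_ratio]
      by_cases h1 : S' = S
      · simp [h1, (mem_inter.1 hb).2, he, add_comm]
      · by_cases a' : e ∈ S'
        · simp [h1, a', h2 e b (mem_inter.1 hb).1 a S' hS' a']
        · simp [h1, a']; split_ifs <;> simp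
  have le : ∀ m : Finset E → ℤ, Fw h (m + Pi.single S 1) c ≤ Fw h m c := fun m =>
    Fw_anti fun S' _ => by simp [Pi.single_apply]; split_ifs <;> simp
  set ι := ctr (L ∘ₗ π) with hι
  have i1 : ∀ v x, ι (dv v * x) = L (π v) • x - dv v * ι x := fun v x => ctr_dv_mul _ _ _
  have i2 : ∀ e x, ι (om h e * x) = r e • x - om h e * ι x := fun e x => by
    rw [om, smul_mul_assoc, hι, ctr_smul, i1, smul_sub, smul_smul, smul_mul_assoc]
  have i3 : ∀ (f : FF K n) x, ι (f • x) = f • ι x := ctr_smul _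
  clear_value r π
  have mL : ∀ (m : Finset E → ℤ) (v : Fin n → K), ∀ x ∈ Fw h m c, L v • x ∈ Fw h m c :=
    fun m v x hx => by simpa [L_apply, Fw] using mul_mem_Sp (pol_smul_mem_Gs (lin v) (one_mem _)) hx
  have pι : ∀ m : Finset E → ℤ, ∀ x ∈ Fw h m c, ι x ∈ Fw h m c := fun m x =>
    Sp_map ι fun u hu g hg => by
      have := Gs_mul_mem (W := Fw h m c ⊓ (Fw h m c).comap ι)
        (fun v x hx => ⟨mL m v x hx.1, by simpa [i3] using mL m v _ hx.2⟩)
        (fun v x hx => ⟨mul_mem_Sp (dv_mem_Gs v) hx.1, by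
          simpa [i1] using sub_mem (le m (p1 m v x hx.1)) (mul_mem_Sp (dv_mem_Gs v) hx.2)⟩)
        (fun e he x hx => ⟨mul_mem_Sp (om_mem_Gs he) hx.1, ?_⟩) hg (mono h u • 1)
        ⟨mem_Sp hu (one_mem _), by simp [hι, ctr_smul, ctr_one]⟩
      · simpa using this.2
      · rw [SetLike.mem_coe, Submodule.mem_comap, i2]
        refine sub_mem ?_ (mul_mem_Sp (om_mem_Gs he) hx.2)
        by_cases a : e ∈ S
        · simpa [r1 e a] using hx.1
        · exact le m (r2 m e a x hx.1)
  let Λ : Om K n →ₗ[K] Om K n := d ∘ₗ ι + ι ∘ₗ d - (m S : K) • LinearMap.id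
  have hΛ : ∀ x, Λ x = d (ι x) + ι (d x) - (m S : K) • x := fun x => rfl
  have key : ∀ x ∈ Fw h m c, Λ x ∈ Fw h (m + Pi.single S 1) c := fun x =>
    Sp_map Λ fun u hu g hg => by
      have := Gs_mul_mem (W := Fw h m c ⊓ (Fw h (m + Pi.single S 1) c).comap Λ)
        (fun v x hx => ⟨mL m v x hx.1, ?_⟩) (fun v x hx => ⟨mul_mem_Sp (dv_mem_Gs v) hx.1, ?_⟩)
        (fun e he x hx => ⟨mul_mem_Sp (om_mem_Gs he) hx.1, ?_⟩) hg (mono h u • 1)
        ⟨mem_Sp hu (one_mem _), ?_⟩
      · simpa using this.2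
      · convert add_mem (p1 m v x hx.1) (mL _ v _ hx.2) using 1
        simp only [SetLike.mem_coe, Submodule.mem_comap, hΛ, i3, d_smul, df_L, map_add, i1,
          smul_sub, smul_add, smul_comm (m S : K) (L v)]
        congr! 1; abel
      · convert add_mem (sub_mem (d_mem_Sp hh (p1 m v x hx.1)) (p1 m v _ (d_mem_Sp hh hx.1)))
          (mul_mem_Sp (dv_mem_Gs v) hx.2) using 1
        simp only [SetLike.mem_coe, Submodule.mem_comap, hΛ, i1, d_dv_mul, map_sub, map_neg,
          mul_sub, mul_add, mul_smul_comm]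
        congr! 1; abel
      · have : d (r e • x) - r e • d x ∈ Fw h (m + Pi.single S 1) c := by
          by_cases a : e ∈ S
          · simp [r1 e a]
          · exact sub_mem (d_mem_Sp hh (r2 m e a x hx.1)) (r2 m e a _ (d_mem_Sp hh hx.1))
        convert add_mem this (mul_mem_Sp (om_mem_Gs he) hx.2) using 1
        simp only [SetLike.mem_coe, Submodule.mem_comap, hΛ, i2, d_om_mul, map_sub, map_neg,
          mul_sub, mul_add, mul_smul_comm]
        congr! 1; abel
      · have e1 : Λ (mono h u • 1) = ((∑ e ∈ S, u e - m S : ℤ) : K) • mono h u • 1 +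
            ∑ e ∈ Sᶜ, (u e : K) • r e • mono h u • (1 : Om K n) := by
          have : ι 1 = 0 := ctr_one _
          simp only [hΛ, i3, this, d_smul, d_one, df_mono hh, smul_zero, map_zero, zero_add,
            add_zero, smul_mul_assoc, sum_mul, map_sum, map_smul, i2, mul_zero, sub_zero, smul_sum]
          rw [← sum_add_sum_compl S, sum_congr rfl fun e he => by rw [r1 e he, one_smul]]
          simp [sub_smul, sum_smul, smul_comm (mono h u)]
          abel
        rw [SetLike.mem_coe, Submodule.mem_comap, e1]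
        refine add_mem ?_ (sum_mem fun e he => Submodule.smul_mem _ _
          (r2 m e (mem_compl.1 he) _ (mem_Sp hu (one_mem _))))
        rcases (hu S hS).eq_or_lt with a | a
        · simp [a]
        · refine Submodule.smul_mem _ _ (mem_Sp (fun S' hS' => ?_) (one_mem _))
          by_cases h1 : S' = S
          · simpa [h1] using a
          · simpa [h1] using hu S' hS'
  intro x hx hd
  refine ⟨(m S : K)⁻¹ • ι x, Submodule.smul_mem _ _ (pι m x hx), (Submodule.smul_mem_iff _ hs).1 ?_⟩
  convert sub_mem (pι _ _ hd) (key x hx) using 1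
  rw [hΛ, map_smul, smul_sub, smul_inv_smul₀ hs]; abel

lemma acyc_path (hh : ∀ e, h e ≠ 0) (hc : IsChain (· ⊆ ·) (c : Set (Finset E)))
    (hm : ∀ S ∈ c, m S ≤ m' S) (H : ∀ S ∈ c, (∃ e ∉ S, h e ∈ Submodule.span K (h '' S)) ∨
      ∀ s : ℤ, m S ≤ s → s < m' S → (s : K) ≠ 0) : Acyc d (Fw h m c) (Fw h m' c) := by
  induction hN : ∑ S ∈ c, (m' S - m S).toNat using Nat.strong_induction_on generalizing m with
  | h N ih =>
  by_cases a : ∀ S ∈ c, m' S ≤ m S
  · exact fun x hx _ => ⟨0, zero_mem _, by simpa using Fw_anti a hx⟩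
  push Not at a
  obtain ⟨S, hS, hlt⟩ := a
  have h1 : ∀ S' ∈ c, m S' ≤ (m + Pi.single S 1 : Finset E → ℤ) S' := fun S' _ => by
    simp [Pi.single_apply]; split_ifs <;> simp
  have h2 : ∀ S' ∈ c, (m + Pi.single S 1 : Finset E → ℤ) S' ≤ m' S' := fun S' hS' => by
    by_cases a : S' = S
    · simpa [a] using hlt
    · simpa [a] using hm S' hS'
  refine Acyc.trans d_d (Fw_anti h1) (Fw_anti h2) ?_ (ih _ ?_ h2 (fun S' hS' =>
    (H S' hS').imp_right fun a s b => a s ((h1 S' hS').trans b)) rfl)
  · rcases H S hS with ⟨e, he, he'⟩ | a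
    · exact fun x hx _ => ⟨0, zero_mem _, by simpa using step_open hh hc hS he he' hx⟩
    · exact step_euler hh hc hS (a _ le_rfl hlt)
  · rw [← hN]
    refine sum_lt_sum (fun S' hS' => ?_) ⟨S, hS, by simp; omega⟩
    have := h1 S' hS'
    omega

omit [Fintype E] [DecidableEq E] in
lemma card_le_of_span {T T' : Finset E} (hT : LinearIndepOn K h T)
    (h1 : ∀ e ∈ T, h e ∈ Submodule.span K (h '' T')) : #T ≤ #T' := by
  classical
  have := linearIndependent_le_span_aux' _ hT (T'.image h) (by
    rintro _ ⟨e, rfl⟩; simpa using h1 e.1 e.2)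
  simpa using this.trans (by simpa using card_image_le)

lemma top_form (hh : ∀ e, h e ≠ 0) {B : Finset E} (hB : LinearIndepOn K h B)
    (vs : List (Fin n → K)) (hv : ∀ v ∈ vs, v ∈ Submodule.span K (h '' B)) (hn : vs.length = n) :
    ∃ g ∈ Gs h univ, (vs.map dv).prod = mono h (fun e => if e ∈ B then 1 else 0) • g := by
  let pr : List E → Om K n := fun l => (l.map fun b => dv (h b)).prod
  let W : ℕ → Submodule K (Om K n) := fun k =>
    Submodule.span K {y | ∃ l : List E, l.Nodup ∧ (∀ b ∈ l, b ∈ B) ∧ l.length = k ∧ y = pr l}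
  have z : ∀ l, ∀ b ∈ l, dv (h b) * pr l = 0 := fun l i hi => by
    induction l with
    | nil => simp at hi
    | cons a l ih =>
      simp only [pr, List.map_cons, List.prod_cons, ← mul_assoc]
      rcases List.mem_cons.1 hi with rfl | hi
      · rw [dv_mul_self, zero_mul]
      · rw [dv_anticomm, neg_mul, mul_assoc, ih hi, mul_zero, neg_zero]
  have h1 : (vs.map dv).prod ∈ W vs.length := by
    clear hn
    induction vs with
    | nil => exact Submodule.subset_span ⟨[], by simp [pr]⟩
    | cons v vs ih =>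
      obtain ⟨l, rfl⟩ := (Submodule.mem_span_image_finset_iff_exists_fun' K).1 (hv v (by simp))
      rw [List.map_cons, List.prod_cons, map_sum, sum_mul]
      refine sum_mem fun b hb => ?_
      rw [map_smul, smul_mul_assoc]
      refine Submodule.smul_mem _ _ ((Submodule.span_le.2 ?_ : W vs.length ≤
        (W (vs.length + 1)).comap (LinearMap.mulLeft K (dv (h b)))) (ih fun v hv' => hv v (by simp [hv'])))
      rintro _ ⟨l, hl, hl', hl'', rfl⟩
      by_cases hi : b ∈ l
      · simp [z l b hi]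
      · exact Submodule.subset_span ⟨b :: l, by simp [hi, hl], by simpa [hb] using hl',
          by simp [hl''], by simp [pr]⟩
  have h2 : ∀ l : List E, l.Nodup →
      ∃ g ∈ Gs h univ, pr l = mono h (fun e => if e ∈ l then 1 else 0) • g := fun l hl => by
    induction l with
    | nil => exact ⟨1, one_mem _, by simp [pr, mono]⟩
    | cons b l ih =>
      obtain ⟨g, hg, e⟩ := ih hl.of_cons
      refine ⟨om h b * g, mul_mem (om_mem_Gs (mem_univ b)) hg, ?_⟩
      have : (fun e => if e ∈ b :: l then 1 else 0 : E → ℤ) =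
          (fun e => if e ∈ l then 1 else 0) + Pi.single b 1 := by
        ext e; by_cases a : e = b <;> simp [a, (List.nodup_cons.1 hl).1]
      simp only [pr, List.map_cons, List.prod_cons] at e ⊢
      rw [e, this, mono_add hh, mono_single, zpow_one, ← L_smul_om hh, mul_smul_comm,
        smul_mul_assoc, mul_smul]
  refine (Submodule.span_le.2 ?_ : W vs.length ≤
    (Gs h univ).toSubmodule.map (sm (mono h fun e => if e ∈ B then 1 else 0))) h1 |>.imp
    fun g hg => ⟨hg.1, hg.2.symm⟩
  rintro _ ⟨l, hl, hl', hl'', rfl⟩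
  obtain ⟨g, hg, e⟩ := h2 l hl
  have : l.toFinset = B := eq_of_subset_of_card_le (fun b hb => hl' b (by simpa using hb)) (by
    rw [List.toFinset_card_of_nodup hl, hl'', hn]
    simpa using LinearIndependent.fintype_card_le_finrank hB)
  exact ⟨g, hg, by simp [e, ← this]⟩

omit [Fintype E] [DecidableEq E] in
lemma om_list (l : List E) : (l.map (om h)).prod =
    (l.map fun e => (L (h e))⁻¹).prod • (l.map fun e => dv (h e)).prod := by
  induction l with
  | nil => simp
  | cons a l ih => simp [ih, om, smul_smul, mul_comm]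

omit [Fintype E] [DecidableEq E] in
lemma d_om_list (l : List E) : d (l.map (om h)).prod = 0 := by
  induction l <;> simp [d_one, d_om_mul, *]

/-- The form `dx / x` is cohomologous to a twisted logarithmic form. -/
theorem euler_vol' (A : Matrix (Fin n) (Fin n) K) (hA : A.det ≠ 0)
    (t : K) (ht : Function.Injective fun m : ℤ => t ^ m) (a : ℕ) (ha : 1 ≤ a)
    (hchar : ∀ s : ℕ, 1 ≤ s → s < a * (n - 1) → (s : K) ≠ 0) :
    ∃ g ∈ Gs (arr A) Finset.univ, ∃ η, vol A = mono (arr A) (wt n a) • g + d η := by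
  have rows := Matrix.linearIndependent_rows_of_det_ne_zero hA
  have cols : LinearIndependent K fun i : Fin n => (Pi.single i 1 : Fin n → K) := by
    convert (Pi.basisFun K (Fin n)).linearIndependent using 2 with i
    simp
  have hh : ∀ e, arr A e ≠ 0 := by
    rintro (i | i)
    exacts [cols.ne_zero i, rows.ne_zero i]
  have hw : ∀ S : Finset (Fin n ⊕ Fin n),
      ∑ e ∈ S, wt n a e = a * ((#S.toRight : ℤ) - #S.toLeft) := fun S => by
    simp [sum_sum_eq_sum_toLeft_add_sum_toRight, wt]; ring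
  let m : Finset (Fin n ⊕ Fin n) → ℤ := fun S =>
    min (∑ e ∈ S, wt n a e) (max 0 ((#S.toRight : ℤ) - #S.toLeft))
  have hm : ∀ c : Finset (Finset (Fin n ⊕ Fin n)), ∀ S ∈ c, m S ≤ ∑ e ∈ S, wt n a e :=
    fun _ S _ => min_le_left _ _
  have anti : ∀ m, Antitone (Fw (arr A) m) := fun m c c' hc =>
    Sp_mono (fun u hu S hS => hu S (hc hS)) subset_rfl
  have hv : vol A = ((List.ofFn Sum.inl).map (om (arr A))).prod := by rw [List.map_ofFn]; rfl
  refine zigzag (arr A) hh t ht (wt n a) d d_d LinearMap.id (fun _ => rfl) _ (Fw (arr A) m)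
    (anti _) (anti _) (fun c => Fw_anti (hm c)) (fun c x => d_mem_Sp hh) (fun c x => d_mem_Sp hh)
    (fun c hc => acyc_path hh hc (hm c) fun S _ => ?_) (fun c _ x hx => hx) (vol A)
    (fun c hc => ?_) ?_
  · have h1 : #S.toRight ≤ n := by simpa using card_le_univ S.toRight
    by_cases h2 : (#S.toRight : ℤ) - #S.toLeft ≤ (n - 1 : ℕ)
    · refine Or.inr fun s h3 h4 => ?_
      simp only [m, hw] at h3 h4
      have h5 : 1 ≤ s := by
        rcases le_or_gt ((#S.toRight : ℤ) - #S.toLeft) 0 with b | b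
        · have : (a : ℤ) * ((#S.toRight : ℤ) - #S.toLeft) ≤ 0 :=
            mul_nonpos_of_nonneg_of_nonpos (by positivity) b
          omega
        · omega
      lift s to ℕ using by omega
      refine Int.cast_natCast (R := K) s ▸ hchar s (by omega) ?_
      exact_mod_cast h4.trans_le (mul_le_mul_of_nonneg_left h2 (by positivity))
    · have h3 : S.toRight = univ := eq_univ_of_card _ (by simp; omega)
      have h4 : S.toLeft = ∅ := card_eq_zero.1 (by omega)
      refine Or.inl ⟨Sum.inl ⟨0, by omega⟩, by rw [← mem_toLeft, h4]; simp, ?_⟩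
      refine Submodule.span_mono ?_ ((rows.span_eq_top_of_card_eq_finrank' (by simp)).ge trivial)
      rintro _ ⟨i, rfl⟩
      exact ⟨Sum.inr i, by rw [mem_coe, ← mem_toRight, h3]; simp, rfl⟩
  · obtain ⟨B, hB, h1, h2⟩ := exists_adapted (K := K) (arr A) c hc
    obtain ⟨g, hg, e⟩ := top_form hh hB (List.ofFn fun i => Pi.single i 1)
      (List.forall_mem_ofFn_iff.2 fun i => h1 (Sum.inl i)) (by simp)
    have e1 : vol A = mono (arr A) (Sum.elim (fun _ => -1) fun _ => 0) •
        ((List.ofFn fun i => (Pi.single i 1 : Fin n → K)).map dv).prod := by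
      rw [hv, om_list, List.map_ofFn, List.map_ofFn, List.map_ofFn, List.prod_ofFn, mono,
        Fintype.prod_sum_type]
      simp [arr, Function.comp_def]
    rw [e1, e, smul_smul, ← mono_add hh]
    refine mem_Sp (fun S hS => (min_le_right _ _).trans ?_) hg
    have c1 : #(S.toLeft.map Function.Embedding.inl) ≤ #(B ∩ S) :=
      card_le_of_span (K := K) (h := arr A) (by
        rw [coe_map]; exact LinearIndepOn.image_of_comp _ _ (cols.linearIndepOn _))
        fun e he => h2 S hS e (by obtain ⟨i, hi, rfl⟩ := mem_map.1 he; simpa using hi)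
    have c2 : #(S.toRight.map Function.Embedding.inr) ≤ #(B ∩ S) :=
      card_le_of_span (K := K) (h := arr A) (by
        rw [coe_map]; exact LinearIndepOn.image_of_comp _ _ (rows.linearIndepOn _))
        fun e he => h2 S hS e (by obtain ⟨i, hi, rfl⟩ := mem_map.1 he; simpa using hi)
    rw [card_map] at c1 c2
    simp only [Pi.add_apply, sum_add_distrib]
    rw [sum_sum_eq_sum_toLeft_add_sum_toRight S (Sum.elim _ _), sum_boole, filter_mem_eq_inter,
      inter_comm S B]
    simp; omega
  · rw [hv, d_om_list]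

/-- The same with a weaker bound. -/
theorem euler_vol (A : Matrix (Fin n) (Fin n) K) (hA : A.det ≠ 0)
    (t : K) (ht : Function.Injective fun m : ℤ => t ^ m) (a : ℕ) (ha : 1 ≤ a)
    (hchar : ∀ s : ℕ, 1 ≤ s → s < a * max 1 (n - 1) → (s : K) ≠ 0) :
    ∃ g ∈ Gs (arr A) Finset.univ, ∃ η, vol A = mono (arr A) (wt n a) • g + d η :=
  euler_vol' A hA t ht a ha fun s h1 h2 =>
    hchar s h1 (h2.trans_le (Nat.mul_le_mul_left _ (le_max_right _ _)))

end

end Pool.Agent.MP_8e2770_co.H72
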