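import Mathlib

/-!
Rational differential forms on affine space, with the exterior derivative, contractions and
logarithmic forms of a family of linear forms.
-/

namespace Pool.Agent.MP_8e2770_co.H72

open MvPolynomial TensorProduct

noncomputable section

variable (K : Type) [Field K] (n : ℕ)

/-- Rational functions in `n` variables. -/
def FF : Type := FractionRing (MvPolynomial (Fin n) K)

instance : Field (FF K n) := inferInstanceAs (Field (FractionRing (MvPolynomial (Fin n) K)))

instance : Algebra (MvPolynomial (Fin n) K) (FF K n) :=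
  inferInstanceAs (Algebra (MvPolynomial (Fin n) K) (FractionRing (MvPolynomial (Fin n) K)))

instance : Algebra K (FF K n) :=
  inferInstanceAs (Algebra K (FractionRing (MvPolynomial (Fin n) K)))

instance : IsScalarTower K (MvPolynomial (Fin n) K) (FF K n) :=
  inferInstanceAs (IsScalarTower K _ (FractionRing (MvPolynomial (Fin n) K)))

instance : IsFractionRing (MvPolynomial (Fin n) K) (FF K n) :=
  inferInstanceAs (IsFractionRing _ (FractionRing (MvPolynomial (Fin n) K)))

/-- Constant-coefficient forms. -/
abbrev Lam := ExteriorAlgebra K (Fin n → K)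

/-- Rational differential forms. -/
def Om : Type := FF K n ⊗[K] Lam K n

instance : Ring (Om K n) := inferInstanceAs (Ring (FF K n ⊗[K] Lam K n))

instance : Algebra (FF K n) (Om K n) := inferInstanceAs (Algebra (FF K n) (FF K n ⊗[K] Lam K n))

instance : Algebra K (Om K n) := inferInstanceAs (Algebra K (FF K n ⊗[K] Lam K n))

instance : IsScalarTower K (FF K n) (Om K n) :=
  inferInstanceAs (IsScalarTower K (FF K n) (FF K n ⊗[K] Lam K n))

variable {K n}

/-- The identification of forms with a tensor product. -/
def toOm : FF K n ⊗[K] Lam K n ≃ₗ[FF K n] Om K n := LinearEquiv.refl _ _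

/-- A constant-coefficient form as a rational form. -/
def cst : Lam K n →ₐ[K] Om K n := Algebra.TensorProduct.includeRight

lemma toOm_tmul (f : FF K n) (w : Lam K n) : toOm (f ⊗ₜ[K] w) = f • cst w := by
  have : f ⊗ₜ[K] w = f • ((1 : FF K n) ⊗ₜ[K] w) := by simp [smul_tmul']
  rw [this, map_smul]; rfl

lemma om_induction {P : Om K n → Prop} (η : Om K n)
    (smul : ∀ (f : FF K n) (w : Lam K n), P (f • cst w))
    (add : ∀ a b, P a → P b → P (a + b)) : P η := by
  obtain ⟨x, rfl⟩ := toOm.surjective η
  induction x using TensorProduct.induction_on with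
  | zero => simpa using smul 0 0
  | add a b ha hb => rw [map_add]; exact add _ _ ha hb
  | tmul f w => rw [toOm_tmul]; exact smul f w

/-- The tensor product of two operators. -/
def omMap (A : FF K n →ₗ[K] FF K n) (B : Lam K n →ₗ[K] Lam K n) : Om K n →ₗ[K] Om K n :=
  toOm.toLinearMap.restrictScalars K ∘ₗ TensorProduct.map A B ∘ₗ
    toOm.symm.toLinearMap.restrictScalars K

lemma omMap_apply (A : FF K n →ₗ[K] FF K n) (B : Lam K n →ₗ[K] Lam K n) (f : FF K n)
    (w : Lam K n) : omMap A B (f • cst w) = A f • cst (B w) := by
  rw [← toOm_tmul, ← toOm_tmul]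
  simp [omMap]

/-- The linear form with coefficient vector `v`. -/
def lin : (Fin n → K) →ₗ[K] MvPolynomial (Fin n) K := Fintype.linearCombination K X

/-- A polynomial as a rational function. -/
def pol : MvPolynomial (Fin n) K →ₐ[K] FF K n := IsScalarTower.toAlgHom K _ _

/-- The linear form with coefficient vector `v`, as a rational function. -/
def L : (Fin n → K) →ₗ[K] FF K n := pol.toLinearMap ∘ₗ lin

lemma lin_apply (v : Fin n → K) : lin v = ∑ i, v i • X i := by
  simp [lin, Fintype.linearCombination_apply]

lemma lin_single (i : Fin n) : lin (Pi.single i (1 : K)) = X i := by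
  simp [lin, Fintype.linearCombination_apply_single]

lemma pol_injective : Function.Injective (pol : MvPolynomial (Fin n) K → FF K n) :=
  IsFractionRing.injective _ _

lemma lin_injective : Function.Injective (lin : (Fin n → K) → MvPolynomial (Fin n) K) := by
  rw [injective_iff_map_eq_zero]
  intro v hv
  rw [lin_apply] at hv
  exact funext (Fintype.linearIndependent_iff.1 (linearIndependent_X (Fin n) K) v hv)

lemma L_apply (v : Fin n → K) : L v = pol (lin v) := rfl

lemma L_ne_zero {v : Fin n → K} (hv : v ≠ 0) : L v ≠ 0 := fun h =>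
  hv (lin_injective (pol_injective (by simpa [L_apply] using h)))

lemma ff_induction {P : FF K n → Prop} (f : FF K n)
    (h : ∀ a b : MvPolynomial (Fin n) K, b ≠ 0 → P (pol a / pol b)) : P f := by
  obtain ⟨a, b, hb, rfl⟩ := IsFractionRing.div_surjective (A := MvPolynomial (Fin n) K) f
  exact h a b (nonZeroDivisors.ne_zero hb)

/-- Derivations on rational functions are determined by their values on the variables. -/
lemma der_ext {M : Type} [AddCommGroup M] [Module (FF K n) M] [Module K M]
    [IsScalarTower K (FF K n) M] {D D' : Derivation K (FF K n) M}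
    (h : ∀ j, D (pol (X j)) = D' (pol (X j))) : D = D' := by
  have hp : ∀ a, D (pol a) = D' (pol a) := by
    intro a
    induction a using MvPolynomial.induction_on with
    | C c =>
      have : (pol (C c) : FF K n) = algebraMap K _ c := by
        rw [← MvPolynomial.algebraMap_eq, AlgHom.commutes]
      simp [this]
    | add a b ha hb => simp [ha, hb]
    | mul_X a j ha => simp [ha, h]
  ext f
  induction f using ff_induction with
  | h a b hb => rw [Derivation.leibniz_div, Derivation.leibniz_div, hp, hp]

private def derAux (a : Fin n → FF K n) :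
    FF K n →ₐ[K] TrivSqZeroExt (FF K n) (FF K n) :=
  IsLocalization.liftAlgHom (M := nonZeroDivisors (MvPolynomial (Fin n) K))
    (f := aeval fun j => (TrivSqZeroExt.inl (pol (X j)) + TrivSqZeroExt.inr (a j) :
      TrivSqZeroExt (FF K n) (FF K n))) (by
      intro y
      rw [TrivSqZeroExt.isUnit_iff_isUnit_fst]
      have : (TrivSqZeroExt.fstHom K (FF K n) (FF K n)).comp
          (aeval fun j => (TrivSqZeroExt.inl (pol (X j)) + TrivSqZeroExt.inr (a j) :
            TrivSqZeroExt (FF K n) (FF K n))) = pol := by
        ext j; simp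
      have h2 := congrArg (fun φ => φ (y : MvPolynomial (Fin n) K)) this
      simp only [AlgHom.comp_apply, TrivSqZeroExt.fstHom_apply] at h2
      rw [h2]
      exact IsUnit.mk0 _ fun h0 => nonZeroDivisors.ne_zero y.2 (pol_injective (by simpa using h0)))

private lemma derAux_X (a : Fin n → FF K n) (j : Fin n) :
    derAux a (pol (X j)) = TrivSqZeroExt.inl (pol (X j)) + TrivSqZeroExt.inr (a j) := by
  simp [derAux, pol, IsLocalization.liftAlgHom]

private lemma derAux_fst (a : Fin n → FF K n) (f : FF K n) : (derAux a f).fst = f := by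
  have : (TrivSqZeroExt.fstHom K (FF K n) (FF K n)).comp (derAux a) = AlgHom.id K _ := by
    apply IsLocalization.algHom_ext (nonZeroDivisors (MvPolynomial (Fin n) K))
    ext j
    exact (congrArg TrivSqZeroExt.fst (derAux_X a j)).trans (by simp; rfl)
  exact congrArg (fun φ => φ f) this

/-- The derivation of rational functions with prescribed values on the variables. -/
def der (a : Fin n → FF K n) : Derivation K (FF K n) (FF K n) :=
  Derivation.mk' ((TrivSqZeroExt.sndHom (FF K n) (FF K n)).restrictScalars K ∘ₗ
    (derAux a).toLinearMap) (by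
      intro f g
      simp [TrivSqZeroExt.snd_mul, derAux_fst, mul_comm])

lemma der_X (a : Fin n → FF K n) (j : Fin n) : der a (pol (X j)) = a j := by
  simp [der, derAux_X]

/-- The partial derivative. -/
def D (i : Fin n) : Derivation K (FF K n) (FF K n) := der (Pi.single i 1)

lemma D_X (i j : Fin n) : D i (pol (X j : MvPolynomial (Fin n) K)) = if j = i then 1 else 0 := by
  rw [D, der_X, Pi.single_apply]

lemma D_L (i : Fin n) (v : Fin n → K) : D i (L v) = algebraMap K _ (v i) := by
  rw [L_apply, lin_apply, map_sum, map_sum]
  simp [D_X, Algebra.algebraMap_eq_smul_one]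

lemma D_pol (i : Fin n) (g : MvPolynomial (Fin n) K) : D i (pol g) = pol (pderiv i g) := by
  induction g using MvPolynomial.induction_on with
  | C c =>
    have : (pol (C c) : FF K n) = algebraMap K _ c := by
      rw [← MvPolynomial.algebraMap_eq, AlgHom.commutes]
    simp [this]
  | add a b ha hb => simp [ha, hb]
  | mul_X a j ha =>
    rw [map_mul, Derivation.leibniz, Derivation.leibniz, ha, D_X, pderiv_X, Pi.single_apply]
    split_ifs <;> simp [*]

lemma D_comm (i j : Fin n) (f : FF K n) : D i (D j f) = D j (D i f) := by
  have : ⁅(D i : Derivation K (FF K n) (FF K n)), (D j : Derivation K (FF K n) (FF K n))⁆ = 0 := by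
    apply der_ext
    intro k
    rw [Derivation.commutator_apply, D_X, D_X]
    split_ifs <;> simp
  have h2 := congrArg (fun φ : Derivation K (FF K n) (FF K n) => φ f) this
  simpa [Derivation.commutator_apply, sub_eq_zero] using h2

/-- The differential of a linear form. -/
def dv : (Fin n → K) →ₗ[K] Om K n := cst.toLinearMap ∘ₗ ExteriorAlgebra.ι K

lemma dv_apply (v : Fin n → K) : dv v = cst (ExteriorAlgebra.ι K v) := rfl

lemma dv_mul_self (v : Fin n → K) : dv v * dv v = 0 := by
  simp [dv_apply, ← map_mul]

lemma dv_anticomm (v v' : Fin n → K) : dv v * dv v' = -(dv v' * dv v) := by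
  rw [eq_neg_iff_add_eq_zero]
  simp [dv_apply, ← map_mul, ← map_add]

lemma om_induction' {P : Om K n → Prop} (η : Om K n) (smul : ∀ f : FF K n, P (f • 1))
    (add : ∀ a b, P a → P b → P (a + b)) (mul : ∀ v a, P a → P (dv v * a)) : P η := by
  induction η using om_induction with
  | add a b ha hb => exact add a b ha hb
  | smul f w =>
    induction w using CliffordAlgebra.left_induction generalizing f with
    | algebraMap r =>
      have : f • cst (algebraMap K (Lam K n) r) = (r • f) • (1 : Om K n) := by
        rw [AlgHom.commutes, Algebra.algebraMap_eq_smul_one, smul_comm, smul_assoc]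
      exact this ▸ smul _
    | add a b ha hb => rw [map_add, smul_add]; exact add _ _ (ha f) (hb f)
    | ι_mul a v ha =>
      rw [map_mul, ← mul_smul_comm]
      exact mul v _ (ha f)

/-- The exterior derivative. -/
def d : Om K n →ₗ[K] Om K n :=
  ∑ i, omMap (D i).toLinearMap (LinearMap.mulLeft K (ExteriorAlgebra.ι K (Pi.single i 1)))

/-- The differential of a function. -/
def df (f : FF K n) : Om K n := ∑ i, D i f • dv (Pi.single i 1)

lemma d_smul_cst (f : FF K n) (w : Lam K n) : d (f • cst w) = df f * cst w := by
  simp [d, df, Finset.sum_mul, dv_apply, omMap_apply]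

lemma df_mul (f g : FF K n) : df (f * g) = f • df g + g • df f := by
  simp [df, Finset.smul_sum, ← Finset.sum_add_distrib, add_smul, mul_smul]

lemma df_add (f g : FF K n) : df (f + g) = df f + df g := by
  simp [df, ← Finset.sum_add_distrib, add_smul]

lemma df_L (v : Fin n → K) : df (L v) = dv v := by
  conv_rhs => rw [pi_eq_sum_univ' v]
  simp [df, D_L, map_sum]

lemma df_one : df (1 : FF K n) = 0 := by simp [df]

lemma df_inv (f : FF K n) : df f⁻¹ = -(f⁻¹ ^ 2) • df f := by
  simp only [df, Derivation.leibniz_inv, Finset.smul_sum, smul_eq_mul, mul_smul]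

lemma df_zpow (f : FF K n) (m : ℤ) : df (f ^ m) = (m * f ^ (m - 1)) • df f := by
  simp only [df, Derivation.leibniz_zpow, Finset.smul_sum, mul_smul]
  refine Finset.sum_congr rfl fun i _ => ?_
  simp [mul_smul]

lemma d_smul (f : FF K n) (η : Om K n) : d (f • η) = df f * η + f • d η := by
  induction η using om_induction with
  | add a b ha hb => rw [smul_add, map_add, ha, hb, map_add, mul_add, smul_add]; abel
  | smul g w =>
    rw [smul_smul, d_smul_cst, d_smul_cst, df_mul, add_mul, mul_smul_comm, smul_mul_assoc,
      smul_mul_assoc, add_comm]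

lemma dv_df_anticomm (v : Fin n → K) (f : FF K n) : df f * dv v = -(dv v * df f) := by
  simp only [df, Finset.sum_mul, Finset.mul_sum, smul_mul_assoc, mul_smul_comm,
    ← Finset.sum_neg_distrib]
  exact Finset.sum_congr rfl fun i _ => by rw [dv_anticomm, smul_neg]

lemma d_dv_mul (v : Fin n → K) (η : Om K n) : d (dv v * η) = -(dv v * d η) := by
  induction η using om_induction with
  | add a b ha hb => rw [mul_add, map_add, ha, hb, map_add, mul_add]; abel
  | smul g w =>
    rw [mul_smul_comm, dv_apply, ← map_mul, d_smul_cst, d_smul_cst, map_mul, ← dv_apply,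
      ← mul_assoc, dv_df_anticomm, neg_mul, mul_assoc]

lemma d_cst (w : Lam K n) : d (cst w) = 0 := by
  rw [← one_smul (FF K n) (cst w), d_smul_cst, df_one, zero_mul]

lemma d_one : d (1 : Om K n) = 0 := by
  rw [← map_one cst, d_cst]

lemma d_d (η : Om K n) : d (d η) = 0 := by
  induction η using om_induction with
  | add a b ha hb => simp [ha, hb]
  | smul g w =>
    rw [d_smul_cst, df, Finset.sum_mul, map_sum]
    simp only [smul_mul_assoc, d_smul, d_dv_mul, d_cst, mul_zero, neg_zero, smul_zero, add_zero,
      df, Finset.sum_mul, ← mul_assoc]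
    rw [← Finset.sum_product']
    refine Finset.sum_involution (fun p _ => p.swap) (fun p _ => ?_) (fun p _ h he => h ?_)
      (by simp) (by simp)
    · simp only [Prod.fst_swap, Prod.snd_swap]
      rw [D_comm, dv_anticomm, neg_mul, smul_neg, neg_add_cancel]
    · have : p.2 = p.1 := congrArg Prod.fst he
      rw [this, dv_mul_self, zero_mul, smul_zero]

/-- Contraction with the vector field sending the linear form `v` to `φ v`. -/
def ctr (φ : (Fin n → K) →ₗ[K] FF K n) : Om K n →ₗ[K] Om K n :=
  ∑ i, omMap (LinearMap.mulLeft K (φ (Pi.single i 1)))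
    (CliffordAlgebra.contractLeft (Q := 0) (LinearMap.proj i : (Fin n → K) →ₗ[K] K))

lemma ctr_smul (φ : (Fin n → K) →ₗ[K] FF K n) (f : FF K n) (η : Om K n) :
    ctr φ (f • η) = f • ctr φ η := by
  induction η using om_induction with
  | add a b ha hb => rw [smul_add, map_add, ha, hb, map_add, smul_add]
  | smul g w =>
    rw [smul_smul]
    simp only [ctr, LinearMap.sum_apply, omMap_apply, Finset.smul_sum, smul_smul,
      LinearMap.mulLeft_apply, mul_left_comm]

lemma ctr_one (φ : (Fin n → K) →ₗ[K] FF K n) : ctr φ 1 = 0 := by
  rw [← map_one cst, ← one_smul (FF K n) (cst 1)]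
  simp only [ctr, LinearMap.sum_apply, omMap_apply, CliffordAlgebra.contractLeft_one, map_zero,
    smul_zero, Finset.sum_const_zero]

lemma ctr_dv_mul (φ : (Fin n → K) →ₗ[K] FF K n) (v : Fin n → K) (η : Om K n) :
    ctr φ (dv v * η) = φ v • η - dv v * ctr φ η := by
  induction η using om_induction with
  | add a b ha hb => rw [mul_add, map_add, ha, hb, map_add, mul_add, smul_add]; abel
  | smul g w =>
    have hφ : φ v = ∑ i, v i • φ (Pi.single i 1) := by
      conv_lhs => rw [pi_eq_sum_univ' v]
      simp [map_sum]
    rw [mul_smul_comm, dv_apply, ← map_mul, hφ]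
    simp only [ctr, LinearMap.sum_apply, omMap_apply, ExteriorAlgebra.ι,
      CliffordAlgebra.contractLeft_ι_mul, Finset.sum_smul, Finset.mul_sum,
      ← Finset.sum_sub_distrib, LinearMap.mulLeft_apply, LinearMap.proj_apply]
    refine Finset.sum_congr rfl fun i _ => ?_
    rw [map_sub, map_smul, map_mul, smul_sub, mul_smul_comm, smul_assoc, smul_smul, smul_comm]

variable {E : Type} [Fintype E] [DecidableEq E] (h : E → Fin n → K)

/-- The logarithmic form `d h_e / h_e`. -/
def om (e : E) : Om K n := (L (h e))⁻¹ • dv (h e)

/-- The Laurent monomial in the linear forms. -/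
def mono (u : E → ℤ) : FF K n := ∏ e, L (h e) ^ u e

/-- Polynomial forms with logarithmic poles along the forms in `P`. -/
def Gs (P : Finset E) : Subalgebra K (Om K n) :=
  Algebra.adjoin K ((Set.range fun g : MvPolynomial (Fin n) K => pol g • (1 : Om K n)) ∪
    Set.range dv ∪ om h '' P)

/-- The span of the products of a monomial with exponent in `U` and a form in `Gs P`. -/
def Sp (U : Set (E → ℤ)) (P : Finset E) : Submodule K (Om K n) :=
  Submodule.span K {η | ∃ u ∈ U, ∃ g ∈ Gs h P, η = mono h u • g}

/-- Sections over the chart of the family `c` of the sheaf of logarithmic forms twisted by `w`. -/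
def Fw (w : Finset E → ℤ) (c : Finset (Finset E)) : Submodule K (Om K n) :=
  Sp h {u | ∀ S ∈ c, w S ≤ ∑ e ∈ S, u e} Finset.univ

end

end Pool.Agent.MP_8e2770_co.H72
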