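import Pool.Agent.MP_8e2770_co.H72.LL
import Pool.Agent.MP_8e2770_co.H72.Eig

/-!
Vanishing of cohomology in large degrees passes to the tensor product with an exterior algebra.
-/

namespace Pool.Agent.MP_8e2770_co.H72

noncomputable section

variable {K U N : Type} [Field K] [AddCommGroup U] [Module K U] [AddCommGroup N] [Module K N]

/-- Forms in the vectors of `G` with coefficients in `Z`. -/
def CG (G : Submodule K U) (Z : Submodule K N) : Submodule K (LL K U N) := Cl G (inn '' Z)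

/-- The grading operator. -/
def TT (σU : U →ₗ[K] U) (σ : N →ₗ[K] N) : LL K U N →ₗ[K] LL K U N := br σU ∘ₗ rT σ

variable {G G' : Submodule K U} {Z Z' : Submodule K N} {x : LL K U N} {σU : U →ₗ[K] U}
  {σ δ : N →ₗ[K] N} {t : K}

@[simp] lemma TT_inn (n : N) : TT σU σ (inn n) = inn (σ n) := by simp [TT]

@[simp] lemma TT_mu (u : U) : TT σU σ (mu u x) = mu (σU u) (TT σU σ x) := by simp [TT]

lemma TT_rT {A B : N →ₗ[K] N} (h : ∀ n, σ (A n) = B (σ n)) :
    TT σU σ (rT A x) = rT B (TT σU σ x) := by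
  induction x using ll_induction <;> simp [*]

lemma TT_br {π : U →ₗ[K] U} (h : ∀ u, σU (π u) = π (σU u)) :
    TT σU σ (br π x) = br π (TT σU σ x) := by
  induction x using ll_induction <;> simp [*]

lemma ct_TT {φ : U →ₗ[K] K} {c : K} (h : ∀ u, φ (σU u) = c * φ u) :
    ct φ (TT σU σ x) = c • TT σU σ (ct φ x) := by
  induction x using ll_induction <;> simp [*, smul_sub, mul_smul]

lemma inn_CG {n : N} (hn : n ∈ Z) : inn n ∈ CG G Z := mem_Cl ⟨n, hn, rfl⟩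

lemma mu_CG {g : U} (hg : g ∈ G) (hx : x ∈ CG G Z) : mu g x ∈ CG G Z := mu_mem_Cl hg hx

lemma CG_map {M : Type} [AddCommGroup M] [Module K M] (F : LL K U N →ₗ[K] M) {W : Submodule K M}
    (bas : ∀ n ∈ Z, F (inn n) ∈ W) (mul : ∀ g ∈ G, ∀ a ∈ CG G Z, F a ∈ W → F (mu g a) ∈ W)
    (hx : x ∈ CG G Z) : F x ∈ W :=
  Cl_map F (by rintro _ ⟨n, hn, rfl⟩; exact bas n hn) mul hx

lemma CG_mono (h : G ≤ G') : CG G Z ≤ CG G' Z := Cl_mono h fun _ => mem_Cl

lemma br_CG {π : U →ₗ[K] U} (h : ∀ g ∈ G, π g ∈ G') (hx : x ∈ CG G Z) : br π x ∈ CG G' Z :=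
  CG_map (br π) (fun n hn => by simpa using inn_CG hn)
    (fun g hg a _ ha => by simpa using mu_CG (h g hg) ha) hx

lemma ct_CG (φ : U →ₗ[K] K) (hx : x ∈ CG G Z) : ct φ x ∈ CG G Z :=
  CG_map (ct φ) (fun n hn => by simp)
    (fun g hg a ha ha' => by simpa using sub_mem (Submodule.smul_mem _ _ ha) (mu_CG hg ha')) hx

lemma rT_CG {A : N →ₗ[K] N} (h : ∀ n ∈ Z, A n ∈ Z') (hx : x ∈ CG G Z) : rT A x ∈ CG G Z' :=
  CG_map (rT A) (fun n hn => by simpa using inn_CG (h n hn))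
    (fun g hg a _ ha => by simpa using mu_CG hg ha) hx

lemma br_CG_eq {π : U →ₗ[K] U} (h : ∀ g ∈ G, π g = g) (hx : x ∈ CG G Z) : br π x = x :=
  sub_eq_zero.1 (CG_map (br π - LinearMap.id) (W := ⊥) (fun n _ => by simp) (fun g hg a _ ha => by
    simp only [Submodule.mem_bot, LinearMap.sub_apply, LinearMap.id_apply, sub_eq_zero] at ha ⊢
    rw [br_mu, ha, h g hg]) hx)

lemma ct_CG_eq {φ : U →ₗ[K] K} (h : ∀ g ∈ G, φ g = 0) (hx : x ∈ CG G Z) : ct φ x = 0 :=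
  CG_map (ct φ) (W := ⊥) (fun n _ => by simp) (fun g hg a _ ha => by
    rw [Submodule.mem_bot] at ha
    simp [ha, h g hg]) hx

lemma TT_CG (h : ∀ g ∈ G, σU g ∈ G) (h' : ∀ n ∈ Z, σ n ∈ Z) (hx : x ∈ CG G Z) :
    TT σU σ x ∈ CG G Z := br_CG h (rT_CG h' hx)

lemma br_add_ct (ξ : U →ₗ[K] K) (u : U) (x : LL K U N) :
    x - mu u (br (LinearMap.id - ξ.smulRight u) (ct ξ x)) = br (LinearMap.id - ξ.smulRight u) x := by
  induction x using ll_induction with
  | inn n => simp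
  | add a b ha hb => simp only [map_add, ← ha, ← hb]; abel
  | mu g a ha =>
    rw [br_mu, ← ha]
    have := congrArg (mu u) ha
    simp only [map_sub, mu_mu, sub_zero] at this
    simp [mu_mu, mu_swap u g, ← this]
    abel

lemma rT_sq (hδ : ∀ n, δ (δ n) = 0) (x : LL K U N) : rT δ (rT δ x) = 0 := by
  induction x using ll_induction <;> simp [*]

variable (ht : Function.Injective fun m : ℤ => t ^ m)
include ht

lemma mem_Gr_TT (hU : ∀ u, u ∈ Gr σU t) (hG : ∀ n, n ∈ Gr σ t) (x : LL K U N) :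
    x ∈ Gr (TT σU σ) t := by
  have h0 := ne_zero_of_inj ht
  induction x using ll_induction with
  | inn n => exact Gr_map h0 inn 0 (by simp) (hG n)
  | add a b ha hb => exact add_mem ha hb
  | mu u a ha =>
    exact (iSup_le fun s u hu => Gr_map h0 (mu u) s (by simp [mem_Eig.1 hu]) ha :
      Gr σU t ≤ (Gr (TT σU σ) t).comap (mu.flip a)) (hU u)

lemma acyc_bot {a : ℤ} (A : AcycGe δ σ t a ⊤ Z) :
    AcycGe (rT δ) (TT σU σ) t a (CG ⊥ ⊤) (CG ⊥ Z) := by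
  have e1 : ∀ x ∈ CG (⊥ : Submodule K U) (⊤ : Submodule K N), x = inn (out x) := fun x hx =>
    sub_eq_zero.1 (CG_map (LinearMap.id - inn ∘ₗ out) (W := ⊥) (by simp)
      (fun g hg a _ _ => by simp [(Submodule.mem_bot K).1 hg]) hx)
  intro x hx hxa hd
  rw [e1 x hx] at hd
  obtain ⟨g, -, hg⟩ := A (out x) trivial (Ge_map₀ (ne_zero_of_inj ht) out (fun x => by
    induction x using ll_induction <;> simp [*]) hxa)
    (by simpa using CG_map out (W := Z) (by simp) (by simp) hd)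
  exact ⟨inn g, inn_CG trivial, by rw [e1 x hx]; simpa using inn_CG hg⟩

variable (hG : ∀ x : LL K U N, x ∈ Gr (TT σU σ) t) (hδ : ∀ n, δ (δ n) = 0)
  (hδσ : ∀ n, σ (δ n) = δ (σ n)) (hZσ : ∀ n ∈ Z, σ n ∈ Z) (hZδ : ∀ n ∈ Z, δ n ∈ Z)
include hG hδ hδσ hZσ hZδ

lemma add_vec (u : U) (ξ : U →ₗ[K] K) (d : ℕ) (ξ1 : ξ u = 1) (ξ0 : ∀ g ∈ G, ξ g = 0)
    (hξ : ∀ w, ξ (σU w) = t ^ d * ξ w) (hu : σU u = t ^ d • u) (hσ : ∀ g ∈ G, σU g ∈ G) {a : ℤ}
    (A : AcycGe (rT δ) (TT σU σ) t a (CG G ⊤) (CG G Z)) :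
    AcycGe (rT δ) (TT σU σ) t (a + d) (CG (G ⊔ K ∙ u) ⊤) (CG (G ⊔ K ∙ u) Z) := by
  have h0 := ne_zero_of_inj ht
  have hu' : u ∈ G ⊔ K ∙ u := Submodule.mem_sup_right (Submodule.mem_span_singleton_self u)
  have dec : ∀ g ∈ G ⊔ K ∙ u, ∃ g' ∈ G, ∃ c : K, g = g' + c • u := fun g hg => by
    obtain ⟨y, hy, z, hz, rfl⟩ := Submodule.mem_sup.1 hg
    obtain ⟨c, rfl⟩ := Submodule.mem_span_singleton.1 hz
    exact ⟨y, hy, c, rfl⟩
  have hσ' : ∀ g ∈ G ⊔ K ∙ u, σU g ∈ G ⊔ K ∙ u := fun g hg => by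
    obtain ⟨g, hg', c, rfl⟩ := dec g hg
    rw [map_add, map_smul, hu]
    exact add_mem (Submodule.mem_sup_left (hσ g hg'))
      (Submodule.smul_mem _ _ (Submodule.smul_mem _ _ hu'))
  set π := LinearMap.id - ξ.smulRight u with hπ
  have π1 : ∀ g ∈ G ⊔ K ∙ u, π g ∈ G := fun g hg => by
    obtain ⟨g, hg', c, rfl⟩ := dec g hg
    simpa [hπ, ξ1, ξ0 g hg'] using hg'
  refine AcycGe.step ht hG (rT_sq hδ)
    (fun x => TT_rT hδσ) (fun x => TT_CG hσ' (by simp)) (fun x => TT_CG hσ (by simp))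
    (fun x => TT_CG hσ' hZσ) (fun x => rT_CG (by simp)) (fun x => rT_CG hZδ)
    (CG_mono le_sup_left) (CG_mono le_sup_left) (fun x hx hx' => ?_) (br π ∘ₗ ct ξ) (mu u)
    (by simp) (by simp) (fun x hx => br_CG π1 (ct_CG ξ hx)) (fun x hx => br_CG π1 (ct_CG ξ hx))
    (fun x hx => mu_CG hu' (CG_mono le_sup_left hx))
    (fun x hx => Submodule.mem_sup_right (mu_CG hu' (CG_mono le_sup_left hx)))
    (fun x hx => Submodule.mem_sup_left ?_) (fun x hx => ?_) (A.mono (by omega)) A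
  · rw [← br_CG_eq (π := π) (fun g hg => by simp [hπ, ξ0 g hg]) hx]
    exact br_CG π1 hx'
  · rw [LinearMap.comp_apply, br_add_ct]
    exact br_CG π1 hx
  · simpa using Ge_map h0 (br π ∘ₗ ct ξ) (-d) (fun x => by
      rw [LinearMap.comp_apply, LinearMap.comp_apply, ct_TT hξ,
        TT_br fun w => by simp [hπ, hξ, hu, smul_smul, mul_comm]]
      simp [smul_smul, h0]) hx

lemma add_space [Module.Finite K U] (q : U →ₗ[K] U) (d : ℕ) (hq : ∀ w, q (σU w) = t ^ d • q w)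
    (hσ : ∀ g ∈ G, σU g ∈ G) (hqG : ∀ g ∈ G, q g = 0) {a : ℤ}
    (A : AcycGe (rT δ) (TT σU σ) t a (CG G ⊤) (CG G Z)) (k : ℕ) (B : Submodule K U)
    (hB : ∀ b ∈ B, q b = b ∧ σU b = t ^ d • b) (hk : Module.finrank K B = k) :
    AcycGe (rT δ) (TT σU σ) t (a + k * d) (CG (G ⊔ B) ⊤) (CG (G ⊔ B) Z) := by
  induction k generalizing B with
  | zero => simpa [Submodule.finrank_eq_zero.1 hk] using A
  | succ k ih =>
    obtain ⟨u, hu, hu0⟩ := B.exists_mem_ne_zero_of_ne_bot (by rintro rfl; simp at hk)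
    obtain ⟨ξ, hξ⟩ := Module.Projective.exists_dual_eq_one K hu0
    have e : B = B ⊓ LinearMap.ker ξ ⊔ K ∙ u := le_antisymm (fun b hb => by
      simpa using Submodule.add_mem_sup (S := B ⊓ LinearMap.ker ξ) (T := K ∙ u) (s := b - ξ b • u)
        ⟨sub_mem hb (B.smul_mem _ hu), by simp [hξ]⟩
        (Submodule.smul_mem _ (ξ b) (Submodule.mem_span_singleton_self u)))
      (sup_le inf_le_left (by simpa using hu))
    have := add_vec ht hG hδ hδσ hZσ hZδ u (ξ ∘ₗ q) d (by simp [(hB u hu).1, hξ])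
      (fun g hg => ?_) (fun w => by simp [hq]) (hB u hu).2 (fun g hg => ?_)
      (ih (B ⊓ LinearMap.ker ξ) (fun b hb => hB b hb.1) (by
        rw [e, Submodule.finrank_sup_span_singleton (by simp [hξ])] at hk
        omega))
    · rw [sup_assoc, ← e] at this
      convert this using 1
      push_cast; ring
    · obtain ⟨y, hy, z, hz, rfl⟩ := Submodule.mem_sup.1 hg
      simpa [hqG y hy, (hB z hz.1).1] using hz.2
    · obtain ⟨y, hy, z, hz, rfl⟩ := Submodule.mem_sup.1 hg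
      rw [map_add, (hB z hz.1).2]
      exact Submodule.add_mem_sup (hσ y hy) (Submodule.smul_mem _ _ hz)

end

end Pool.Agent.MP_8e2770_co.H72
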