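import Mathlib

/-!
The tensor product of an exterior algebra with a vector space, and its basic operators.
-/

namespace Pool.Agent.MP_8e2770_co.H72

open TensorProduct

noncomputable section

variable (K : Type) [Field K] (U N : Type) [AddCommGroup U] [Module K U] [AddCommGroup N]
  [Module K N]

/-- Exterior forms on `U` with coefficients in `N`. -/
def LL : Type := ExteriorAlgebra K U ⊗[K] N

instance : AddCommGroup (LL K U N) := inferInstanceAs (AddCommGroup (ExteriorAlgebra K U ⊗[K] N))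

instance : Module K (LL K U N) := inferInstanceAs (Module K (ExteriorAlgebra K U ⊗[K] N))

variable {K U N} {N' : Type} [AddCommGroup N'] [Module K N']

/-- Pure tensors. -/
def tm : ExteriorAlgebra K U →ₗ[K] N →ₗ[K] LL K U N := TensorProduct.mk K _ _

/-- Forms of degree zero. -/
def inn : N →ₗ[K] LL K U N := tm 1

/-- An operator on the exterior algebra. -/
def lT : (ExteriorAlgebra K U →ₗ[K] ExteriorAlgebra K U) →ₗ[K] LL K U N →ₗ[K] LL K U N :=
  LinearMap.rTensorHom N

/-- An operator on the coefficients. -/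
def rT : (N →ₗ[K] N') →ₗ[K] LL K U N →ₗ[K] LL K U N' := LinearMap.lTensorHom _

lemma lT_tm (B : ExteriorAlgebra K U →ₗ[K] ExteriorAlgebra K U) (w : ExteriorAlgebra K U) (n : N) :
    lT B (tm w n) = tm (B w) n := rfl

lemma rT_tm (A : N →ₗ[K] N') (w : ExteriorAlgebra K U) (n : N) : rT A (tm w n) = tm w (A n) := rfl

/-- Left multiplication by a vector. -/
def mu : U →ₗ[K] LL K U N →ₗ[K] LL K U N :=
  lT ∘ₗ LinearMap.mul K _ ∘ₗ ExteriorAlgebra.ι K

/-- Substitution. -/
def br (π : U →ₗ[K] U) : LL K U N →ₗ[K] LL K U N := lT (ExteriorAlgebra.map π).toLinearMap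

/-- Contraction. -/
def ct (φ : U →ₗ[K] K) : LL K U N →ₗ[K] LL K U N := lT (CliffordAlgebra.contractLeft (Q := 0) φ)

lemma mu_tm (u : U) (w : ExteriorAlgebra K U) (n : N) :
    mu u (tm w n) = tm (ExteriorAlgebra.ι K u * w) n := rfl

lemma tm_induction {P : LL K U N → Prop} (x : LL K U N) (tm : ∀ w n, P (tm w n))
    (add : ∀ a b, P a → P b → P (a + b)) : P x := by
  induction x using TensorProduct.induction_on with
  | zero => have := tm 0 0; rwa [map_zero] at this
  | add a b ha hb => exact add _ _ ha hb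
  | tmul w n => exact tm w n

lemma ll_induction {P : LL K U N → Prop} (x : LL K U N) (inn : ∀ n, P (inn n))
    (add : ∀ a b, P a → P b → P (a + b)) (mu : ∀ u a, P a → P (mu u a)) : P x := by
  induction x using tm_induction with
  | add a b ha hb => exact add a b ha hb
  | tm w n =>
    induction w using CliffordAlgebra.left_induction with
    | algebraMap r =>
      rw [Algebra.algebraMap_eq_smul_one, map_smul, LinearMap.smul_apply, ← map_smul]
      exact inn _
    | add a b ha hb => rw [map_add, LinearMap.add_apply]; exact add _ _ ha hb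
    | ι_mul a v ha => exact mu v _ ha

lemma mu_mu (u : U) (x : LL K U N) : mu u (mu u x) = 0 := by
  induction x using tm_induction with
  | add a b ha hb => simp [ha, hb]
  | tm w n => simp [mu_tm, ← mul_assoc]

lemma mu_swap (u u' : U) (x : LL K U N) : mu u (mu u' x) = -mu u' (mu u x) := by
  have := mu_mu (u + u') x
  simp only [map_add, LinearMap.add_apply, mu_mu, zero_add, add_zero] at this
  rw [eq_neg_iff_add_eq_zero, add_comm, this]

@[simp] lemma rT_inn (A : N →ₗ[K] N') (n : N) : rT A (inn n : LL K U N) = inn (A n) := rfl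

@[simp] lemma rT_mu (A : N →ₗ[K] N') (u : U) (x : LL K U N) : rT A (mu u x) = mu u (rT A x) := by
  induction x using tm_induction with
  | add a b ha hb => simp [ha, hb]
  | tm w n => rfl

@[simp] lemma br_inn (π : U →ₗ[K] U) (n : N) : br π (inn n : LL K U N) = inn n := by
  simp [br, inn, lT_tm]

@[simp] lemma br_mu (π : U →ₗ[K] U) (u : U) (x : LL K U N) :
    br π (mu u x) = mu (π u) (br π x) := by
  induction x using tm_induction with
  | add a b ha hb => simp [ha, hb]
  | tm w n => simp [br, mu_tm, lT_tm]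

@[simp] lemma ct_inn (φ : U →ₗ[K] K) (n : N) : ct φ (inn n : LL K U N) = 0 := by
  simp [ct, inn, lT_tm]

@[simp] lemma ct_mu (φ : U →ₗ[K] K) (u : U) (x : LL K U N) :
    ct φ (mu u x) = φ u • x - mu u (ct φ x) := by
  induction x using tm_induction with
  | add a b ha hb => simp only [map_add, ha, hb, smul_add]; abel
  | tm w n =>
    simp only [ct, mu_tm, lT_tm, ExteriorAlgebra.ι, CliffordAlgebra.contractLeft_ι_mul, map_sub,
      map_smul, LinearMap.sub_apply, LinearMap.smul_apply]

lemma ct_swap (φ φ' : U →ₗ[K] K) (x : LL K U N) : ct φ (ct φ' x) = -ct φ' (ct φ x) := by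
  induction x using tm_induction with
  | add a b ha hb => simp only [map_add, ha, hb]; abel
  | tm w n =>
    simp only [ct, lT_tm]
    rw [CliffordAlgebra.contractLeft_comm, map_neg, LinearMap.neg_apply]

@[simp] lemma rT_br (A : N →ₗ[K] N') (π : U →ₗ[K] U) (x : LL K U N) :
    rT A (br π x) = br π (rT A x) := by
  induction x using ll_induction <;> simp [*]

@[simp] lemma rT_ct (A : N →ₗ[K] N') (φ : U →ₗ[K] K) (x : LL K U N) :
    rT A (ct φ x) = ct φ (rT A x) := by
  induction x using ll_induction <;> simp [*]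

lemma rT_rT {N'' : Type} [AddCommGroup N''] [Module K N''] (A : N' →ₗ[K] N'') (A' : N →ₗ[K] N')
    (x : LL K U N) : rT A (rT A' x) = rT (A ∘ₗ A') x := by
  induction x using ll_induction <;> simp [*]

lemma rT_id (x : LL K U N) : rT LinearMap.id x = x := by
  induction x using ll_induction <;> simp [*]

lemma rT_comm {A B : N →ₗ[K] N} (h : ∀ n, A (B n) = B (A n)) (x : LL K U N) :
    rT A (rT B x) = rT B (rT A x) := by
  induction x using ll_induction <;> simp [*]

lemma rT_injective {A : N →ₗ[K] N'} (h : Function.Injective A) :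
    Function.Injective (rT A : LL K U N → LL K U N') :=
  Module.Flat.lTensor_preserves_injective_linearMap A h

lemma exists_of_rT_mkQ (p : Submodule K N) {x : LL K U N} (h : rT p.mkQ x = 0) :
    ∃ y, rT p.subtype y = x := by
  have : x ∈ LinearMap.ker (LinearMap.lTensor (ExteriorAlgebra K U) p.mkQ) := h
  rw [lTensor_mkQ] at this
  exact this

/-- Evaluation in a module over an algebra. -/
def evl {A M : Type} [Ring A] [Algebra K A] [AddCommGroup M] [Module K M] [Module A M]
    [IsScalarTower K A M] (f : U →ₗ[K] A) (hf : ∀ u, f u * f u = 0) (g : N →ₗ[K] M) :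
    LL K U N →ₗ[K] M :=
  TensorProduct.lift (((Algebra.lsmul K K M).toLinearMap ∘ₗ
    (ExteriorAlgebra.lift K ⟨f, hf⟩).toLinearMap).compl₂ g)

section
variable {A M : Type} [Ring A] [Algebra K A] [AddCommGroup M] [Module K M] [Module A M]
  [IsScalarTower K A M] (f : U →ₗ[K] A) (hf : ∀ u, f u * f u = 0) (g : N →ₗ[K] M)

lemma evl_tm (w : ExteriorAlgebra K U) (n : N) :
    evl f hf g (tm w n) = ExteriorAlgebra.lift K ⟨f, hf⟩ w • g n := rfl

@[simp] lemma evl_inn (n : N) : evl f hf g (inn n) = g n := by simp [inn, evl_tm]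

@[simp] lemma evl_mu (u : U) (x : LL K U N) : evl f hf g (mu u x) = f u • evl f hf g x := by
  induction x using tm_induction with
  | add a b ha hb => simp [ha, hb]
  | tm w n => simp [mu_tm, evl_tm, mul_smul]

end

/-- The degree zero component. -/
def out : LL K U N →ₗ[K] N := evl (A := K) 0 (by simp) LinearMap.id

@[simp] lemma out_inn (n : N) : out (inn n : LL K U N) = n := by simp [out]

@[simp] lemma out_mu (u : U) (x : LL K U N) : out (mu u x) = 0 := by simp [out]

/-- The smallest subspace containing `B` and stable under multiplication by the vectors in `G`. -/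
def Cl (G : Set U) (B : Set (LL K U N)) : Submodule K (LL K U N) :=
  sInf {Z | B ⊆ Z ∧ ∀ g ∈ G, ∀ x ∈ Z, mu g x ∈ Z}

variable {G G' : Set U} {B B' : Set (LL K U N)}

lemma Cl_le {Z : Submodule K (LL K U N)} (h : ∀ x ∈ B, x ∈ Z) (h' : ∀ g ∈ G, ∀ x ∈ Z, mu g x ∈ Z) :
    Cl G B ≤ Z := sInf_le ⟨h, h'⟩

lemma mem_Cl {x : LL K U N} (h : x ∈ B) : x ∈ Cl G B :=
  Submodule.mem_sInf.2 fun _ hZ => hZ.1 h

lemma mu_mem_Cl {g : U} (hg : g ∈ G) {x : LL K U N} (h : x ∈ Cl G B) : mu g x ∈ Cl G B :=
  Submodule.mem_sInf.2 fun Z hZ => hZ.2 g hg x (Submodule.mem_sInf.1 h Z hZ)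

lemma mu_mem_Cl' {g : U} (hg : g ∈ Submodule.span K G) {x : LL K U N} (h : x ∈ Cl G B) :
    mu g x ∈ Cl G B :=
  (Submodule.span_le.2 fun _ hg => mu_mem_Cl hg h :
    Submodule.span K G ≤ (Cl G B).comap (mu.flip x)) hg

lemma Cl_induction {P : LL K U N → Prop} {x : LL K U N} (hx : x ∈ Cl G B) (bas : ∀ x ∈ B, P x)
    (zero : P 0) (add : ∀ a ∈ Cl G B, ∀ b ∈ Cl G B, P a → P b → P (a + b))
    (smul : ∀ (c : K), ∀ a ∈ Cl G B, P a → P (c • a))
    (mul : ∀ g ∈ G, ∀ a ∈ Cl G B, P a → P (mu g a)) : P x := by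
  let Z : Submodule K (LL K U N) :=
    { carrier := {x | x ∈ Cl G B ∧ P x}
      add_mem' := fun ha hb => ⟨add_mem ha.1 hb.1, add _ ha.1 _ hb.1 ha.2 hb.2⟩
      zero_mem' := ⟨zero_mem _, zero⟩
      smul_mem' := fun c _ ha => ⟨Submodule.smul_mem _ _ ha.1, smul c _ ha.1 ha.2⟩ }
  exact (Cl_le (Z := Z) (fun x hx => ⟨mem_Cl hx, bas x hx⟩)
    (fun g hg x hx => ⟨mu_mem_Cl hg hx.1, mul g hg x hx.1 hx.2⟩) hx).2

/-- Induction for a linear condition. -/
lemma Cl_map {M : Type} [AddCommGroup M] [Module K M] (F : LL K U N →ₗ[K] M) {Z : Submodule K M}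
    (bas : ∀ x ∈ B, F x ∈ Z) (mul : ∀ g ∈ G, ∀ a ∈ Cl G B, F a ∈ Z → F (mu g a) ∈ Z)
    {x : LL K U N} (hx : x ∈ Cl G B) : F x ∈ Z :=
  Cl_induction hx bas (by simp) (fun a _ b _ ha hb => by simpa using add_mem ha hb)
    (fun c a _ ha => by simpa using Z.smul_mem c ha) mul

lemma Cl_mono (h : G ⊆ G') (h' : ∀ x ∈ B, x ∈ Cl G' B') : Cl G B ≤ Cl G' B' :=
  Cl_le h' fun _ hg _ hx => mu_mem_Cl (h hg) hx

end

end Pool.Agent.MP_8e2770_co.H72
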