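import Pool.Agent.MP_8e2770_co.H72.DelRes
import Pool.Agent.MP_8e2770_co.H72.Free

/-!
Vanishing of local cohomology of the presented modules in nonnegative degrees.
-/

namespace Pool.Agent.MP_8e2770_co.H72

open Finset

noncomputable section

variable {K V E N : Type} [Field K] [AddCommGroup V] [Module K V] [Fintype E] [DecidableEq E]
  [AddCommGroup N] [Module K N]

/-- The hypotheses on the complex of coefficients. -/
structure Hyp (h : E → V) (m : V →ₗ[K] N →ₗ[K] N) (S : Finset E) (t : K) (V0 : Submodule K V)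
    (σV : V →ₗ[K] V) (σ δ : N →ₗ[K] N) : Prop where
  ht : Function.Injective fun m : ℤ => t ^ m
  hm : ∀ v w n, m v (m w n) = m w (m v n)
  hN : ∀ Y : Submodule K V, ∀ v ∉ Y, ∀ n, m v n ∈ YN m Y → n ∈ YN m Y
  compl : IsCompl (Submodule.span K (h '' S)) V0
  s1 : ∀ v ∈ Submodule.span K (h '' S), σV v = t • v
  s0 : ∀ v ∈ V0, σV v = v
  σm : ∀ v n, σ (m v n) = m (σV v) (σ n)
  δm : ∀ v n, δ (m v n) = m v (δ n)
  δσ : ∀ n, σ (δ n) = δ (σ n)
  δδ : ∀ n, δ (δ n) = 0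
  gr : ∀ n, n ∈ Gr σ t
  tor : ∀ Y : Submodule K V, ∀ e ∈ S, ∀ x, δ x ∈ YN m Y →
    ∃ (k : ℕ) (g : N), (m (h e) ^ k) x - δ g ∈ YN m Y
  z0 : ∀ x, ∃ z, σ z = z ∧ x - z ∈ YN m (Submodule.span K (h '' S))

/-- The grading operator on generators. -/
def sU (σV : V →ₗ[K] V) : V × (E → K) →ₗ[K] V × (E → K) := σV.prodMap LinearMap.id

omit [Fintype E] [DecidableEq E] in
@[simp] lemma sU_dU (σV : V →ₗ[K] V) (v : V) : sU σV (dU v : V × (E → K)) = dU (σV v) := by
  simp [sU, dU]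

omit [Fintype E] in
@[simp] lemma sU_eU (σV : V →ₗ[K] V) (f : E) : sU σV (eU f : V × (E → K)) = eU f := by
  simp [sU, eU]

lemma par_symm {Y : Submodule K V} {v w : V} (hv : v ∉ Y) (h : v ∈ Y ⊔ K ∙ w) : w ∈ Y ⊔ K ∙ v := by
  obtain ⟨y, hy, z, hz, rfl⟩ := Submodule.mem_sup.1 h
  obtain ⟨c, rfl⟩ := Submodule.mem_span_singleton.1 hz
  refine (Submodule.smul_mem_iff _ (s := c) (by rintro rfl; exact hv (by simpa using hy))).1 ?_
  simpa using Submodule.add_mem_sup (neg_mem hy) (Submodule.mem_span_singleton_self (y + c • w))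

namespace Hyp

variable {h : E → V} {m : V →ₗ[K] N →ₗ[K] N} {S P : Finset E} {t : K} {V0 Y : Submodule K V}
  {σV : V →ₗ[K] V} {σ δ : N →ₗ[K] N} (H : Hyp h m S t V0 σV σ δ)
include H

omit [Fintype E] [DecidableEq E] in
lemma σ_YN (hY : Y ≤ Submodule.span K (h '' S)) : ∀ n ∈ YN m Y, σ n ∈ YN m Y := fun _ =>
  YN_map σ fun y hy n => by rw [H.σm, H.s1 y (hY hy)]; exact mem_YN (Y.smul_mem _ hy) _

omit [Fintype E] [DecidableEq E] in
lemma lc [Module.Finite K V] (z : ℕ) (hY : Y ≤ Submodule.span K (h '' S))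
    (hz : Module.finrank K Y + z = Module.finrank K (Submodule.span K (h '' S))) :
    AcycGe δ σ t (1 - z) ⊤ (YN m Y) := by
  have h0 := ne_zero_of_inj H.ht
  induction z generalizing Y with
  | zero =>
    obtain rfl := Submodule.eq_of_le_of_finrank_eq hY hz
    intro x _ hx _
    obtain ⟨z, hz, hxz⟩ := H.z0 x
    obtain ⟨y, hy, y', -, h1, h2, e⟩ := split H.ht (H.σ_YN le_rfl) hxz (H.gr _) 1
    refine ⟨0, trivial, ?_⟩
    have : x - y = 0 := eq_zero_of_Ge_Lt H.ht (sub_mem (by simpa using hx) h1) (by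
      rw [sub_eq_iff_eq_add.1 e, add_assoc, add_sub_cancel_left]
      exact add_mem h2 (Eig_le_Lt zero_lt_one (mem_Eig.2 (by simpa using hz))))
    simpa [sub_eq_zero.1 this] using hy
  | succ z ih =>
    obtain ⟨e, he, heY⟩ : ∃ e ∈ S, h e ∉ Y := by
      by_contra hc
      push Not at hc
      have := Submodule.finrank_mono
        (Submodule.span_le.2 (by rintro _ ⟨e, he, rfl⟩; exact hc e he) : .span K (h '' S) ≤ Y)
      omega
    have he' : h e ∈ Submodule.span K (h '' S) := Submodule.subset_span ⟨e, he, rfl⟩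
    have A := ih (Y := Y ⊔ K ∙ h e) (sup_le hY (by simpa using he'))
      (by rw [Submodule.finrank_sup_span_singleton heY]; omega)
    have up : ∀ x ∈ Ge σ t (1 - (z + 1 : ℕ)), m (h e) x ∈ Ge σ t (1 - z) := fun x hx => by
      convert Ge_map (T' := σ) h0 (m (h e)) 1 (fun x => by simp [H.σm, H.s1 _ he']) hx using 2
      push_cast; ring
    have dec : YN m (Y ⊔ K ∙ h e) ≤ YN m Y ⊔ LinearMap.range (m (h e)) := fun a =>
      YN_map LinearMap.id fun y hy n => by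
        obtain ⟨y, hy', z, hz, rfl⟩ := Submodule.mem_sup.1 hy
        obtain ⟨c, rfl⟩ := Submodule.mem_span_singleton.1 hz
        simpa using Submodule.add_mem_sup (mem_YN hy' n)
          (Submodule.smul_mem _ c (LinearMap.mem_range_self (m (h e)) n))
    have hδY : ∀ a ∈ YN m Y, δ a ∈ YN m Y := fun a => map_mem_YN H.δm
    have key : ∀ x ∈ Ge σ t (1 - (z + 1 : ℕ)), (∃ g, m (h e) x - δ g ∈ YN m Y) →
        ∃ g, x - δ g ∈ YN m Y := by
      rintro x hx ⟨g, hg⟩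
      obtain ⟨g, -, y, hy, hg, -, h1⟩ := split_three H.ht H.gr H.δσ (X := ⊤) (X' := ⊥) (by simp)
        (by simp) (H.σ_YN hY) (up x hx) (g := g) trivial (by simpa using hg)
      rw [(Submodule.mem_bot K).1 hy, sub_zero] at h1
      obtain ⟨g', -, h2⟩ := A g trivial hg (by
        simpa using sub_mem (mem_YN (Submodule.mem_sup_right (Submodule.mem_span_singleton_self _)) x)
          (Submodule.span_mono (by
            rintro _ ⟨y, hy, n, rfl⟩; exact ⟨y, Submodule.mem_sup_left hy, n, rfl⟩) h1 :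
              _ ∈ YN m (Y ⊔ K ∙ h e)))
      obtain ⟨j, hj, _, ⟨g'', rfl⟩, e1⟩ := Submodule.mem_sup.1 (dec h2)
      refine ⟨g'', H.hN Y _ heY _ ?_⟩
      have e2 := congrArg δ e1
      rw [map_add, map_sub, H.δδ, sub_zero, H.δm] at e2
      convert add_mem h1 (hδY j hj) using 1
      rw [map_sub, ← e2]; abel
    intro x _ hx hd
    obtain ⟨k, hk⟩ := H.tor Y e he x hd
    clear hd
    induction k generalizing x with
    | zero => simpa using hk
    | succ k ih' =>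
      simpa using key x hx (by simpa using ih' _ trivial (Ge_anti (by omega) (up x hx)) hk)

omit [Fintype E] [DecidableEq E] in
lemma grL (x : LL K (V × (E → K)) N) : x ∈ Gr (TT (sU σV) σ) t := by
  refine mem_Gr_TT H.ht (fun u => ?_) H.gr x
  obtain ⟨a, ha, b, hb, e⟩ := Submodule.mem_sup.1 (H.compl.sup_eq_top.ge (Submodule.mem_top (x := u.1)))
  have : u = (a, 0) + (b, u.2) := by simp [e]
  rw [this]
  exact add_mem (Eig_le_Gr 1 (mem_Eig.2 (by simp [sU, H.s1 a ha])))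
    (Eig_le_Gr 0 (mem_Eig.2 (by simp [sU, H.s0 b hb])))

omit H [Fintype E] in
lemma TT_XX : ∀ x ∈ XX N P, TT (sU σV) σ x ∈ XX N P := fun _ =>
  XX_map (TT (sU σV) σ) (fun n => by simpa using inn_mem _) (by
    rintro _ (⟨v, rfl⟩ | ⟨f, hf, rfl⟩) a _ ha
    · simpa using mu_XX (dU_mem _) ha
    · simpa using mu_XX (eU_mem hf) ha)

lemma TT_JJ (hP : P ⊆ S) (hY : Y ≤ Submodule.span K (h '' S)) :
    ∀ x ∈ JJ h m P Y, TT (sU σV) σ x ∈ JJ h m P Y := fun _ =>
  Cl_map (TT (sU σV) σ) (fun x hx => by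
    cases hx with
    | r1 y hy n => simpa using inn_mem_JJ (H.σ_YN hY _ (mem_YN hy n))
    | r2 y hy n => simpa [H.s1 y (hY hy)] using Submodule.smul_mem _ t (Bas.r2 y hy _).mem
    | r3 f hf n =>
      simpa [H.σm, H.s1 _ (Submodule.subset_span ⟨f, hP hf, rfl⟩), smul_sub] using
        Submodule.smul_mem _ t (Bas.r3 f hf _).mem
    | r4 C hC hd n =>
      have e1 : ∀ C : List E, TT (sU σV) σ (eL C (inn n)) = eL C (inn (σ n)) := fun C => by
        induction C <;> simp [*]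
      have e2 := ct_TT (σU := sU σV) (σ := σ) (x := eL C (inn n)) (φ := ph univ) (c := 1)
        fun u => by simp [ph, sU]
      rw [one_smul, e1] at e2
      exact e2 ▸ (Bas.r4 C hC hd _).mem) (by
    rintro _ (⟨v, rfl⟩ | ⟨f, hf, rfl⟩) a _ ha
    · simpa using mu_JJ (dU_mem _) ha
    · simpa using mu_JJ (eU_mem hf) ha)

lemma reg_par [Module.Finite K V] {e : E} (hP : P ⊆ S) (hY : Y ≤ Submodule.span K (h '' S))
    (C : Cls h P P Y e) : AcycGe (rT δ) (TT (sU σV) σ) t 0 (XX N P) (JJ h m P Y) := by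
  have he := C.nl e C.mem
  have he' : h e ∈ Y ⊔ K ∙ h e := Submodule.mem_sup_right (Submodule.mem_span_singleton_self _)
  obtain ⟨A, hA1, hA2⟩ := IsModularLattice.exists_disjoint_and_sup_eq
    (sup_le hY ((Submodule.span_singleton_le_iff_mem _ _).2 (Submodule.subset_span ⟨e, hP C.mem, rfl⟩)) :
      Y ⊔ K ∙ h e ≤ Submodule.span K (h '' S))
  have hA : A ≤ Submodule.span K (h '' S) := hA2 ▸ le_sup_right
  have hc : IsCompl (Y ⊔ K ∙ h e) (A ⊔ V0) :=
    ⟨hA1.disjoint_sup_right_of_disjoint_sup_left (by rw [hA2]; exact H.compl.disjoint),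
      by rw [codisjoint_iff, ← sup_assoc, hA2, H.compl.sup_eq_top]⟩
  have hδY : ∀ a ∈ YN m Y, δ a ∈ YN m Y := fun a => map_mem_YN H.δm
  -- the free module
  let q : V × (E → K) →ₗ[K] V × (E → K) :=
    dU ∘ₗ Submodule.projection _ _ H.compl ∘ₗ LinearMap.fst K _ _
  have hq : ∀ w, q (sU σV w) = t • q w := fun w => by
    obtain ⟨a, ha, b, hb, e⟩ :=
      Submodule.mem_sup.1 (H.compl.sup_eq_top.ge (Submodule.mem_top (x := w.1)))
    simp [q, sU, ← e, H.s1 a ha, H.s0 b hb, Submodule.projection_apply_of_mem_right H.compl hb]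
  have g0 : ∀ g ∈ V0.map dU ⊔ K ∙ (eU e : V × (E → K)), q g = 0 ∧ sU σV g = g := fun g hg => by
    obtain ⟨_, ⟨b, hb, rfl⟩, z, hz, rfl⟩ := Submodule.mem_sup.1 hg
    obtain ⟨c, rfl⟩ := Submodule.mem_span_singleton.1 hz
    simp [q, dU, eU, sU, H.s0 b hb, Submodule.projection_apply_of_mem_right H.compl hb]
  have fr : Module.finrank K (A.map (dU : V →ₗ[K] V × (E → K))) = Module.finrank K A :=
    (Submodule.equivMapOfInjective _ LinearMap.inl_injective A).finrank_eq.symm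
  have A0 := acyc_bot (σU := sU (E := E) σV) H.ht (H.lc (Module.finrank K A + 1) hY (by
    have := Submodule.finrank_sup_add_finrank_inf_eq (Y ⊔ K ∙ h e) A
    rw [hA2, hA1.eq_bot, finrank_bot, Submodule.finrank_sup_span_singleton he] at this
    omega))
  have A1 := add_space H.ht H.grL H.δδ H.δσ (H.σ_YN hY) hδY (LinearMap.id - q) 0
    (fun w => by
      obtain ⟨a, ha, b, hb, e⟩ :=
        Submodule.mem_sup.1 (H.compl.sup_eq_top.ge (Submodule.mem_top (x := w.1)))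
      ext1
      · simp [q, dU, sU, ← e, H.s1 a ha, H.s0 b hb,
          Submodule.projection_apply_of_mem_right H.compl hb,
          Submodule.projection_apply_of_mem_left H.compl ha]
      · simp [q, dU, sU]) (by simp) (by simp) A0 _ (V0.map dU ⊔ K ∙ eU e)
    (fun b hb => by simp [g0 b hb]) rfl
  rw [bot_sup_eq] at A1
  have A2 := add_space H.ht H.grL H.δδ H.δσ (H.σ_YN hY) hδY q 1 (by simpa using hq)
    (fun g hg => (g0 g hg).2.symm ▸ hg) (fun g hg => (g0 g hg).1) A1 _ (A.map dU) (by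
      rintro _ ⟨a, ha, rfl⟩
      simp [q, dU, sU, H.s1 a (hA ha), Submodule.projection_apply_of_mem_left H.compl (hA ha)]) fr
  set G := (V0.map dU ⊔ K ∙ (eU e : V × (E → K))) ⊔ A.map dU with hG
  have eG : eU e ∈ G :=
    Submodule.mem_sup_left (Submodule.mem_sup_right (Submodule.mem_span_singleton_self _))
  have dG : ∀ v ∈ A ⊔ V0, dU v ∈ G := fun v hv => by
    obtain ⟨a, ha, b, hb, rfl⟩ := Submodule.mem_sup.1 hv
    rw [add_comm, map_add]
    exact Submodule.add_mem_sup (Submodule.mem_sup_left ⟨b, hb, rfl⟩) ⟨a, ha, rfl⟩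
  have Gind : ∀ W : Submodule K (V × (E → K)), eU e ∈ W → (∀ v ∈ A ⊔ V0, dU v ∈ W) → G ≤ W :=
    fun W h1 h2 => sup_le (sup_le (by
      rintro _ ⟨v, hv, rfl⟩; exact h2 v (Submodule.mem_sup_right hv)) (by simpa using h1)) (by
      rintro _ ⟨v, hv, rfl⟩; exact h2 v (Submodule.mem_sup_left hv))
  have GP' : G ≤ Submodule.span K (GP P) := Gind _ (Submodule.subset_span (eU_mem C.mem))
    fun v _ => Submodule.subset_span (dU_mem v)
  have le1 : CG G ⊤ ≤ XX N P :=
    Cl_le (by rintro _ ⟨n, -, rfl⟩; exact inn_mem n) fun g hg x => mu_mem_Cl' (GP' hg)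
  have le2 : CG G (YN m Y) ≤ JJ h m P Y :=
    Cl_le (by rintro _ ⟨n, hn, rfl⟩; exact inn_mem_JJ hn) fun g hg x => mu_mem_Cl' (GP' hg)
  -- the retraction
  obtain ⟨ξ₀, ξ1, ξ0⟩ := Y.exists_dual_map_eq_bot_of_notMem he inferInstance
  replace ξ0 : ∀ y ∈ Y, ξ₀ y = 0 := fun y hy => by
    simpa [ξ0] using Submodule.mem_map_of_mem (f := ξ₀) hy
  let ξ : V →ₗ[K] K := ((ξ₀ (h e))⁻¹ • ξ₀) ∘ₗ Submodule.projection _ _ hc
  let π : V →ₗ[K] V := Submodule.projection _ _ hc.symm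
  have p1 : ∀ v ∈ A ⊔ V0, π v = v ∧ ξ v = 0 := fun v hv => by
    simp [π, ξ, Submodule.projection_apply_of_mem_left hc.symm hv,
      Submodule.projection_apply_of_mem_right hc hv]
  have p2 : ∀ v ∈ Y ⊔ K ∙ h e, π v = 0 ∧ v - ξ v • h e ∈ Y := fun v hv => by
    refine ⟨Submodule.projection_apply_of_mem_right hc.symm hv, ?_⟩
    simp only [ξ, LinearMap.comp_apply, Submodule.projection_apply_of_mem_left hc hv]
    obtain ⟨y, hy, z, hz, rfl⟩ := Submodule.mem_sup.1 hv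
    obtain ⟨c, rfl⟩ := Submodule.mem_span_singleton.1 hz
    simpa [ξ0 y hy, ξ1, mul_comm c, ← mul_assoc] using hy
  have p3 : ∀ v, π v ∈ A ⊔ V0 := fun v => Submodule.projection_apply_mem _ _
  have p4 : ∀ y ∈ Y, ξ y = 0 := fun y hy => by
    simp [ξ, Submodule.projection_apply_of_mem_left hc (Submodule.mem_sup_left hy), ξ0 y hy]
  let πU : V × (E → K) →ₗ[K] V × (E → K) :=
    dU ∘ₗ π ∘ₗ LinearMap.fst K _ _ + (ph univ).smulRight (eU e)
  let φ : V × (E → K) →ₗ[K] K := ξ ∘ₗ LinearMap.fst K _ _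
  have q1 : ∀ v, πU (dU v) = dU (π v) := fun v => by simp [πU]; rfl
  have q2 : ∀ f, πU (eU f) = eU e := fun f => by simp [πU]; simp [eU]
  have q3 : ∀ v, φ (dU v) = ξ v := fun v => rfl
  have q4 : ∀ f, φ (eU f) = 0 := fun f => by simp [φ, eU]
  let Φ : LL K (V × (E → K)) N →ₗ[K] LL K (V × (E → K)) N :=
    br πU + mu (eU e) ∘ₗ rT (m (h e)) ∘ₗ br πU ∘ₗ ct φ
  have hΦ : ∀ x, Φ x = br πU x + mu (eU e) (rT (m (h e)) (br πU (ct φ x))) := fun x => rfl
  clear_value Φ φ πU π ξ G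
  have Φ1 : ∀ x ∈ JJ h m P Y, Φ x ∈ CG G (YN m Y) := fun x =>
    Cl_map Φ (fun x hx => by
      cases hx with
      | r1 y hy n => simpa [hΦ] using inn_CG (mem_YN hy n)
      | r2 y hy n => simp [hΦ, q1, q3, (p2 y (Submodule.mem_sup_left hy)).1, p4 y hy]
      | r3 f hf n =>
        simpa [hΦ, q1, q2, q3, q4, (p2 _ (C.par f hf)).1, mu_mu, sub_eq_add_neg] using
          mu_CG eG (inn_CG (mem_YN (p2 _ (C.par f hf)).2 n))
      | r4 D hD hd n =>
        refine r4_cases P Φ n (fun D hD hd => ?_) (fun f hf D hD hd => ?_)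
          (fun f hf f' hf' z => by simp [hΦ, q2, q4, mu_mu]) D hD hd
        · obtain ⟨l, ⟨f, hf⟩, h2, -⟩ := hd
          simpa using hD f (h2 f hf)
        · obtain ⟨l, ⟨f, hf⟩, h2, -⟩ := hd.tail le_sup_left (C.nl f hf) (C.par f hf)
          simpa using hD f (h2 f hf)) (by
      rintro _ (⟨v, rfl⟩ | ⟨f, hf, rfl⟩) a _ ha
      · convert add_mem (mu_CG (dG _ (p3 v)) ha) (Submodule.smul_mem _ (ξ v)
          (rT_CG (fun n => map_mem_YN (H.hm (h e))) (mu_CG eG ha))) using 1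
        simp [hΦ, q1, q3, mu_mu, mu_swap (eU e) (dU _)]
        abel
      · simpa [hΦ, q2, q4, mu_mu] using mu_CG eG ha)
  have Φ2 : ∀ x ∈ CG G ⊤, Φ x = x := fun x hx => by
    rw [hΦ, ct_CG_eq (fun g hg => Gind (LinearMap.ker φ) (q4 e) (fun v hv => (q3 v).trans (p1 v hv).2) hg) hx,
      br_CG_eq (π := πU) (fun g hg => Gind (LinearMap.eqLocus πU LinearMap.id)
        (q2 e) (fun v hv => by simp [q1, (p1 v hv).1]) hg) hx]
    simp
  have cov : XX N P ≤ CG G ⊤ ⊔ JJ h m P Y := by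
    refine Cl_le (by rintro _ ⟨n, rfl⟩; exact Submodule.mem_sup_left (inn_CG trivial))
      fun g hg x hx' => ?_
    obtain ⟨x, hx, j, hj, rfl⟩ := Submodule.mem_sup.1 hx'
    rw [map_add]
    refine add_mem ?_ (Submodule.mem_sup_right (mu_JJ hg hj))
    rcases hg with ⟨v, rfl⟩ | ⟨f, hf, rfl⟩
    · obtain ⟨a, ha, b, hb, rfl⟩ := Submodule.mem_sup.1 (hc.sup_eq_top.ge (Submodule.mem_top (x := v)))
      have := Submodule.add_mem_sup (add_mem (mu_CG (dG b hb) hx) (Submodule.smul_mem _ (ξ a)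
        (mu_CG eG (rT_CG (A := m (h e)) (Z' := ⊤) (by simp) hx))))
        (sub_mem (J2 (h := h) (m := m) (p2 a ha).2 (le1 hx))
          (Submodule.smul_mem _ (ξ a) (J3 C.mem (le1 hx))))
      convert this using 1
      simp [smul_sub]
      abel
    · simpa using Submodule.add_mem_sup (mu_CG eG hx) (C.j4 hf (le1 hx))
  refine AcycGe.step H.ht H.grL (rT_sq H.δδ) (fun x => TT_rT H.δσ) TT_XX
    (fun x => TT_CG (Gind (G.comap (sU σV)) (by simpa using eG) fun v hv => ?_) (by simp))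
    (H.TT_JJ hP hY) (fun x => rT_CG (by simp)) (fun x => rT_mem_JJ H.δm) le1 le2
    (fun x hx hx' => Φ2 x hx ▸ Φ1 x hx') 0 0 (X'' := ⊥) (J'' := ⊥) (b := 0) (by simp) (by simp)
    (by simp) (by simp) (by simp) (by simp) (fun x hx => by simpa using cov hx) (by simp)
    (by simpa using A2) fun x hx _ _ => ⟨0, zero_mem _, by simpa using hx⟩
  obtain ⟨a, ha, b, hb, rfl⟩ := Submodule.mem_sup.1 hv
  rw [Submodule.mem_comap, sU_dU, map_add, H.s1 a (hA ha), H.s0 b hb]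
  exact dG _ (Submodule.add_mem_sup (A.smul_mem _ ha) hb)

theorem reg [Module.Finite K V] {e₀ : E} (P : Finset E) (Y : Submodule K V) (hP : P ⊆ S)
    (hY : Y ≤ Submodule.span K (h '' S)) (he₀ : e₀ ∈ P) (hl : ∀ f ∈ P, h f ∉ Y) :
    AcycGe (rT δ) (TT (sU σV) σ) t 0 (XX N P) (JJ h m P Y) := by
  classical
  induction P using Finset.strongInduction generalizing Y with
  | H P ih =>
  by_cases hA : ∃ e ∈ P, h e₀ ∉ Y ⊔ K ∙ h e
  · obtain ⟨e, he, hve⟩ := hA
    have C : Cls h P (P.filter fun f => h f ∈ Y ⊔ K ∙ h e) Y e := ⟨filter_subset _ _,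
      mem_filter.2 ⟨he, Submodule.mem_sup_right (Submodule.mem_span_singleton_self _)⟩, hl,
      fun f hf => (mem_filter.1 hf).2⟩
    set Q := P.filter fun f => h f ∈ Y ⊔ K ∙ h e
    have hlt := sdiff_ssubset C.sub ⟨e, C.mem⟩
    have h0 : e₀ ∈ P \ Q := mem_sdiff.2 ⟨he₀, fun h' => hve (mem_filter.1 h').2⟩
    have hl' : ∀ f ∈ P \ Q, h f ∉ Y := fun f hf => hl f (mem_sdiff.1 hf).1
    refine AcycGe.step H.ht H.grL (rT_sq H.δδ) (fun x => TT_rT H.δσ) TT_XX TT_XX (H.TT_JJ hP hY)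
      (fun x => rT_mem_XX _) (fun x => rT_mem_JJ H.δm) (XX_mono sdiff_subset)
      (JJ_mono sdiff_subset le_rfl) (fun x => C.inj H.hm (tf H.hm H.hN _ _ hl')) (rho Q)
      (mu (eU e)) (by simp [rho_apply]) (by simp) (fun x => rho_mem) (fun x hx => (C.res hx).2)
      (fun x hx => mu_XX (eU_mem he) (XX_mono sdiff_subset hx)) (fun x => C.sec) (fun x => C.ker)
      (fun x => Ge_map₀ (ne_zero_of_inj H.ht) _ fun x => ?_)
      (ih _ hlt Y (sdiff_subset.trans hP) hY h0 hl')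
      (ih _ hlt _ (sdiff_subset.trans hP)
        (sup_le hY ((Submodule.span_singleton_le_iff_mem _ _).2
          (Submodule.subset_span ⟨e, hP he, rfl⟩))) h0
        fun f hf h' => (mem_sdiff.1 hf).2 (mem_filter.2 ⟨(mem_sdiff.1 hf).1, h'⟩))
    rw [rho_apply, rho_apply, ct_TT (c := 1) (by simp [ph, sU]), one_smul,
      TT_br (by simp [kl, sU])]
  · push Not at hA
    exact H.reg_par hP hY ⟨subset_rfl, he₀, hl, fun f hf => par_symm (hl _ he₀) (hA f hf)⟩

end Hyp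

end

end Pool.Agent.MP_8e2770_co.H72
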