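import Pool.Agent.MP_8e2770_co.H72.Forms
import Pool.Agent.MP_8e2770_co.H72.Cube
import Pool.Agent.MP_8e2770_co.H72.Reg

/-!
The Cech complex of the polynomial ring with respect to a family of linear forms.
-/

namespace Pool.Agent.MP_8e2770_co.H72

open MvPolynomial Finset

noncomputable section

variable {K : Type} [Field K] {n : ℕ}

/-- Linear substitution of variables. -/
def sb (φ : (Fin n → K) →ₗ[K] Fin n → K) : MvPolynomial (Fin n) K →ₐ[K] MvPolynomial (Fin n) K :=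
  aeval fun i => lin (φ (Pi.single i 1))

lemma sb_lin (φ : (Fin n → K) →ₗ[K] Fin n → K) (v : Fin n → K) : sb φ (lin v) = lin (φ v) := by
  conv_rhs => rw [pi_eq_sum_univ' v]
  simp [lin_apply v, sb]

lemma sb_sb (φ ψ : (Fin n → K) →ₗ[K] Fin n → K) (p : MvPolynomial (Fin n) K) :
    sb φ (sb ψ p) = sb (φ ∘ₗ ψ) p := by
  have : (sb φ).comp (sb ψ) = sb (φ ∘ₗ ψ) := by
    refine MvPolynomial.algHom_ext fun i => ?_
    simp only [← lin_single, AlgHom.comp_apply, sb_lin, LinearMap.comp_apply]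
  exact congrArg (fun F => F p) this

lemma sb_injective {φ : (Fin n → K) →ₗ[K] Fin n → K} (hφ : Function.Injective φ) :
    Function.Injective (sb φ) := by
  obtain ⟨ψ, hψ⟩ := φ.exists_leftInverse_of_injective (LinearMap.ker_eq_bot.2 hφ)
  have : sb (LinearMap.id : (Fin n → K) →ₗ[K] _) = AlgHom.id K _ :=
    MvPolynomial.algHom_ext fun i => by simp [sb, lin_single]
  exact Function.LeftInverse.injective (g := sb ψ) fun p => by rw [sb_sb, hψ, this]; rfl

/-- Linear substitution on rational functions. -/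
def sF (φ : (Fin n → K) →ₗ[K] Fin n → K) (hφ : Function.Injective φ) : FF K n →ₐ[K] FF K n :=
  IsFractionRing.liftAlgHom (g := pol.comp (sb φ)) (pol_injective.comp (sb_injective hφ))

lemma sF_pol {φ : (Fin n → K) →ₗ[K] Fin n → K} (hφ : Function.Injective φ)
    (p : MvPolynomial (Fin n) K) : sF φ hφ (pol p) = pol (sb φ p) := by
  simp [sF, pol]

lemma sF_L {φ : (Fin n → K) →ₗ[K] Fin n → K} (hφ : Function.Injective φ) (v : Fin n → K) :
    sF φ hφ (L v) = L (φ v) := by rw [L_apply, sF_pol, sb_lin, L_apply]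

/-- The ideal generated by a space of linear forms. -/
def IY (Y : Submodule K (Fin n → K)) : Ideal (MvPolynomial (Fin n) K) := Ideal.span (lin '' Y)

lemma lin_mem_IY {Y : Submodule K (Fin n → K)} {y : Fin n → K} (hy : y ∈ Y) : lin y ∈ IY Y :=
  Ideal.subset_span ⟨y, hy, rfl⟩

lemma sub_sb_mem {Y : Submodule K (Fin n → K)} {π : (Fin n → K) →ₗ[K] Fin n → K}
    (hπ : ∀ v, v - π v ∈ Y) (p : MvPolynomial (Fin n) K) : p - sb π p ∈ IY Y := by
  induction p using MvPolynomial.induction_on with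
  | C c => simp [sb]
  | add a b ha hb => convert add_mem ha hb using 1; rw [map_add]; ring
  | mul_X a i ha =>
    convert add_mem (Ideal.mul_mem_right (X i) _ ha)
      (Ideal.mul_mem_left _ (sb π a) (lin_mem_IY (hπ (Pi.single i 1)))) using 1
    rw [map_mul, ← lin_single, sb_lin, map_sub]; ring

lemma mem_IY_of_mul {Y : Submodule K (Fin n → K)} {v : Fin n → K} (hv : v ∉ Y)
    {p : MvPolynomial (Fin n) K} (hp : lin v * p ∈ IY Y) : p ∈ IY Y := by
  obtain ⟨Y', hY'⟩ := Y.exists_isCompl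
  let π := Y'.projection Y hY'.symm
  have h1 : IY Y ≤ RingHom.ker (sb π) := Ideal.span_le.2 (by
    rintro _ ⟨y, hy, rfl⟩
    simp [sb_lin, π, Submodule.projection_apply_of_mem_right hY'.symm hy])
  have h2 := h1 hp
  rw [RingHom.mem_ker, map_mul, sb_lin, mul_eq_zero] at h2
  have h3 : ∀ v, v - π v ∈ Y := Submodule.sub_projection_mem hY'.symm
  rcases h2 with h2 | h2
  · exact absurd (by simpa [lin_injective (h2.trans (map_zero _).symm)] using h3 v) hv
  · simpa [h2] using sub_sb_mem h3 p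

variable {κ : Type} (b : κ → Fin n → K)

/-- The product of the linear forms indexed by `τ`. -/
def fP (τ : Finset κ) : MvPolynomial (Fin n) K := ∏ i ∈ τ, lin (b i)

/-- The localisation of an ideal at the forms indexed by `τ`. -/
def Loc (I : Ideal (MvPolynomial (Fin n) K)) (τ : Finset κ) : Submodule K (FF K n) where
  carrier := {a | ∃ k : ℕ, ∃ p ∈ I, pol (fP b τ) ^ k * a = pol p}
  zero_mem' := ⟨0, 0, zero_mem _, by simp⟩
  add_mem' := by
    rintro x y ⟨k, p, hp, e⟩ ⟨k', p', hp', e'⟩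
    refine ⟨k + k', fP b τ ^ k' * p + fP b τ ^ k * p',
      add_mem (I.mul_mem_left _ hp) (I.mul_mem_left _ hp'), ?_⟩
    simp only [map_add, map_mul, map_pow, ← e, ← e']; ring
  smul_mem' := by
    rintro c x ⟨k, p, hp, e⟩
    exact ⟨k, c • p, Submodule.smul_of_tower_mem _ c hp, by rw [map_smul, ← e, mul_smul_comm]⟩

variable {b} {I : Ideal (MvPolynomial (Fin n) K)} {τ : Finset κ}

lemma pol_mem_Loc {p : MvPolynomial (Fin n) K} (hp : p ∈ I) : pol p ∈ Loc b I τ :=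
  ⟨0, p, hp, by simp⟩

lemma mul_mem_Loc {x y : FF K n} (hx : x ∈ Loc b ⊤ τ) (hy : y ∈ Loc b I τ) : x * y ∈ Loc b I τ := by
  obtain ⟨k, p, -, e⟩ := hx
  obtain ⟨k', p', hp', e'⟩ := hy
  exact ⟨k + k', p * p', I.mul_mem_left _ hp', by rw [map_mul, ← e, ← e']; ring⟩

lemma Loc_mono [DecidableEq κ] : Monotone (Loc b I) := by
  rintro τ τ' h x ⟨k, p, hp, e⟩
  refine ⟨k, fP b (τ' \ τ) ^ k * p, I.mul_mem_left _ hp, ?_⟩
  rw [fP, ← prod_sdiff h, map_mul, map_mul, map_pow, ← e, fP, fP]; ring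

lemma Loc_insert [DecidableEq κ] {i : κ} (hi : i ∉ τ) {x : FF K n} (hx : x ∈ Loc b I (insert i τ)) :
    ∃ k₀ : ℕ, ∀ k, k₀ ≤ k → L (b i) ^ k * x ∈ Loc b I τ := by
  obtain ⟨k₀, p, hp, e⟩ := hx
  refine ⟨k₀, fun k hk => ⟨k₀, lin (b i) ^ (k - k₀) * p, I.mul_mem_left _ hp, ?_⟩⟩
  obtain ⟨j, rfl⟩ := Nat.exists_eq_add_of_le hk
  rw [map_mul, ← e, fP, fP, prod_insert hi, map_mul, map_pow, L_apply, Nat.add_sub_cancel_left]
  ring

lemma fP_ne_zero (hb : ∀ i, b i ≠ 0) (τ : Finset κ) : pol (fP b τ) ≠ 0 := by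
  rw [fP, map_prod]
  exact prod_ne_zero_iff.2 fun i _ => L_ne_zero (hb i)

variable (b) in
/-- The Cech complex. -/
abbrev NN : Type := Tot (Loc b ⊤)

variable (b) in
/-- Multiplication by a polynomial. -/
def mP : MvPolynomial (Fin n) K →ₗ[K] NN b →ₗ[K] NN b :=
  LinearMap.mk₂ K (fun p x => ⟨fun τ => pol p * x.1 τ,
      mem_Tot.2 fun τ => mul_mem_Loc (pol_mem_Loc trivial) (mem_Tot.1 x.2 τ)⟩)
    (fun _ _ _ => by ext; simp [add_mul]) (fun _ _ _ => by ext; simp)
    (fun _ _ _ => by ext; simp [mul_add]) (fun _ _ _ => by ext; simp)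

lemma mP_apply (p : MvPolynomial (Fin n) K) (x : NN b) (τ : Finset κ) :
    (mP b p x).1 τ = pol p * x.1 τ := rfl

variable (b) in
/-- Multiplication by a linear form. -/
def mN : (Fin n → K) →ₗ[K] NN b →ₗ[K] NN b := mP b ∘ₗ lin

lemma mN_apply (v : Fin n → K) (x : NN b) (τ : Finset κ) : (mN b v x).1 τ = L v * x.1 τ := rfl

variable [LinearOrder κ]

variable (b) in
/-- The differential. -/
def dN : NN b →ₗ[K] NN b := cech.restrict fun _ => cech_mem Loc_mono

lemma dN_apply (x : NN b) : (dN b x).1 = cech (K := K) x.1 := rfl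

variable (hb : ∀ i, b i ≠ 0)

/-- An element concentrated in one face. -/
def sgl (τ : Finset κ) (k : ℕ) : MvPolynomial (Fin n) K →ₗ[K] NN b :=
  (LinearMap.single K (fun _ => FF K n) τ ∘ₗ LinearMap.mulLeft K (pol (fP b τ) ^ k)⁻¹ ∘ₗ
    pol.toLinearMap).codRestrict _ fun p => mem_Tot.2 fun τ' => by
      by_cases h : τ' = τ
      · subst h
        exact ⟨k, p, trivial, by simp [fP_ne_zero hb]⟩
      · simp [h]

lemma sgl_apply (τ : Finset κ) (k : ℕ) (p : MvPolynomial (Fin n) K) :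
    (sgl hb τ k p).1 = Pi.single τ ((pol (fP b τ) ^ k)⁻¹ * pol p) := rfl

lemma exists_sgl [Fintype κ] {x : NN b} (hx : ∀ τ, x.1 τ ∈ Loc b I τ) :
    ∃ (k : Finset κ → ℕ) (p : Finset κ → MvPolynomial (Fin n) K), (∀ τ, p τ ∈ I) ∧
      x = ∑ τ, sgl hb τ (k τ) (p τ) := by
  choose k p hp e using hx
  refine ⟨k, p, hp, Subtype.ext (funext fun τ => ?_)⟩
  simp [sgl_apply, ← e, fP_ne_zero hb, Pi.single_apply]

include hb in
lemma mem_YN_iff [Fintype κ] {Y : Submodule K (Fin n → K)} {x : NN b} :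
    x ∈ YN (mN b) Y ↔ ∀ τ, x.1 τ ∈ Loc b (IY Y) τ := by
  refine ⟨fun hx τ => YN_map (LinearMap.proj τ ∘ₗ Submodule.subtype _) (fun y hy a => ?_) hx,
    fun hx => ?_⟩
  · obtain ⟨k, p, -, e⟩ := mem_Tot.1 a.2 τ
    exact ⟨k, lin y * p, Ideal.mul_mem_right _ _ (lin_mem_IY hy), by
      rw [map_mul, ← e, mul_left_comm]; rfl⟩
  obtain ⟨k, p, hp, rfl⟩ := exists_sgl hb hx
  refine sum_mem fun τ _ => ?_
  suffices ∀ q ∈ IY Y, ∀ r, sgl hb τ (k τ) (r * q) ∈ YN (mN b) Y by simpa using this _ (hp τ) 1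
  intro q hq
  induction hq using Submodule.span_induction with
  | mem _ hq =>
    obtain ⟨y, hy, rfl⟩ := hq
    intro r
    convert mem_YN hy (sgl hb τ (k τ) r) using 1
    ext τ'
    by_cases h : τ' = τ <;> simp [mN_apply, sgl_apply, h, L_apply]
    ring
  | zero => simp
  | add _ _ _ _ ha hb => intro r; simpa [mul_add] using add_mem (ha r) (hb r)
  | smul a _ _ ha => intro r; simpa [mul_assoc] using ha (r * a)

section
variable {t : K} {φ : (Fin n → K) →ₗ[K] Fin n → K} (hφ : Function.Injective φ)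
  (hφb : ∀ i, φ (b i) = t • b i)
include hφb

omit [LinearOrder κ] in
lemma sF_fP (τ : Finset κ) : sF φ hφ (pol (fP b τ)) = t ^ #τ • pol (fP b τ) := by
  simp only [fP, map_prod, ← L_apply, sF_L, hφb, map_smul]
  simp only [Algebra.smul_def, prod_mul_distrib, prod_const, map_pow]

/-- The grading operator. -/
def sN (h0 : t ≠ 0) : NN b →ₗ[K] NN b :=
  ((sF φ hφ).toLinearMap.compLeft _).restrict fun x hx => mem_Tot.2 fun τ => by
    obtain ⟨k, p, -, e⟩ := mem_Tot.1 hx τ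
    refine ⟨k, ((t ^ #τ) ^ k)⁻¹ • sb φ p, trivial, ?_⟩
    rw [map_smul, ← sF_pol hφ, ← e, map_mul, map_pow, sF_fP hφ hφb, _root_.smul_pow,
      smul_mul_assoc, inv_smul_smul₀ (by simp [h0])]
    rfl

omit [LinearOrder κ] in
lemma sN_apply (h0 : t ≠ 0) (x : NN b) (τ : Finset κ) :
    (sN hφ hφb h0 x).1 τ = sF φ hφ (x.1 τ) := rfl

end

variable {E : Type} {h : E → Fin n → K} {S : Finset E} {t : K} {V0 : Submodule K (Fin n → K)}
  {φ : (Fin n → K) →ₗ[K] Fin n → K}

omit [LinearOrder κ] in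
lemma mem_Gr_V (hc : IsCompl (Submodule.span K (h '' S)) V0)
    (s1 : ∀ v ∈ Submodule.span K (h '' S), φ v = t • v) (s0 : ∀ v ∈ V0, φ v = v) (v : Fin n → K) :
    v ∈ Gr φ t := by
  obtain ⟨a, ha, c, hc, rfl⟩ := Submodule.mem_sup.1 (hc.sup_eq_top.ge (Submodule.mem_top (x := v)))
  exact add_mem (Eig_le_Gr 1 (mem_Eig.2 (by simp [s1 a ha])))
    (Eig_le_Gr 0 (mem_Eig.2 (by simp [s0 c hc])))

theorem hyp_NN [Fintype κ] (ht : Function.Injective fun m : ℤ => t ^ m) (hφ : Function.Injective φ)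
    (hc : IsCompl (Submodule.span K (h '' S)) V0)
    (s1 : ∀ v ∈ Submodule.span K (h '' S), φ v = t • v) (s0 : ∀ v ∈ V0, φ v = v)
    (hb : ∀ i, b i ≠ 0) (hb1 : ∀ i, b i ∈ Submodule.span K (h '' S)) (hb2 : ∀ e ∈ S, ∃ i, b i = h e) :
    Hyp h (mN b) S t V0 φ (sN hφ (fun i => s1 _ (hb1 i)) (ne_zero_of_inj ht)) (dN b) where
  ht := ht
  hm v w x := by ext τ; simp only [mN_apply]; ring
  hN Y v hv x hx := (mem_YN_iff hb).2 fun τ => by
    obtain ⟨k, q, hq, e⟩ := (mem_YN_iff hb).1 hx τ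
    obtain ⟨k', p, -, e'⟩ := mem_Tot.1 x.2 τ
    refine ⟨k + k', fP b τ ^ k * p, mem_IY_of_mul hv ?_, by rw [map_mul, ← e', map_pow]; ring⟩
    convert Ideal.mul_mem_left _ (fP b τ ^ k') hq using 1
    apply pol_injective
    simp only [map_mul, map_pow, ← e, ← e', mN_apply, L_apply]; ring
  compl := hc
  s1 := s1
  s0 := s0
  σm v x := by ext τ; simp [mN_apply, sN_apply, sF_L]
  δm v x := Subtype.ext (cech_comp (LinearMap.mulLeft K (L v)) x.1)
  δσ x := Subtype.ext (cech_comp (sF φ hφ).toLinearMap x.1).symm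
  δδ x := Subtype.ext (cech_cech x.1)
  gr x := by
    have h0 := ne_zero_of_inj ht
    have hR : ∀ p, p ∈ Gr (sb φ).toLinearMap t := fun p => by
      induction p using MvPolynomial.induction_on with
      | C c => exact Eig_le_Gr 0 (mem_Eig.2 (by simp [sb]))
      | add a b ha hb => exact add_mem ha hb
      | mul_X a i ha =>
        rw [mul_comm, ← lin_single]
        exact Gr_bilin (T' := (sb φ).toLinearMap) h0 (LinearMap.mul K _ ∘ₗ lin) (fun u x => by simp [sb_lin])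
          (mem_Gr_V hc s1 s0 _) ha
    obtain ⟨k, p, -, rfl⟩ := exists_sgl hb (mem_Tot.1 x.2)
    refine sum_mem fun τ _ => Gr_map h0 (sgl hb τ (k τ)) (-(#τ * k τ : ℕ)) (fun r => ?_) (hR _)
    ext τ'
    by_cases h' : τ' = τ
    · simp [sN_apply, sgl_apply, h', sF_fP hφ fun i => s1 _ (hb1 i), sF_pol, _root_.smul_pow,
        smul_inv₀, zpow_mul]
    · simp [sN_apply, sgl_apply, h']
  tor Y e he x hx := by
    obtain ⟨i, hi⟩ := hb2 e he
    have ex : ∀ (I : Ideal (MvPolynomial (Fin n) K)) (y : Finset κ → FF K n),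
        (∀ τ, y τ ∈ Loc b I τ) →
        ∃ k₀ : ℕ, ∀ k, k₀ ≤ k → ∀ τ, L (b i) ^ k * cone (K := K) i y τ ∈ Loc b I τ := by
      intro I y hy
      have : ∀ τ, ∃ k₀ : ℕ, ∀ k, k₀ ≤ k → L (b i) ^ k * cone (K := K) i y τ ∈ Loc b I τ := by
        intro τ
        unfold cone
        split_ifs with h'
        · simp
        · exact Loc_insert h' (Submodule.smul_mem _ _ (hy _))
      choose k hk using this
      exact ⟨univ.sup k, fun j hj τ => hk τ j ((le_sup (mem_univ τ)).trans hj)⟩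
    obtain ⟨k1, h1⟩ := ex _ _ (mem_Tot.1 x.2)
    obtain ⟨k2, h2⟩ := ex _ _ ((mem_YN_iff hb).1 hx)
    refine ⟨k1 + k2, ⟨_, mem_Tot.2 (h1 (k1 + k2) (by omega))⟩, (mem_YN_iff hb).2 fun τ => ?_⟩
    convert h2 (k1 + k2) (by omega) τ using 1
    have e1 : ∀ (k : ℕ) (x : NN b), ((mN b (h e) ^ k) x).1 τ = L (b i) ^ k * x.1 τ := by
      intro k
      induction k with
      | zero => simp
      | succ k ih => intro x; rw [pow_succ, Module.End.mul_apply, ih, mN_apply, hi]; ring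
    rw [dN_apply, ← cech_cone, Submodule.coe_sub, Pi.sub_apply, e1, dN_apply, Pi.sub_apply, mul_sub]
    exact congrArg _ (congrFun (cech_comp (LinearMap.mulLeft K (L (b i) ^ (k1 + k2))) _) τ)
  z0 x := by
    obtain ⟨k, p, -, e⟩ := mem_Tot.1 x.2 ∅
    let π := V0.projection _ hc.symm
    refine ⟨sgl hb ∅ 0 (sb π p), ?_, (mem_YN_iff hb).2 fun τ => ?_⟩
    · have : φ ∘ₗ π = π := LinearMap.ext fun v => s0 _ (Submodule.projection_apply_mem _ _)
      ext τ
      by_cases h' : τ = ∅ <;> simp [sN_apply, sgl_apply, h', sF_pol, sb_sb, this]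
    · rcases τ.eq_empty_or_nonempty with rfl | ⟨i, hi⟩
      · convert pol_mem_Loc (sub_sb_mem (π := π) (Submodule.sub_projection_mem hc.symm) p) using 1
        simpa [sgl_apply, fP] using e
      · obtain ⟨k, p, -, e⟩ := mem_Tot.1 x.2 τ
        refine ⟨k + 1, fP b τ * p, Ideal.mul_mem_right _ _ ?_, ?_⟩
        · rw [fP, ← mul_prod_erase _ _ hi]
          exact Ideal.mul_mem_right _ _ (lin_mem_IY (hb1 i))
        · simp [sgl_apply, ne_empty_of_mem hi, ← e, pow_succ']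
          ring

end

end Pool.Agent.MP_8e2770_co.H72
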