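import Pool.Agent.MP_8e2770_co.H72.LL

/-!
A presentation of the module of logarithmic forms, and its deletion-restriction sequence.
-/

namespace Pool.Agent.MP_8e2770_co.H72

open Finset

noncomputable section

variable {K V E N : Type} [Field K] [AddCommGroup V] [Module K V] [Fintype E] [DecidableEq E]
  [AddCommGroup N] [Module K N]

/-- The generator `d v`. -/
def dU : V →ₗ[K] V × (E → K) := LinearMap.inl K _ _

/-- The generator `e f`. -/
def eU (f : E) : V × (E → K) := (0, Pi.single f 1)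

/-- The sum of the coordinates in `Q`. -/
def ph (Q : Finset E) : V × (E → K) →ₗ[K] K :=
  (∑ f ∈ Q, LinearMap.proj f) ∘ₗ LinearMap.snd K _ _

/-- Killing the coordinates in `Q`. -/
def kl (Q : Finset E) : V × (E → K) →ₗ[K] V × (E → K) :=
  LinearMap.prodMap LinearMap.id (LinearMap.pi fun f => if f ∈ Q then 0 else LinearMap.proj f)

omit [Fintype E] [DecidableEq E] in
@[simp] lemma ph_dU (Q : Finset E) (v : V) : ph Q (dU v : V × (E → K)) = 0 := by simp [ph, dU]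

omit [Fintype E] in
@[simp] lemma ph_eU (Q : Finset E) (f : E) :
    ph Q (eU f : V × (E → K)) = if f ∈ Q then 1 else 0 := by
  simp [ph, eU, Pi.single_apply]

omit [Fintype E] in
@[simp] lemma kl_dU (Q : Finset E) (v : V) : kl Q (dU v : V × (E → K)) = dU v := by
  simp [kl, dU]

omit [Fintype E] in
@[simp] lemma kl_eU (Q : Finset E) (f : E) :
    kl Q (eU f : V × (E → K)) = if f ∈ Q then 0 else eU f := by
  ext g
  · split_ifs <;> simp [kl, eU]
  · by_cases h : f ∈ Q <;> by_cases h' : g ∈ Q <;> simp [kl, eU, Pi.single_apply, h, h']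
    · rintro rfl; exact h' h
    · rintro rfl; exact h h'

/-- The generators allowed by `P`. -/
def GP (P : Finset E) : Set (V × (E → K)) := Set.range dU ∪ eU '' P

variable (N) in
/-- Forms in the generators allowed by `P`. -/
def XX (P : Finset E) : Submodule K (LL K (V × (E → K)) N) := Cl (GP P) (Set.range inn)

/-- Multiplication by a product of generators. -/
def eL (C : List E) (x : LL K (V × (E → K)) N) : LL K (V × (E → K)) N :=
  C.foldr (fun c y => mu (eU c) y) x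

variable (h : E → V) (m : V →ₗ[K] N →ₗ[K] N)

/-- Linear dependence modulo `Y`. -/
def Dep (Y : Submodule K V) (C : List E) : Prop :=
  ∃ l : E → K, (∃ f, l f ≠ 0) ∧ (∀ f, l f ≠ 0 → f ∈ C) ∧ ∑ f, l f • h f ∈ Y

/-- The basic relations. -/
inductive Bas (P : Finset E) (Y : Submodule K V) : LL K (V × (E → K)) N → Prop
  | r1 (y : V) (hy : y ∈ Y) (n : N) : Bas P Y (inn (m y n))
  | r2 (y : V) (hy : y ∈ Y) (n : N) : Bas P Y (mu (dU y) (inn n))
  | r3 (f : E) (hf : f ∈ P) (n : N) :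
      Bas P Y (mu (eU f) (inn (m (h f) n)) - mu (dU (h f)) (inn n))
  | r4 (C : List E) (hC : ∀ c ∈ C, c ∈ P) (hd : Dep h Y C) (n : N) :
      Bas P Y (ct (ph univ) (eL C (inn n)))

/-- The relations. -/
def JJ (P : Finset E) (Y : Submodule K V) : Submodule K (LL K (V × (E → K)) N) :=
  Cl (GP P) {x | Bas h m P Y x}

variable {h m} {P Q : Finset E} {Y Y' : Submodule K V} {e f : E} {x : LL K (V × (E → K)) N}

omit [Fintype E] in
lemma dU_mem (v : V) : (dU v : V × (E → K)) ∈ GP P := Or.inl ⟨v, rfl⟩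

omit [Fintype E] in
lemma eU_mem (hf : f ∈ P) : (eU f : V × (E → K)) ∈ GP P := Or.inr ⟨f, hf, rfl⟩

omit [Fintype E] in
lemma GP_mono (hPQ : P ⊆ Q) : (GP P : Set (V × (E → K))) ⊆ GP Q :=
  Set.union_subset_union_right _ (Set.image_mono hPQ)

omit [Fintype E] in
lemma inn_mem (n : N) : inn n ∈ XX (K := K) (V := V) N P := mem_Cl ⟨n, rfl⟩

omit [Fintype E] in
lemma mu_XX {g : V × (E → K)} (hg : g ∈ GP P) (hx : x ∈ XX N P) : mu g x ∈ XX N P :=
  mu_mem_Cl hg hx

lemma mu_JJ {g : V × (E → K)} (hg : g ∈ GP P) (hx : x ∈ JJ h m P Y) : mu g x ∈ JJ h m P Y :=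
  mu_mem_Cl hg hx

lemma Bas.mem (hx : Bas h m P Y x) : x ∈ JJ h m P Y := mem_Cl hx

omit [Fintype E] in
lemma XX_mono (hPQ : P ⊆ Q) : XX (K := K) (V := V) N P ≤ XX N Q :=
  Cl_mono (GP_mono hPQ) fun _ => mem_Cl

omit [Fintype E] in
lemma XX_map {M : Type} [AddCommGroup M] [Module K M] (F : LL K (V × (E → K)) N →ₗ[K] M)
    {Z : Submodule K M} (bas : ∀ n, F (inn n) ∈ Z)
    (mul : ∀ g ∈ GP P, ∀ a ∈ XX N P, F a ∈ Z → F (mu g a) ∈ Z) (hx : x ∈ XX N P) : F x ∈ Z :=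
  Cl_map F (by rintro _ ⟨n, rfl⟩; exact bas n) mul hx

omit [Fintype E] in
lemma rT_mem_XX (A : N →ₗ[K] N) (hx : x ∈ XX N P) : rT A x ∈ XX N P :=
  XX_map (rT A) (fun n => inn_mem _) (fun g hg a _ ha => by simpa using mu_XX hg ha) hx

omit [Fintype E] in
lemma ct_mem_XX (φ : V × (E → K) →ₗ[K] K) (hx : x ∈ XX N P) : ct φ x ∈ XX N P :=
  XX_map (ct φ) (fun n => by simp) (fun g hg a ha ha' => by
    simpa using sub_mem (Submodule.smul_mem _ _ ha) (mu_mem_Cl hg ha')) hx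

omit [Fintype E] in
@[simp] lemma eL_nil : eL [] x = x := rfl

omit [Fintype E] in
@[simp] lemma eL_cons (c : E) (C : List E) : eL (c :: C) x = mu (eU c) (eL C x) := rfl

omit [Fintype E] in
lemma eL_mem {C : List E} (hC : ∀ c ∈ C, c ∈ P) (n : N) :
    eL C (inn n) ∈ XX (K := K) (V := V) N P := by
  induction C with
  | nil => exact inn_mem n
  | cons c C ih => exact mu_mem_Cl (eU_mem (hC c (by simp))) (ih fun c hc => hC c (by simp [hc]))

omit [Fintype E] in
lemma rT_eL {N' : Type} [AddCommGroup N'] [Module K N'] (A : N →ₗ[K] N') (C : List E) :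
    rT A (eL C x) = eL C (rT A x) := by
  induction C <;> simp [*]

omit [Fintype E] in
lemma mu_eL {C : List E} (hf : f ∈ C) : mu (eU f) (eL C x) = 0 := by
  induction C with
  | nil => simp at hf
  | cons c C ih =>
    rcases List.mem_cons.1 hf with rfl | hf
    · exact mu_mu _ _
    · rw [eL_cons, mu_swap, ih hf, map_zero, neg_zero]

lemma mu_ct_eL {C : List E} (hf : f ∈ C) : mu (eU f) (ct (ph univ) (eL C x)) = eL C x := by
  have := ct_mu (ph univ) (eU f) (eL C x)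
  rw [mu_eL hf, map_zero] at this
  rw [eq_comm, sub_eq_zero] at this
  simpa using this.symm

omit [Fintype E] in
lemma eL_perm {C C' : List E} (hC : C.Perm C') : eL C x = eL C' x ∨ eL C x = -eL C' x := by
  induction hC with
  | nil => simp
  | cons c _ ih => rcases ih with ih | ih <;> simp [ih]
  | swap a b C => exact Or.inr (mu_swap _ _ _)
  | trans _ _ h1 h2 => rcases h1 with h1 | h1 <;> rcases h2 with h2 | h2 <;> simp [h1, h2]

omit [DecidableEq E] in
lemma Dep.mono {C C' : List E} (hd : Dep h Y C) (hY : Y ≤ Y') (hC : ∀ c ∈ C, c ∈ C') :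
    Dep h Y' C' :=
  let ⟨l, h1, h2, h3⟩ := hd
  ⟨l, h1, fun f hf => hC f (h2 f hf), hY h3⟩

lemma Dep.tail {C : List E} (hd : Dep h Y (f :: C)) (hY : Y ≤ Y') (h0 : h f ∉ Y) (h1 : h f ∈ Y') :
    Dep h Y' C := by
  obtain ⟨l, ⟨g, hg⟩, h2, h3⟩ := hd
  have e1 : ∑ c, Function.update l f 0 c • h c = ∑ c, l c • h c - l f • h f := by
    rw [eq_sub_iff_add_eq, ← sum_erase_add _ _ (mem_univ f), ← sum_erase_add _ _ (mem_univ f)]
    simp [sum_congr rfl fun c (hc : c ∈ univ.erase f) =>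
      congrArg (· • h c) (Function.update_of_ne (ne_of_mem_erase hc) 0 l)]
  refine ⟨Function.update l f 0, ?_, fun c hc => ?_, e1 ▸ sub_mem (hY h3) (Y'.smul_mem _ h1)⟩
  · by_contra hc
    push Not at hc
    simp only [hc, zero_smul, sum_const_zero] at e1
    rw [sub_eq_zero.1 e1.symm] at h3
    obtain rfl : g = f := by_contra fun hgf => hg (by simpa [hgf] using hc g)
    exact h0 ((Y.smul_mem_iff hg).1 h3)
  · have hcf : c ≠ f := by rintro rfl; simp at hc
    simpa [hcf] using h2 c (by simpa [hcf] using hc)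

lemma Dep.cons {C : List E} (hd : Dep h (Y ⊔ K ∙ h e) C) (he : e ∉ C) : Dep h Y (e :: C) := by
  obtain ⟨l, ⟨g, hg⟩, h2, h3⟩ := hd
  obtain ⟨y, hy, z, hz, e1⟩ := Submodule.mem_sup.1 h3
  obtain ⟨c, rfl⟩ := Submodule.mem_span_singleton.1 hz
  refine ⟨l - Pi.single e c, ⟨g, ?_⟩, fun f hf => ?_, ?_⟩
  · have : g ≠ e := fun h' => he (h' ▸ h2 g hg)
    simpa [this] using hg
  · by_cases hfe : f = e
    · simp [hfe]
    · exact List.mem_cons_of_mem _ (h2 f (by simpa [hfe] using hf))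
  · simpa [sub_smul, ← e1, Pi.single_apply, ite_smul] using hy

lemma JJ_le_XX : JJ h m P Y ≤ XX N P := Cl_mono subset_rfl fun _ hx => by
  cases hx with
  | r1 y _ n => exact inn_mem _
  | r2 y _ n => exact mu_mem_Cl (dU_mem _) (inn_mem _)
  | r3 f hf n =>
    exact sub_mem (mu_mem_Cl (eU_mem hf) (inn_mem _)) (mu_mem_Cl (dU_mem _) (inn_mem _))
  | r4 C hC _ n => exact ct_mem_XX _ (eL_mem hC n)

lemma JJ_mono (hPQ : P ⊆ Q) (hY : Y ≤ Y') : JJ h m P Y ≤ JJ h m Q Y' :=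
  Cl_mono (GP_mono hPQ) fun _ hx => mem_Cl (by
    cases hx with
    | r1 y hy n => exact .r1 y (hY hy) n
    | r2 y hy n => exact .r2 y (hY hy) n
    | r3 f hf n => exact .r3 f (hPQ hf) n
    | r4 C hC hd n => exact .r4 C (fun c hc => hPQ (hC c hc)) (hd.mono hY fun _ => id) n)

lemma rT_mem_JJ {A : N →ₗ[K] N} (hA : ∀ v n, A (m v n) = m v (A n)) (hx : x ∈ JJ h m P Y) :
    rT A x ∈ JJ h m P Y :=
  Cl_map (rT A) (fun _ hx => mem_Cl (by
    cases hx with
    | r1 y hy n => simpa [hA] using Bas.r1 y hy _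
    | r2 y hy n => simpa using Bas.r2 y hy _
    | r3 f hf n => simpa [hA] using Bas.r3 f hf _
    | r4 C hC hd n => simpa [rT_eL] using Bas.r4 C hC hd _))
    (fun g hg a _ ha => by simpa using mu_mem_Cl hg ha) hx

lemma J1 {y : V} (hy : y ∈ Y) (hx : x ∈ XX N P) : rT (m y) x ∈ JJ h m P Y :=
  XX_map (rT (m y)) (fun n => mem_Cl (Bas.r1 y hy n))
    (fun g hg a _ ha => by simpa using mu_JJ hg ha) hx

lemma J2 {y : V} (hy : y ∈ Y) (hx : x ∈ XX N P) : mu (dU y) x ∈ JJ h m P Y :=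
  XX_map (mu (dU y)) (fun n => mem_Cl (Bas.r2 y hy n))
    (fun g hg a _ ha => by rw [mu_swap]; exact neg_mem (mu_mem_Cl hg ha)) hx

lemma J3 (hf : f ∈ P) (hx : x ∈ XX N P) :
    mu (eU f) (rT (m (h f)) x) - mu (dU (h f)) x ∈ JJ h m P Y :=
  XX_map (mu (eU f) ∘ₗ rT (m (h f)) - mu (dU (h f))) (fun n => mem_Cl (Bas.r3 f hf n))
    (fun g hg a _ ha => by
      convert neg_mem (mu_mem_Cl hg ha) using 1
      simp only [LinearMap.sub_apply, LinearMap.comp_apply, rT_mu, map_sub, mu_swap g]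
      abel) hx

lemma J4 (he : e ∈ P) (hf : f ∈ P) (hd : Dep h Y [e, f]) (hx : x ∈ XX N P) :
    mu (eU f) x - mu (eU e) x ∈ JJ h m P Y :=
  XX_map (mu (eU f) - mu (eU e))
    (fun n => mem_Cl (by simpa using Bas.r4 (m := m) [e, f] (by simp [he, hf]) hd n))
    (fun g hg a _ ha => by
      convert neg_mem (mu_mem_Cl hg ha) using 1
      simp only [LinearMap.sub_apply, map_sub, mu_swap g]
      abel) hx

lemma J5 {C : List E} (hC : ∀ c ∈ C, c ∈ P) (hd : Dep h Y C) (n : N) :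
    eL C (inn n) ∈ JJ h m P Y := by
  obtain ⟨l, ⟨f, hf⟩, h2, h3⟩ := id hd
  rw [← mu_ct_eL (h2 f hf)]
  exact mu_mem_Cl (eU_mem (hC f (h2 f hf))) (mem_Cl (Bas.r4 C hC hd n))

lemma r4_cases (Q : Finset E) {M : Type} [AddCommGroup M] [Module K M]
    (F : LL K (V × (E → K)) N →ₗ[K] M) {Z : Submodule K M} (n : N)
    (h0 : ∀ C : List E, (∀ c ∈ C, c ∈ P \ Q) → Dep h Y C → F (ct (ph univ) (eL C (inn n))) ∈ Z)
    (h1 : ∀ f ∈ Q, ∀ C : List E, (∀ c ∈ C, c ∈ P \ Q) → Dep h Y (f :: C) →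
      F (eL C (inn n) - mu (eU f) (ct (ph univ) (eL C (inn n)))) ∈ Z)
    (h2 : ∀ f ∈ Q, ∀ f' ∈ Q, ∀ z,
      F (mu (eU f') z - mu (eU f) (z - mu (eU f') (ct (ph univ) z))) ∈ Z)
    (C : List E) (hC : ∀ c ∈ C, c ∈ P) (hd : Dep h Y C) : F (ct (ph univ) (eL C (inn n))) ∈ Z := by
  have perm : ∀ C' : List E, C.Perm C' → F (ct (ph univ) (eL C' (inn n))) ∈ Z →
      F (ct (ph univ) (eL C (inn n))) ∈ Z := fun C' hp hZ => by
    rcases eL_perm (x := (inn n : LL K (V × (E → K)) N)) hp with h | h <;> simpa [h] using hZ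
  by_cases c0 : ∀ c ∈ C, c ∉ Q
  · exact h0 C (fun c hc => mem_sdiff.2 ⟨hC c hc, c0 c hc⟩) hd
  push Not at c0
  obtain ⟨f, hf, hfQ⟩ := c0
  have p1 := List.perm_cons_erase hf
  by_cases c1 : ∀ c ∈ C.erase f, c ∉ Q
  · refine perm _ p1 ?_
    simpa using h1 f hfQ _ (fun c hc => mem_sdiff.2 ⟨hC c (List.mem_of_mem_erase hc), c1 c hc⟩)
      (hd.mono le_rfl fun c hc => p1.mem_iff.1 hc)
  push Not at c1
  obtain ⟨f', hf', hfQ'⟩ := c1
  refine perm _ (p1.trans ((List.perm_cons_erase hf').cons f)) ?_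
  simpa using h2 f hfQ f' hfQ' _

end

end Pool.Agent.MP_8e2770_co.H72
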