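import Pool.Agent.MP_8e2770_co.H72.Forms

/-!
Basic properties of the modules of logarithmic forms.
-/

namespace Pool.Agent.MP_8e2770_co.H72

open MvPolynomial Finset

noncomputable section

variable {K : Type} [Field K] {n : ℕ}

/-- The algebra map of forms induced by maps of functions and of differentials. -/
def omAlg (A : FF K n →ₐ[K] FF K n) (φ : (Fin n → K) →ₗ[K] Fin n → K) : Om K n →ₐ[K] Om K n :=
  Algebra.TensorProduct.map A (ExteriorAlgebra.map φ)

lemma omAlg_smul_cst (A : FF K n →ₐ[K] FF K n) (φ : (Fin n → K) →ₗ[K] Fin n → K) (f : FF K n)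
    (w : Lam K n) : omAlg A φ (f • cst w) = A f • cst (ExteriorAlgebra.map φ w) := by
  rw [← toOm_tmul, ← toOm_tmul]; rfl

lemma omAlg_smul (A : FF K n →ₐ[K] FF K n) (φ : (Fin n → K) →ₗ[K] Fin n → K) (f : FF K n)
    (η : Om K n) : omAlg A φ (f • η) = A f • omAlg A φ η := by
  induction η using om_induction with
  | add a b ha hb => simp [ha, hb]
  | smul g w => rw [smul_smul, omAlg_smul_cst, omAlg_smul_cst, map_mul, mul_smul]

lemma omAlg_dv (A : FF K n →ₐ[K] FF K n) (φ : (Fin n → K) →ₗ[K] Fin n → K) (v : Fin n → K) :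
    omAlg A φ (dv v) = dv (φ v) := by
  simpa [dv_apply] using omAlg_smul_cst A φ 1 (ExteriorAlgebra.ι K v)

variable {E : Type} [Fintype E] [DecidableEq E] {h : E → Fin n → K} {P P' : Finset E}
  {U U' : Set (E → ℤ)} {u : E → ℤ} {g x : Om K n}

omit [DecidableEq E] in
lemma mono_ne_zero (hh : ∀ e, h e ≠ 0) (u : E → ℤ) : mono h u ≠ 0 :=
  prod_ne_zero_iff.2 fun e _ => zpow_ne_zero _ (L_ne_zero (hh e))

omit [DecidableEq E] in
lemma mono_add (hh : ∀ e, h e ≠ 0) (u u' : E → ℤ) : mono h (u + u') = mono h u * mono h u' := by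
  simp [mono, zpow_add₀ (L_ne_zero (hh _)), prod_mul_distrib]

omit [DecidableEq E] in
lemma mono_zero : mono h 0 = 1 := by simp [mono]

lemma mono_single (e : E) (c : ℤ) : mono h (Pi.single e c) = L (h e) ^ c := by
  rw [mono, prod_eq_single e] <;> simp +contextual

omit [Fintype E] [DecidableEq E] in
lemma L_smul_om (hh : ∀ e, h e ≠ 0) (e : E) : L (h e) • om h e = dv (h e) := by
  rw [om, smul_inv_smul₀ (L_ne_zero (hh e))]

omit [Fintype E] [DecidableEq E] in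
lemma pol_smul_mem_Gs (p : MvPolynomial (Fin n) K) (hg : g ∈ Gs h P) : pol p • g ∈ Gs h P := by
  rw [← one_mul g, ← smul_mul_assoc]
  exact mul_mem (Algebra.subset_adjoin (Or.inl (Or.inl ⟨p, rfl⟩))) hg

omit [Fintype E] [DecidableEq E] in
lemma dv_mem_Gs (v : Fin n → K) : dv v ∈ Gs h P := Algebra.subset_adjoin (Or.inl (Or.inr ⟨v, rfl⟩))

omit [Fintype E] [DecidableEq E] in
lemma om_mem_Gs {e : E} (he : e ∈ P) : om h e ∈ Gs h P := Algebra.subset_adjoin (Or.inr ⟨e, he, rfl⟩)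

omit [Fintype E] [DecidableEq E] in
lemma Gs_mono (hP : P ⊆ P') : Gs h P ≤ Gs h P' :=
  Algebra.adjoin_mono (Set.union_subset_union_right _ (Set.image_mono hP))

omit [Fintype E] [DecidableEq E] in
lemma Gs_mul_mem {W : Submodule K (Om K n)} (h1 : ∀ v : Fin n → K, ∀ x ∈ W, L v • x ∈ W)
    (h2 : ∀ v, ∀ x ∈ W, dv v * x ∈ W) (h3 : ∀ e ∈ P, ∀ x ∈ W, om h e * x ∈ W) (hg : g ∈ Gs h P) :
    ∀ x ∈ W, g * x ∈ W := by
  induction hg using Algebra.adjoin_induction with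
  | mem g hg =>
    rcases hg with (⟨p, rfl⟩ | ⟨v, rfl⟩) | ⟨e, he, rfl⟩
    · simp only [smul_mul_assoc, one_mul]
      induction p using MvPolynomial.induction_on with
      | C c =>
        intro x hx
        rw [← MvPolynomial.algebraMap_eq, AlgHom.commutes, algebraMap_smul]
        exact W.smul_mem c hx
      | add a b ha hb => intro x hx; simpa [add_smul] using add_mem (ha x hx) (hb x hx)
      | mul_X a i ha =>
        intro x hx
        rw [map_mul, mul_smul, ← lin_single]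
        exact ha _ (h1 _ x hx)
    · exact h2 v
    · exact h3 e he
  | algebraMap c => intro x hx; rw [← Algebra.smul_def]; exact W.smul_mem c hx
  | add a b _ _ ha hb => intro x hx; rw [add_mul]; exact add_mem (ha x hx) (hb x hx)
  | mul a b _ _ ha hb => intro x hx; rw [mul_assoc]; exact ha _ (hb x hx)

omit [DecidableEq E] in
lemma mem_Sp (hu : u ∈ U) (hg : g ∈ Gs h P) : mono h u • g ∈ Sp h U P :=
  Submodule.subset_span ⟨u, hu, g, hg, rfl⟩

omit [DecidableEq E] in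
lemma Sp_le {W : Submodule K (Om K n)} (hW : ∀ u ∈ U, ∀ g ∈ Gs h P, mono h u • g ∈ W) :
    Sp h U P ≤ W := Submodule.span_le.2 (by rintro _ ⟨u, hu, g, hg, rfl⟩; exact hW u hu g hg)

omit [DecidableEq E] in
lemma Sp_map {M : Type} [AddCommGroup M] [Module K M] (F : Om K n →ₗ[K] M) {W : Submodule K M}
    (hW : ∀ u ∈ U, ∀ g ∈ Gs h P, F (mono h u • g) ∈ W) (hx : x ∈ Sp h U P) : F x ∈ W :=
  Sp_le (W := W.comap F) hW hx

omit [DecidableEq E] in
lemma Sp_mono (hU : U ⊆ U') (hP : P ⊆ P') : Sp h U P ≤ Sp h U' P' :=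
  Sp_le fun _ hu _ hg => mem_Sp (hU hu) (Gs_mono hP hg)

omit [DecidableEq E] in
lemma mul_mem_Sp (hg : g ∈ Gs h P) (hx : x ∈ Sp h U P) : g * x ∈ Sp h U P :=
  Sp_map (LinearMap.mulLeft K g) (fun u hu g' hg' => by
    simpa using mem_Sp hu (mul_mem hg hg')) hx

/-- Multiplication by a function. -/
def sm (f : FF K n) : Om K n →ₗ[K] Om K n := Algebra.lsmul K K (Om K n) f

@[simp] lemma sm_apply (f : FF K n) (x : Om K n) : sm f x = f • x := rfl

omit [DecidableEq E] in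
lemma mono_smul_Sp (hh : ∀ e, h e ≠ 0) (u' : E → ℤ) (hU : ∀ u ∈ U, u' + u ∈ U')
    (hx : x ∈ Sp h U P) : mono h u' • x ∈ Sp h U' P :=
  Sp_map (sm (mono h u')) (fun u hu g hg => by
    simpa [mono_add hh, mul_smul] using mem_Sp (hU u hu) hg) hx

omit [Fintype E] [DecidableEq E] in
lemma d_om_mul (e : E) (η : Om K n) : d (om h e * η) = -(om h e * d η) := by
  rw [om, smul_mul_assoc, d_smul, df_inv, df_L, d_dv_mul, smul_mul_assoc, ← mul_assoc, dv_mul_self]
  simp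

omit [Fintype E] [DecidableEq E] in
lemma d_mem_Gs (hg : g ∈ Gs h P) : d g ∈ Gs h P := by
  have := Gs_mul_mem (W := (Gs h P).toSubmodule ⊓ (Gs h P).toSubmodule.comap d)
    (fun v x hx => ⟨pol_smul_mem_Gs _ hx.1, ?_⟩) 
    (fun v x hx => ⟨(Gs h P).mul_mem (dv_mem_Gs v) hx.1, ?_⟩)
    (fun e he x hx => ⟨(Gs h P).mul_mem (om_mem_Gs he) hx.1, ?_⟩) hg 1
    ⟨one_mem (Gs h P), by simp [d_one]⟩
  · simpa using this.2
  · simpa [d_smul, df_L, ← L_apply] using
      add_mem (mul_mem (dv_mem_Gs v) hx.1) (pol_smul_mem_Gs (lin v) hx.2)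
  · simpa [d_dv_mul] using mul_mem (dv_mem_Gs v) hx.2
  · simpa [d_om_mul] using mul_mem (om_mem_Gs he) hx.2

lemma df_mono (hh : ∀ e, h e ≠ 0) (u : E → ℤ) :
    df (mono h u) = mono h u • ∑ e, (u e : K) • om h e := by
  unfold mono
  induction (univ : Finset E) using Finset.induction_on with
  | empty => simp [df_one]
  | insert e s he ih =>
    rw [prod_insert he, sum_insert he, df_mul, ih, df_zpow, df_L, smul_add, smul_smul, add_comm,
      smul_smul, om, zpow_sub_one₀ (L_ne_zero (hh e)), ← algebraMap_smul (FF K n) (u e : K),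
      smul_smul, smul_smul, map_intCast]
    congr 2; ring

lemma d_mem_Sp (hh : ∀ e, h e ≠ 0) (hx : x ∈ Sp h U univ) : d x ∈ Sp h U univ :=
  Sp_map d (fun u hu g hg => by
    rw [d_smul, df_mono hh, smul_mul_assoc, ← smul_add]
    exact mem_Sp hu (add_mem (mul_mem (sum_mem fun e _ =>
      Subalgebra.smul_mem _ (om_mem_Gs (mem_univ e)) _) hg) (d_mem_Gs hg))) hx

/-- Decomposition into homogeneous generators. -/
lemma Sp_dec (hh : ∀ e, h e ≠ 0) {V0 : Submodule K (Fin n → K)}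
    (hc : IsCompl (Submodule.span K (h '' P)) V0) (σ : Om K n →ₐ[K] Om K n)
    (σ1 : ∀ v ∈ V0, ∀ x, σ (L v • x) = L v • σ x) (σ2 : ∀ v ∈ V0, σ (dv v) = dv v)
    (σ3 : ∀ e ∈ P, σ (om h e) = om h e) (hU : ∀ u ∈ U, ∀ e ∈ P, Pi.single e 1 + u ∈ U)
    {W : Submodule K (Om K n)} (hW : ∀ u ∈ U, ∀ g ∈ Gs h P, σ g = g → mono h u • g ∈ W) :
    Sp h U P ≤ W := by
  let W0 : Submodule K (Om K n) :=
    Submodule.span K {η | ∃ u ∈ U, ∃ g ∈ Gs h P, σ g = g ∧ η = mono h u • g}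
  have m0 : ∀ u ∈ U, ∀ g ∈ Gs h P, σ g = g → mono h u • g ∈ W0 := fun u hu g hg e =>
    Submodule.subset_span ⟨u, hu, g, hg, e, rfl⟩
  have ind : ∀ F : Om K n →ₗ[K] Om K n, (∀ u ∈ U, ∀ g ∈ Gs h P, σ g = g → F (mono h u • g) ∈ W0) →
      ∀ x ∈ W0, F x ∈ W0 := fun F hF => (Submodule.span_le.2 (by
        rintro _ ⟨u, hu, g, hg, e, rfl⟩; exact hF u hu g hg e) : W0 ≤ W0.comap F)
  have a3 : ∀ e ∈ P, ∀ x ∈ W0, om h e * x ∈ W0 := fun e he =>
    ind (LinearMap.mulLeft K (om h e)) fun u hu g hg e1 => by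
      simpa using m0 u hu _ (mul_mem (om_mem_Gs he) hg) (by rw [map_mul, σ3 e he, e1])
  have a4 : ∀ e ∈ P, ∀ x ∈ W0, L (h e) • x ∈ W0 := fun e he =>
    ind (sm (L (h e))) fun u hu g hg e1 => by
      simpa [mono_add hh, mono_single, mul_smul] using m0 _ (hU u hu e he) g hg e1
  have lin' : ∀ B : (Fin n → K) →ₗ[K] Om K n, (∀ e ∈ P, B (h e) ∈ W0) → (∀ v ∈ V0, B v ∈ W0) →
      ∀ v, B v ∈ W0 := fun B h1 h2 v =>
    (sup_le (Submodule.span_le.2 (by rintro _ ⟨e, he, rfl⟩; exact h1 e he)) h2 :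
      Submodule.span K (h '' P) ⊔ V0 ≤ W0.comap B) (hc.sup_eq_top.ge (Submodule.mem_top (x := v)))
  refine le_trans (Sp_le fun u hu g hg => ?_) (Submodule.span_le.2 (by
    rintro _ ⟨u, hu, g, hg, e, rfl⟩; exact hW u hu g hg e) : W0 ≤ W)
  have := Gs_mul_mem (W := W0) (fun v x hx => ?_) (fun v x hx => ?_) a3 hg _
    (m0 u hu 1 (one_mem _) (map_one σ))
  · simpa using this
  · refine lin' ((LinearMap.toSpanSingleton (FF K n) _ x).restrictScalars K ∘ₗ L)
      (fun e he => a4 e he x hx) (fun v hv => ind (sm (L v)) (fun u hu g hg e1 => ?_) x hx) v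
    rw [sm_apply, smul_comm]
    exact m0 u hu _ (pol_smul_mem_Gs _ hg) (by rw [σ1 v hv, e1])
  · refine lin' (LinearMap.mulRight K x ∘ₗ dv) (fun e he => ?_)
      (fun v hv => ind (LinearMap.mulLeft K (dv v)) (fun u hu g hg e1 => ?_) x hx) v
    · simpa [← L_smul_om hh] using a4 e he _ (a3 e he x hx)
    · simpa using m0 u hu _ (mul_mem (dv_mem_Gs v) hg) (by rw [map_mul, σ2 v hv, e1])

end

end Pool.Agent.MP_8e2770_co.H72
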