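import Pool.Agent.MP_8e2770_co.H72.NCube
import Pool.Agent.MP_8e2770_co.H72.SpLem

/-!
Local cohomology of the module of logarithmic forms vanishes in nonnegative degrees.
-/

namespace Pool.Agent.MP_8e2770_co.H72

open MvPolynomial Finset TensorProduct

noncomputable section

variable {K : Type} [Field K] {n : ℕ} {E : Type} [Fintype E] [DecidableEq E]
  {h : E → Fin n → K} {κ : Type} {b : κ → Fin n → K}

lemma oneForm_sq {a : Om K n} (ha : a ∈ Submodule.span (FF K n) (Set.range dv)) : a * a = 0 := by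
  have anti : ∀ a ∈ Submodule.span (FF K n) (Set.range (dv (K := K) (n := n))),
      ∀ c ∈ Submodule.span (FF K n) (Set.range (dv (K := K) (n := n))), a * c + c * a = 0 := by
    intro a ha c hc
    induction ha, hc using Submodule.span_induction₂ with
    | mem_mem _ _ ha hc =>
      obtain ⟨v, rfl⟩ := ha
      obtain ⟨w, rfl⟩ := hc
      rw [dv_anticomm, neg_add_cancel]
    | zero_left => simp
    | zero_right => simp
    | add_left _ _ _ _ _ _ h1 h2 => rw [add_mul, mul_add, add_add_add_comm, h1, h2, add_zero]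
    | add_right _ _ _ _ _ _ h1 h2 => rw [add_mul, mul_add, add_add_add_comm, h1, h2, add_zero]
    | smul_left r _ _ _ _ h1 => rw [smul_mul_assoc, mul_smul_comm, ← smul_add, h1, smul_zero]
    | smul_right r _ _ _ _ h1 => rw [smul_mul_assoc, mul_smul_comm, ← smul_add, h1, smul_zero]
  induction ha using Submodule.span_induction with
  | mem _ ha => obtain ⟨v, rfl⟩ := ha; exact dv_mul_self v
  | zero => simp
  | add a c ha hc h1 h2 => rw [add_mul, mul_add, mul_add, h1, h2, zero_add, add_zero, anti a ha c hc]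
  | smul r a _ h1 => rw [smul_mul_assoc, mul_smul_comm, h1, smul_zero, smul_zero]

variable (h) in
/-- The values of the generators. -/
def evU : (Fin n → K) × (E → K) →ₗ[K] Om K n := dv.coprod (Fintype.linearCombination K (om h))

omit [DecidableEq E] in
@[simp] lemma evU_dU (v : Fin n → K) : evU h (dU v) = dv v := by simp [evU, dU]

@[simp] lemma evU_eU (e : E) : evU h (eU e) = om h e := by simp [evU, eU]

omit [DecidableEq E] in
lemma evU_sq (u : (Fin n → K) × (E → K)) : evU h u * evU h u = 0 :=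
  oneForm_sq (by
    rw [evU, LinearMap.coprod_apply, Fintype.linearCombination_apply]
    exact add_mem (Submodule.subset_span ⟨_, rfl⟩) (sum_mem fun e _ =>
      Submodule.smul_of_tower_mem _ _ (Submodule.smul_mem _ _ (Submodule.subset_span ⟨_, rfl⟩))))

variable (h) in
/-- Evaluation of the presented module in rational forms. -/
def ev : LL K ((Fin n → K) × (E → K)) (NN b) →ₗ[K] Finset κ → Om K n :=
  evl (evU h) evU_sq ((Algebra.linearMap (FF K n) (Om K n)).restrictScalars K |>.compLeft _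
    |>.comp (Submodule.subtype _))

variable {x : LL K ((Fin n → K) × (E → K)) (NN b)} {τ : Finset κ}

omit [DecidableEq E] in
@[simp] lemma ev_inn (a : NN b) (τ : Finset κ) : ev h (inn a) τ = a.1 τ • 1 := by
  simp [ev, Algebra.algebraMap_eq_smul_one]

omit [DecidableEq E] in
@[simp] lemma ev_mu (u : (Fin n → K) × (E → K)) (τ : Finset κ) :
    ev h (mu u x) τ = evU h u * ev h x τ := by
  simp [ev]

omit [DecidableEq E] in
lemma ev_mP (p : MvPolynomial (Fin n) K) (τ : Finset κ) :
    ev h (rT (mP b p) x) τ = pol p • ev h x τ := by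
  induction x using ll_induction <;> simp [*, mP_apply, mul_smul]

omit [DecidableEq E] in
lemma ev_mN (v : Fin n → K) (τ : Finset κ) : ev h (rT (mN b v) x) τ = L v • ev h x τ := ev_mP _ _

lemma ev_ct (hh : ∀ e, h e ≠ 0) (C : List E) (a : NN b) :
    ev h (ct (ph univ) (eL C (inn a))) τ = ctr L (ev h (eL C (inn a)) τ) := by
  induction C with
  | nil => simp [ctr_smul, ctr_one]
  | cons c C ih =>
    simp [ih, om, ctr_smul, ctr_dv_mul, smul_sub, L_ne_zero (hh c)]

lemma ev_eL (hh : ∀ e, h e ≠ 0) {C : List E} (hd : Dep (K := K) h ⊥ C) : ev h (eL C x) τ = 0 := by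
  obtain ⟨l, ⟨f, hf⟩, h2, h3⟩ := hd
  have e1 : ∀ c ∈ C, om h c * ev h (ct (ph {f}) (eL C x)) τ =
      if c = f then ev h (eL C x) τ else 0 := fun c hc => by
    have := ct_mu (ph {f}) (eU c) (eL C x)
    rw [mu_eL hc, map_zero, eq_comm, sub_eq_zero] at this
    rw [← evU_eU, ← ev_mu, ← this]
    split_ifs with h' <;> simp [h']
  have e2 : dv (∑ c, l c • h c) * ev h (ct (ph {f}) (eL C x)) τ =
      l f • L (h f) • ev h (eL C x) τ := by
    rw [map_sum, sum_mul, sum_eq_single f]
    · rw [map_smul, ← L_smul_om hh, smul_mul_assoc, smul_mul_assoc, e1 f (h2 f hf), if_pos rfl]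
    · intro c _ hc
      by_cases hl : l c = 0
      · simp [hl]
      · rw [map_smul, ← L_smul_om hh, smul_mul_assoc, smul_mul_assoc, e1 c (h2 c hl), if_neg hc,
          smul_zero, smul_zero]
    · simp
  rw [(Submodule.mem_bot K).1 h3, map_zero, zero_mul, eq_comm] at e2
  simpa [hf, L_ne_zero (hh f)] using e2

lemma ev_JJ (hh : ∀ e, h e ≠ 0) {P : Finset E} (hx : x ∈ JJ h (mN b) P ⊥) : ev h x = 0 :=
  Cl_map (ev h) (Z := ⊥) (fun x hx => funext fun τ => by
    cases hx with
    | r1 y hy a => simp [(Submodule.mem_bot K).1 hy]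
    | r2 y hy a => simp [(Submodule.mem_bot K).1 hy]
    | r3 f hf a => simp [mN_apply, mul_smul, ← L_smul_om hh f, smul_comm (a.1 τ)]
    | r4 C hC hd a => rw [ev_ct hh, ev_eL hh hd, map_zero, Pi.zero_apply])
    (fun g _ a _ ha => funext fun τ => by simp [(Submodule.mem_bot K).1 ha]) hx

/-- A left inverse of evaluation on forms without poles. -/
def unev : Om K n →ₗ[K] LL K ((Fin n → K) × (E → K)) (FF K n) :=
  TensorProduct.lift (tm ∘ₗ (ExteriorAlgebra.map dU).toLinearMap).flip ∘ₗ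
    toOm.symm.toLinearMap.restrictScalars K

omit [Fintype E] [DecidableEq E] in
lemma unev_smul_cst (f : FF K n) (w : Lam K n) :
    unev (E := E) (f • cst w) = tm (ExteriorAlgebra.map dU w) f := by
  rw [← toOm_tmul]; rfl

omit [Fintype E] [DecidableEq E] in
lemma unev_dv (v : Fin n → K) (η : Om K n) : unev (E := E) (dv v * η) = mu (dU v) (unev η) := by
  induction η using om_induction with
  | add a b ha hb => simp [mul_add, ha, hb]
  | smul f w => rw [mul_smul_comm, dv_apply, ← map_mul, unev_smul_cst, unev_smul_cst, mu_tm]; simp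

variable [LinearOrder κ] [Fintype κ]

lemma ev_inj_empty (hx : x ∈ XX (NN b) (∅ : Finset E)) (h0 : ev h x = 0) : x = 0 := by
  have e1 : ∀ τ, rT (LinearMap.proj τ ∘ₗ Submodule.subtype _) x = 0 := fun τ => by
    have := XX_map (rT (LinearMap.proj τ ∘ₗ Submodule.subtype _) -
      unev ∘ₗ LinearMap.proj τ ∘ₗ ev h) (Z := ⊥) (fun a => by
        have := unev_smul_cst (E := E) (a.1 τ) 1
        rw [map_one, map_one] at this
        simp [this]; exact sub_self _) (by
      rintro _ (⟨v, rfl⟩ | ⟨f, hf, rfl⟩) a _ ha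
      · simpa [unev_dv] using congrArg (mu (dU v)) ((Submodule.mem_bot K).1 ha)
      · simp at hf) hx
    simpa [h0] using this
  refine rT_injective (Submodule.injective_subtype _) ?_
  have e2 : Submodule.subtype (Tot (Loc b ⊤)) = ∑ τ, LinearMap.single K (fun _ => FF K n) τ ∘ₗ
      LinearMap.proj τ ∘ₗ Submodule.subtype _ := by
    ext a τ; simp [Pi.single_apply]
  rw [map_zero, e2, map_sum, LinearMap.sum_apply]
  exact sum_eq_zero fun τ _ => by rw [← rT_rT, e1, map_zero]

lemma ev_inj (hh : ∀ e, h e ≠ 0) (hm : ∀ v w a, mN b v (mN b w a) = mN b w (mN b v a))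
    (hN : ∀ Y : Submodule K (Fin n → K), ∀ v ∉ Y, ∀ a, mN b v a ∈ YN (mN b) Y → a ∈ YN (mN b) Y)
    (P : Finset E) (hx : x ∈ XX (NN b) P) (h0 : ev h x = 0) : x ∈ JJ h (mN b) P ⊥ := by
  induction P using Finset.induction_on generalizing x with
  | empty => rw [ev_inj_empty hx h0]; exact zero_mem _
  | insert e P he ih =>
    have C : Cls (K := K) h (insert e P) {e} ⊥ e :=
      ⟨by simp, by simp, fun f _ => by simpa using hh f, by simp⟩
    have e0 : insert e P \ {e} = P := by rw [insert_sdiff_of_mem _ (by simp)]; simpa using he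
    obtain ⟨α, hα, j, hj, e1⟩ := Submodule.mem_sup.1 (C.ker (m := mN b) hx)
    have hβ := rho_mem (Q := {e}) hx
    rw [e0] at hα hβ
    have h1 : rT (mN b (h e)) x - (rT (mN b (h e)) α + mu (dU (h e)) (rho {e} x)) ∈
        JJ h (mN b) (insert e P) ⊥ := by
      convert add_mem (rT_mem_JJ (hm (h e)) hj)
        (J3 (mem_insert_self e P) (XX_mono (subset_insert _ _) hβ)) using 1
      rw [eq_sub_of_add_eq' e1]
      simp only [map_sub, rT_mu]; abel
    refine tf hm hN _ _ C.nl (h e) (by simpa using hh e) x hx ?_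
    have h2 := ih (add_mem (rT_mem_XX (mN b (h e)) hα) (mu_XX (dU_mem (h e)) hβ)) (by
      have := ev_JJ hh h1
      rw [map_sub, sub_eq_zero] at this
      rw [← this]; ext τ; simp [ev_mN, h0])
    simpa using add_mem h1 (JJ_mono (subset_insert _ _) le_rfl h2)

omit [DecidableEq E] [Fintype κ] in
lemma ev_dN : ev h (rT (dN b) x) = cech (K := K) (ev h x) := by
  induction x using ll_induction with
  | inn a => ext τ; simp [dN_apply, cech_apply, sum_smul]
  | add a c ha hc => simp [ha, hc]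
  | mu u a ha => ext τ; simp [ha, cech_apply, mul_sum]

omit [Fintype E] [DecidableEq E] in
lemma om_fixed {t : K} (h0 : t ≠ 0) {φ : (Fin n → K) →ₗ[K] Fin n → K} (hφ : Function.Injective φ)
    {e : E} (he : φ (h e) = t • h e) : omAlg (sF φ hφ) φ (om h e) = om h e := by
  simp [om, omAlg_smul, omAlg_dv, sF_L, he, smul_inv₀, smul_comm _ t (dv (h e)), h0]

/-- Exponents supported in `S` and nonnegative outside the face `τ`. -/
def UL (S : Finset E) (j : κ → E) (τ : Finset κ) : Set (E → ℤ) :=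
  {u | (∀ e ∉ S, u e = 0) ∧ ∀ e, (∀ i ∈ τ, j i ≠ e) → 0 ≤ u e}

theorem reg_om (hh : ∀ e, h e ≠ 0) {S : Finset E} (hS : S.Nonempty) (j : κ → E)
    (hj : ∀ i, j i ∈ S) (hj' : ∀ e ∈ S, ∃ i, j i = e) {t : K}
    (ht : Function.Injective fun m : ℤ => t ^ m) {φ : (Fin n → K) →ₗ[K] Fin n → K}
    (hφ : Function.Injective φ) {V0 : Submodule K (Fin n → K)}
    (hc : IsCompl (Submodule.span K (h '' S)) V0)
    (s1 : ∀ v ∈ Submodule.span K (h '' S), φ v = t • v) (s0 : ∀ v ∈ V0, φ v = v) :
    Acyc cech (Tot fun τ => Sp h (UL S j τ) S ⊓ Ge (omAlg (sF φ hφ) φ).toLinearMap t 0) ⊥ := by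
  have h0 := ne_zero_of_inj ht
  have hb : ∀ i, h (j i) ≠ 0 := fun i => hh _
  have hb1 : ∀ i, h (j i) ∈ Submodule.span K (h '' S) := fun i =>
    Submodule.subset_span ⟨_, hj i, rfl⟩
  have H := hyp_NN (b := fun i => h (j i)) ht hφ hc s1 s0 hb hb1
    fun e he => (hj' e he).imp fun i hi => by rw [hi]
  set σ := sN (b := fun i => h (j i)) hφ (fun i => s1 _ (hb1 i)) (ne_zero_of_inj ht) with hσ
  obtain ⟨e₀, he₀⟩ := hS
  have R := H.reg S ⊥ subset_rfl bot_le he₀ fun f _ => by simpa using hh f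
  have evT : ∀ τ x, (omAlg (sF φ hφ) φ).toLinearMap ((LinearMap.proj τ ∘ₗ ev h ∘ₗ br (kl Sᶜ)) x) =
      (LinearMap.proj τ ∘ₗ ev h ∘ₗ br (kl Sᶜ)) (TT (sU φ) σ x) := fun τ x => by
    induction x using ll_induction with
    | inn a => simp [omAlg_smul, hσ, sN_apply]
    | add a c ha hc => simp only [map_add, ha, hc]
    | mu u a ha =>
      simp only [LinearMap.comp_apply, LinearMap.proj_apply, AlgHom.toLinearMap_apply] at ha ⊢
      rw [TT_mu, br_mu, br_mu, ev_mu, ev_mu, map_mul, ha]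
      congr 1
      simp only [evU, kl, sU, LinearMap.coprod_apply, LinearMap.prodMap_apply, map_add, omAlg_dv,
        Fintype.linearCombination_apply, map_sum, map_smul, LinearMap.id_apply, LinearMap.pi_apply]
      refine congrArg _ (sum_congr rfl fun e _ => ?_)
      by_cases he : e ∈ S
      · rw [om_fixed h0 hφ (s1 _ (Submodule.subset_span ⟨e, he, rfl⟩))]
      · simp [he]
  have evG : ∀ τ, ∀ x ∈ XX (NN fun i => h (j i)) S, (x ∈ Ge (TT (sU φ) σ) t 0 →
      ev h x τ ∈ Ge (omAlg (sF φ hφ) φ).toLinearMap t 0) ∧ (x ∈ Lt (TT (sU φ) σ) t 0 →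
      ev h x τ ∈ Lt (omAlg (sF φ hφ) φ).toLinearMap t 0) := fun τ x hx => by
    have := bar_eq (P := S) (Q := Sᶜ) (x := x) (by simpa using hx)
    exact ⟨fun h' => by simpa [this] using Ge_map₀ h0 _ (evT τ) h',
      fun h' => by simpa [this] using Lt_map₀ h0 _ (evT τ) h'⟩
  have into : ∀ x ∈ XX (NN fun i => h (j i)) S, ∀ τ, ev h x τ ∈ Sp h (UL S j τ) S := by
    intro x hx τ
    refine XX_map (LinearMap.proj τ ∘ₗ ev h) (fun a => ?_) ?_ hx
    · obtain ⟨k, p, -, e⟩ := mem_Tot.1 a.2 τ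
      have e1 : ∀ τ : Finset κ, mono h (∑ i ∈ τ, Pi.single (j i) (-(k : ℤ))) =
          (pol (fP (fun i => h (j i)) τ) ^ k)⁻¹ := fun τ => by
        induction τ using Finset.induction_on with
        | empty => simp [mono_zero, fP]
        | insert i τ hi ih =>
          rw [sum_insert hi, mono_add hh, ih, mono_single, fP, fP, prod_insert hi, map_mul, mul_pow,
            mul_inv, zpow_neg, zpow_natCast, L_apply]
      have := mem_Sp (U := UL S j τ) (u := ∑ i ∈ τ, Pi.single (j i) (-(k : ℤ))) ⟨fun e he => ?_,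
        fun e he => ?_⟩ (pol_smul_mem_Gs p (one_mem (Gs h S)))
      · simpa [e1, smul_smul, ← e, fP_ne_zero hb] using this
      · rw [Finset.sum_apply]
        exact sum_eq_zero fun i _ => Pi.single_eq_of_ne (by rintro rfl; exact he (hj i)) _
      · rw [Finset.sum_apply]
        exact (sum_eq_zero fun i hi => Pi.single_eq_of_ne (he i hi).symm _).ge
    · rintro _ (⟨v, rfl⟩ | ⟨f, hf, rfl⟩) a _ ha
      · simpa using mul_mem_Sp (dv_mem_Gs v) ha
      · simpa using mul_mem_Sp (om_mem_Gs hf) ha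
  have onto : ∀ τ, ∀ y ∈ Sp h (UL S j τ) S,
      Pi.single τ y ∈ (XX (NN fun i => h (j i)) S).map (ev h) := by
    intro τ y hy
    refine Sp_map (LinearMap.single K (fun _ => Om K n) τ) (fun u hu g hg => ?_) hy
    have key : ∀ (F : Om K n →ₗ[K] Om K n) (G : LL K ((Fin n → K) × (E → K)) _ →ₗ[K] _),
        (∀ x ∈ XX (NN fun i => h (j i)) S, G x ∈ XX (NN fun i => h (j i)) S) →
        (∀ x τ, ev h (G x) τ = F (ev h x τ)) → ∀ y,
        Pi.single τ y ∈ (XX (NN fun i => h (j i)) S).map (ev h) →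
        Pi.single τ (F y) ∈ (XX (NN fun i => h (j i)) S).map (ev h) := by
      rintro F G h1 h2 y ⟨x, hx, e⟩
      refine ⟨G x, h1 x hx, funext fun τ' => ?_⟩
      rw [h2, e]
      by_cases h' : τ' = τ <;> simp [h']
    have := Gs_mul_mem (W := ((XX (NN fun i => h (j i)) S).map (ev h)).comap
      (LinearMap.single K (fun _ => Om K n) τ))
      (fun v => key (sm (L v)) (rT (mN _ v)) (fun x => rT_mem_XX _) fun x => ev_mN v)
      (fun v => key (LinearMap.mulLeft K (dv v)) (mu (dU v)) (fun x => mu_XX (dU_mem v)) (by simp))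
      (fun e he => key (LinearMap.mulLeft K (om h e)) (mu (eU e)) (fun x => mu_XX (eU_mem he))
        (by simp)) hg (mono h u • 1) ?_
    · simpa using this
    obtain ⟨k, p, -, e⟩ : mono h u ∈ Loc (fun i => h (j i)) ⊤ τ := by
      refine prod_induction _ (· ∈ Loc (fun i => h (j i)) ⊤ τ) (fun _ _ => mul_mem_Loc)
        (by simpa using pol_mem_Loc (p := 1) Submodule.mem_top) fun e _ => ?_
      rcases le_or_gt 0 (u e) with hu' | hu'
      · obtain ⟨k, hk⟩ := Int.eq_ofNat_of_zero_le hu'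
        simpa [hk, L_apply] using pol_mem_Loc (p := lin (h e) ^ k) Submodule.mem_top
      · obtain ⟨i, hi, rfl⟩ : ∃ i ∈ τ, j i = e := by
          by_contra hc
          push Not at hc
          exact absurd (hu.2 e hc) (not_le.2 hu')
        obtain ⟨k, hk⟩ := Int.exists_eq_neg_ofNat hu'.le
        refine ⟨k, fP (fun i => h (j i)) (τ.erase i) ^ k, trivial, ?_⟩
        rw [fP, ← mul_prod_erase _ _ hi, hk, map_mul, ← L_apply, mul_pow, zpow_neg, zpow_natCast,
          mul_right_comm, mul_inv_cancel₀ (pow_ne_zero _ (L_ne_zero (hb i))), one_mul, map_pow, fP]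
    refine ⟨inn (sgl hb τ k p), inn_mem _, funext fun τ' => ?_⟩
    by_cases h' : τ' = τ <;> simp [h', sgl_apply, ← e, fP_ne_zero hb]
  intro y hy hd
  obtain ⟨x, hx, rfl⟩ : y ∈ (XX (NN fun i => h (j i)) S).map (ev h) := by
    rw [← univ_sum_single y]
    exact sum_mem fun τ _ => onto τ _ (mem_Tot.1 hy τ).1
  obtain ⟨x, hx', z, hz, x0, z0, rfl⟩ := split ht Hyp.TT_XX hx (H.grL _) 0
  have e1 : ev h z = 0 := funext fun τ => eq_zero_of_Ge_Lt ht
    (by simpa using sub_mem (mem_Tot.1 hy τ).2 ((evG τ x hx').1 x0)) ((evG τ z hz).2 z0)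
  rw [map_add, e1, add_zero] at hd ⊢
  obtain ⟨g, hg, h1⟩ := R x hx' x0 (ev_inj hh H.hm H.hN _ (rT_mem_XX _ hx') (by rwa [ev_dN]))
  obtain ⟨g, hg, y, hy', g0, -, h2⟩ := split_three ht H.grL (fun x => TT_rT H.δσ) Hyp.TT_XX
    (X' := ⊥) (by simp) (H.TT_JJ subset_rfl bot_le) x0 hg (Submodule.mem_sup_right h1)
  refine ⟨ev h g, mem_Tot.2 fun τ => ⟨into g hg τ, (evG τ g hg).1 g0⟩, ?_⟩
  rw [(Submodule.mem_bot K).1 hy', sub_zero] at h2
  rw [← ev_dN, ← map_sub]
  exact ev_JJ hh h2

end

end Pool.Agent.MP_8e2770_co.H72
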