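import Pool.Agent.MP_8e2770_co.H72.Transfer

/-!
The Cech complex of logarithmic forms over the charts given by chains of subsets is acyclic.
-/

namespace Pool.Agent.MP_8e2770_co.H72

open MvPolynomial Finset

noncomputable section

variable {K : Type} [Field K] {n : ℕ} {E : Type} [Fintype E] [DecidableEq E]
  {h : E → Fin n → K}

omit [DecidableEq E] in
lemma exists_pol_mono {u : E → ℤ} (hu : ∀ e, 0 ≤ u e) : ∃ p, mono h u = pol p :=
  ⟨∏ e, lin (h e) ^ (u e).toNat, by
    simp only [mono, map_prod, map_pow, ← L_apply]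
    exact prod_congr rfl fun e _ => by rw [← zpow_natCast, Int.toNat_of_nonneg (hu e)]⟩

omit [DecidableEq E] in
lemma sF_mono {S : Finset E} {t : K} (h0 : t ≠ 0) {φ : (Fin n → K) →ₗ[K] Fin n → K}
    (hφ : Function.Injective φ) (s1 : ∀ e ∈ S, φ (h e) = t • h e) {u : E → ℤ}
    (hu : ∀ e ∉ S, u e = 0) : sF φ hφ (mono h u) = t ^ (∑ e ∈ S, u e) • mono h u := by
  have e1 : mono h u = ∏ e ∈ S, L (h e) ^ u e :=
    (prod_subset (subset_univ S) fun e _ he => by simp [hu e he]).symm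
  have e2 : ∀ S : Finset E, t ^ (∑ e ∈ S, u e) = ∏ e ∈ S, t ^ u e := fun S => by
    classical
    induction S using Finset.induction_on <;> simp [*, zpow_add₀ h0]
  rw [e1, e2, map_prod, Algebra.smul_def, map_prod, ← prod_mul_distrib]
  exact prod_congr rfl fun e he => by
    rw [map_zpow₀, sF_L, s1 e he, map_smul, Algebra.smul_def, mul_zpow, map_zpow₀]

/-- The elements mapped into `X` by a power of `T`. -/
def Sat {M : Type} [AddCommGroup M] [Module K M] (T : M ≃ₗ[K] M) (X : Submodule K M)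
    (hT : ∀ x ∈ X, T x ∈ X) : Submodule K M where
  carrier := {x | ∃ k : ℕ, (T ^ k) x ∈ X}
  zero_mem' := ⟨0, zero_mem _⟩
  smul_mem' := by rintro c x ⟨k, hk⟩; exact ⟨k, by simpa using X.smul_mem c hk⟩
  add_mem' := by
    have hp : ∀ j : ℕ, ∀ x ∈ X, (T ^ j) x ∈ X := fun j => by
      induction j with
      | zero => simp
      | succ j ih => intro x hx; rw [pow_succ']; exact hT _ (ih x hx)
    rintro x y ⟨k, hk⟩ ⟨k', hk'⟩
    refine ⟨k + k', ?_⟩
    rw [map_add]
    exact add_mem (by rw [add_comm, pow_add]; exact hp _ _ hk) (by rw [pow_add]; exact hp _ _ hk')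

/-- Multiplication by a nonzero function. -/
def smE (f : FF K n) (hf : f ≠ 0) : Om K n ≃ₗ[K] Om K n :=
  LinearEquiv.ofLinearMap (sm f) (sm f⁻¹) (by ext; simp [hf]) (by ext; simp [hf])

lemma smE_pow (f : FF K n) (hf : f ≠ 0) (k : ℕ) (x : Om K n) : (smE f hf ^ k) x = f ^ k • x := by
  induction k with
  | zero => simp
  | succ k ih => rw [pow_succ', pow_succ', mul_smul, ← ih]; rfl

variable {ι : Type} [LinearOrder ι] [Fintype ι] (c : ι → Finset (Finset E))

/-- Exponents supported in `S` with nonnegative valuations on the chart `σ`. -/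
def UX (S : Finset E) (σ : Finset ι) : Set (E → ℤ) :=
  {u | (∀ e ∉ S, u e = 0) ∧ ∀ S' ⊆ S, (∀ i ∈ σ, S' ∈ c i) → 0 ≤ ∑ e ∈ S', u e}

/-- Exponents for the double complex. -/
def UZ (S : Finset E) {κ : Type} (j : κ → E) (σ : Finset ι) (τ : Finset κ) : Set (E → ℤ) :=
  {u | (∀ e ∉ S, u e = 0) ∧ ∀ S' ⊆ S, (∀ k ∈ τ, j k ∉ S') → (∀ i ∈ σ, S' ∈ c i ∨ S' = S) →
    0 ≤ ∑ e ∈ S', u e}

theorem vanish (hh : ∀ e, h e ≠ 0) {t : K} (ht : Function.Injective fun m : ℤ => t ^ m)
    (hc : ∀ i, IsChain (· ⊆ ·) (c i : Set (Finset E)))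
    (hc' : ∀ c₀ : Finset (Finset E), IsChain (· ⊆ ·) (c₀ : Set (Finset E)) → ∃ i, c i = c₀)
    (S : Finset E) : Acyc cech (Tot fun σ => Sp h (UX c S σ) S) ⊥ := by
  have h0 := ne_zero_of_inj ht
  induction S using Finset.strongInduction with
  | H S ih =>
  rcases S.eq_empty_or_nonempty with rfl | hS
  · obtain ⟨i, -⟩ := hc' ∅ (by simp)
    rw [← Tot_bot]
    exact acyc_cone i (fun σ => Sp_mono (fun u hu => ⟨hu.1, by simp⟩) subset_rfl) fun _ => le_rfl
  let j : Fin #S → E := fun k => S.equivFin.symm k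
  have hj : ∀ k, j k ∈ S := fun k => (S.equivFin.symm k).2
  have hj' : ∀ e ∈ S, ∃ k, j k = e := fun e he => ⟨S.equivFin ⟨e, he⟩, by simp [j]⟩
  obtain ⟨V0, hV⟩ := (Submodule.span K (h '' S)).exists_isCompl
  obtain ⟨φ, s1, s0⟩ : ∃ φ : (Fin n → K) →ₗ[K] Fin n → K,
      (∀ v ∈ Submodule.span K (h '' S), φ v = t • v) ∧ ∀ v ∈ V0, φ v = v :=
    ⟨t • Submodule.projection _ _ hV + Submodule.projection _ _ hV.symm, fun v hv => by
      simp [Submodule.projection_apply_of_mem_left hV hv,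
        Submodule.projection_apply_of_mem_right hV.symm hv], fun v hv => by
      simp [Submodule.projection_apply_of_mem_left hV.symm hv,
        Submodule.projection_apply_of_mem_right hV hv]⟩
  have hφ : Function.Injective φ := (injective_iff_map_eq_zero _).2 fun v hv => by
    obtain ⟨a, ha, b, hb, rfl⟩ := Submodule.mem_sup.1 (hV.sup_eq_top.ge (Submodule.mem_top (x := v)))
    rw [map_add, s1 a ha, s0 b hb, add_eq_zero_iff_eq_neg] at hv
    have := Submodule.disjoint_def.1 hV.disjoint _ (Submodule.smul_mem _ t ha) (hv ▸ neg_mem hb)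
    rw [this, eq_comm, neg_eq_zero] at hv
    simpa [h0, hv] using this
  have s1' : ∀ e ∈ S, φ (h e) = t • h e := fun e he => s1 _ (Submodule.subset_span ⟨e, he, rfl⟩)
  set T := (omAlg (sF φ hφ) φ).toLinearMap with hT
  have dec : ∀ (σ : Finset ι) (τ : Finset (Fin #S)) (W : Submodule K (Om K n)),
      (∀ u ∈ UZ c S j σ τ, ∀ g ∈ Gs h S, mono h u • g ∈ Eig T t (∑ e ∈ S, u e) →
        mono h u • g ∈ W) → Sp h (UZ c S j σ τ) S ≤ W := fun σ τ W hW =>
    Sp_dec hh hV (omAlg (sF φ hφ) φ) (fun v hv x => by rw [omAlg_smul, sF_L, s0 v hv])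
      (fun v hv => by rw [omAlg_dv, s0 v hv]) (fun e he => om_fixed h0 hφ (s1' e he))
      (fun u hu e he => And.intro (fun e' he' => by
        simp [hu.1 e' he', Pi.single_eq_of_ne (show e' ≠ e by rintro rfl; exact he' he)])
        fun S' h1 h2 h3 => by
          simp only [Pi.add_apply, sum_add_distrib]
          exact add_nonneg (sum_nonneg fun e' _ => by
            rw [Pi.single_apply]; split_ifs <;> simp) (hu.2 S' h1 h2 h3))
      fun u hu g hg e => hW u hu g hg (mem_Eig.2 (by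
        simp [hT, omAlg_smul, e, sF_mono h0 hφ s1' hu.1]))
  have spl : ∀ (σ : Finset ι) (τ : Finset (Fin #S)), Sp h (UZ c S j σ τ) S ≤
      Sp h (UZ c S j σ τ ∩ {u | 0 ≤ ∑ e ∈ S, u e}) S ⊓ Ge T t 0 ⊔ Lt T t 0 := fun σ τ =>
    dec σ τ _ fun u hu g hg he => by
      rcases le_or_gt 0 (∑ e ∈ S, u e) with h' | h'
      · exact Submodule.mem_sup_left ⟨mem_Sp ⟨hu, h'⟩ hg, Eig_le_Ge h' he⟩
      · exact Submodule.mem_sup_right (Eig_le_Lt h' he)
  have m1 : Monotone fun σ τ => Sp h (UZ c S j σ τ) S ⊓ Ge T t 0 := fun σ σ' hσ τ =>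
    inf_le_inf_right _ (Sp_mono (fun u hu =>
      ⟨hu.1, fun S' h1 h2 h3 => hu.2 S' h1 h2 fun i hi => h3 i (hσ hi)⟩) subset_rfl)
  have A := acyc_double m1 (fun σ τ τ' hτ => inf_le_inf_right _ (Sp_mono (fun u hu =>
      ⟨hu.1, fun S' h1 h2 h3 => hu.2 S' h1 (fun k hk => h2 k (hτ hk)) h3⟩) subset_rfl))
    (fun σ => ?_) fun τ hτ => ?_
  · have tw : ∀ i, ∃ i' ∉ univ.filter fun i => S ∉ c i, ∀ S' ⊆ S, S' ∈ c i ∨ S' = S → S' ∈ c i' := by
      intro i
      obtain ⟨i', hi'⟩ := hc' (insert S ((c i).filter (· ⊆ S))) (by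
        rw [coe_insert]
        exact ((hc i).mono (by simp +contextual [Set.subset_def])).insert
          fun S' h1 _ => Or.inr (mem_filter.1 h1).2)
      exact ⟨i', by simp [hi'], fun S' h1 h2 => by rcases h2 with h2 | h2 <;> simp [hi', h1, h2]⟩
    refine acyc_congr_bad (fun σ σ' hσ => m1 hσ ∅) (fun σ σ' hσ => Sp_mono (fun u hu =>
      ⟨hu.1, fun S' h1 h3 => hu.2 S' h1 fun i hi => h3 i (hσ hi)⟩) subset_rfl)
      (univ.filter fun i => S ∉ c i) (fun i _ => ?_) (fun i _ => ?_) (fun σ hσ => ?_) A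
    · obtain ⟨i', h1, h2⟩ := tw i
      exact ⟨i', h1, fun σ hi => inf_le_inf_right _ (Sp_mono (fun u hu => ⟨hu.1, fun S' a1 a2 a3 =>
        hu.2 S' a1 a2 ((forall_mem_insert _ _ _).2 ⟨Or.inl (h2 S' a1 (a3 i hi)), a3⟩)⟩) subset_rfl)⟩
    · obtain ⟨i', h1, h2⟩ := tw i
      exact ⟨i', h1, fun σ hi => Sp_mono (fun u hu => ⟨hu.1, fun S' a1 a3 =>
        hu.2 S' a1 ((forall_mem_insert _ _ _).2 ⟨h2 S' a1 (Or.inl (a3 i hi)), a3⟩)⟩) subset_rfl⟩
    · have : UX c S σ = UZ c S j σ ∅ := Set.ext fun u => and_congr_right fun _ =>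
        ⟨fun h1 S' a1 _ a3 => h1 S' a1 fun i hi => (a3 i hi).elim id fun a4 => by
          simpa [a4] using disjoint_left.1 hσ hi,
        fun h1 S' a1 a3 => h1 S' a1 (by simp) fun i hi => Or.inl (a3 i hi)⟩
      rw [this, inf_eq_left]
      exact dec σ ∅ _ fun u hu g _ a => Eig_le_Ge (hu.2 S subset_rfl (by simp) (by simp)) a
  · rcases σ.eq_empty_or_nonempty with rfl | ⟨i, hi⟩
    · suffices ∀ τ, UZ c S j ∅ τ = UL S j τ by
        simpa only [this] using reg_om hh hS j hj hj' ht hφ hV s1 s0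
      refine fun τ => Set.ext fun u => and_congr_right fun hu => ⟨fun h1 e he => ?_,
        fun h1 S' _ a2 _ => sum_nonneg fun e he => h1 e fun k hk a => a2 k hk (a ▸ he)⟩
      by_cases heS : e ∈ S
      · simpa using h1 {e} (by simpa using heS) (by simpa using he) (by simp)
      · exact (hu e heS).ge
    · obtain ⟨e, he, he'⟩ : ∃ e ∈ S, ∀ S' ∈ c i, S' ⊂ S → e ∉ S' := by
        rcases ((c i).filter (· ⊂ S)).eq_empty_or_nonempty with h1 | h1
        · obtain ⟨e, he⟩ := hS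
          exact ⟨e, he, fun S' a1 a2 => absurd a2 (filter_eq_empty_iff.1 h1 a1)⟩
        obtain ⟨T₀, h2, h3⟩ := exists_max_image _ card h1
        obtain ⟨e, he, he'⟩ := exists_of_ssubset (mem_filter.1 h2).2
        refine ⟨e, he, fun S' a1 a2 a3 => he' ?_⟩
        rcases (hc i).total (mem_coe.2 a1) (mem_coe.2 (mem_filter.1 h2).1) with a | a
        · exact a a3
        · exact eq_of_subset_of_card_le a (h3 S' (mem_filter.2 ⟨a1, a2⟩)) ▸ a3
      obtain ⟨k, rfl⟩ := hj' e he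
      rw [← Tot_bot]
      refine acyc_cone k (fun τ x hx => ⟨?_, hx.2⟩) fun _ => le_rfl
      obtain ⟨y, hy, z, hz, rfl⟩ := Submodule.mem_sup.1 (spl σ _ hx.1)
      rw [eq_zero_of_Ge_Lt ht ((add_mem_cancel_left hy.2).1 hx.2) hz, add_zero]
      refine Sp_mono (U' := UZ c S j σ τ) (fun u hu => ⟨hu.1.1, fun S' a1 a2 a3 => ?_⟩) subset_rfl hy.1
      by_cases a4 : S' = S
      · exact a4 ▸ hu.2
      · exact hu.1.2 S' a1 ((forall_mem_insert _ _ _).2
          ⟨he' S' ((a3 i hi).resolve_right a4) (a1.ssubset_of_ne a4), a2⟩) a3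
  · obtain ⟨k₀, hk₀⟩ := nonempty_iff_ne_empty.2 hτ
    refine acyc_inf (disjoint_Ge_Lt ht 0) (fun σ => (spl σ τ).trans (sup_le_sup_right
      (inf_le_inf_right _ (Sp_mono Set.inter_subset_left subset_rfl)) _)) ?_
    let w : E → ℤ := fun e => if e ∈ τ.image j then 1 else 0
    have w0 : ∀ e, 0 ≤ w e := fun e => by simp only [w]; split_ifs <;> simp
    have w1 : ∀ S' : Finset E, (∀ k ∈ τ, j k ∉ S') → ∀ e ∈ S', w e = 0 := fun S' a e he =>
      if_neg fun a' => by obtain ⟨k, hk, rfl⟩ := mem_image.1 a'; exact a k hk he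
    have w2 : ∀ e ∈ τ.image j, w e = 1 := fun e he => if_pos he
    clear_value w
    have polS : ∀ σ, ∀ u : E → ℤ, (∀ e, 0 ≤ u e) → ∀ x ∈ Sp h (UX c (S \ τ.image j) σ) (S \ τ.image j),
        mono h u • x ∈ Sp h (UX c (S \ τ.image j) σ) (S \ τ.image j) := fun σ u hu x hx => by
      obtain ⟨p, hp⟩ := exists_pol_mono (h := h) hu
      simpa [hp] using mul_mem_Sp (pol_smul_mem_Gs p (one_mem _)) hx
    refine acyc_loc (smE (mono h w) (mono_ne_zero hh w)) (fun σ => polS σ w w0)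
      (fun σ => Sp_mono (fun u hu => ⟨fun e he => hu.1 e (by simp [he]), fun S' a1 a2 a3 =>
        hu.2 S' (subset_sdiff.2 ⟨a1, by simpa [disjoint_right] using a2⟩) fun i hi =>
          (a3 i hi).resolve_right fun a4 => a2 k₀ hk₀ (a4 ▸ hj k₀)⟩) sdiff_subset)
      (fun σ x hx => ?_) (fun σ => ?_)
      (ih _ (sdiff_ssubset (by simp [subset_iff, hj]) ⟨_, mem_image_of_mem j hk₀⟩))
    · have e1 : (mono h w)⁻¹ = mono h (-w) :=
        inv_eq_of_mul_eq_one_right (by rw [← mono_add hh, add_neg_cancel, mono_zero])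
      change (mono h w)⁻¹ • x ∈ _
      rw [e1]
      refine mono_smul_Sp hh _ (fun u hu => ⟨fun e he => ?_, fun S' a1 a2 a3 => ?_⟩) hx
      · simp [hu.1 e he, w1 {e} (fun k _ a => he (mem_singleton.1 a ▸ hj k))]
      · simpa [sum_add_distrib, sum_eq_zero (w1 S' a2)] using hu.2 S' a1 a2 a3
    · refine Sp_le (W := Sat _ _ (polS σ w w0)) fun u hu g hg => ?_
      have := Gs_mul_mem (W := Sat (smE (mono h w) (mono_ne_zero hh w)) _ (polS σ w w0))
        ?_ ?_ ?_ hg (mono h u • 1) ?_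
      · simpa using this
      · rintro v x ⟨k, hk⟩
        refine ⟨k, ?_⟩
        rw [smE_pow] at hk ⊢
        simpa [smul_comm (mono h w ^ k), L_apply] using
          mul_mem_Sp (pol_smul_mem_Gs (lin v) (one_mem _)) hk
      · rintro v x ⟨k, hk⟩
        refine ⟨k, ?_⟩
        rw [smE_pow] at hk ⊢
        simpa using mul_mem_Sp (dv_mem_Gs v) hk
      · rintro e he x ⟨k, hk⟩
        rw [smE_pow] at hk
        by_cases heτ : e ∈ τ.image j
        · refine ⟨k + 1, ?_⟩
          have e1 : mono h w = mono h (w - Pi.single e 1) * L (h e) := by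
            rw [← zpow_one (L (h e)), ← mono_single, ← mono_add hh, sub_add_cancel]
          convert polS σ (w - Pi.single e 1) (fun e' => by
            by_cases a : e' = e <;> simp [a, w0, w2 e heτ]) _ (mul_mem_Sp (dv_mem_Gs (h e)) hk) using 1
          rw [smE_pow, pow_succ', mul_smul, ← L_smul_om hh, mul_smul_comm, smul_mul_assoc,
            smul_comm (mono h w ^ k) (L (h e)), ← mul_smul _ (L (h e)), ← e1]
        · exact ⟨k, by simpa [smE_pow] using mul_mem_Sp (om_mem_Gs (mem_sdiff.2 ⟨he, heτ⟩)) hk⟩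
      · obtain ⟨k, hk⟩ : ∃ k : ℕ, ∀ e, -u e ≤ k :=
          ⟨univ.sup fun e => (-u e).toNat, fun e => (Int.self_le_toNat _).trans
            (Int.ofNat_le.2 (le_sup (f := fun e => (-u e).toNat) (mem_univ e)))⟩
        refine ⟨k, ?_⟩
        have e1 : ∀ k : ℕ, mono h w ^ k = mono h (k • w) := fun k => by
          induction k with
          | zero => simp [mono_zero]
          | succ k ih => rw [pow_succ, ih, succ_nsmul, mono_add hh]
        convert polS σ (fun e => w e * (k + u e)) (fun e => mul_nonneg (w0 e) (by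
          have := hk e; omega)) _ (mem_Sp (u := fun e => (1 - w e) * u e) ⟨fun e he => ?_,
            fun S' a1 a3 => ?_⟩ (one_mem _)) using 1
        · rw [smE_pow, e1, smul_smul, smul_smul, ← mono_add hh, ← mono_add hh]
          congr 2
          ext e; simp; ring
        · by_cases a : e ∈ τ.image j
          · simp [w2 e a]
          · simp [hu.1 e fun a' => he (mem_sdiff.2 ⟨a', a⟩)]
        · have a2 : ∀ k ∈ τ, j k ∉ S' := fun k hk a =>
            (mem_sdiff.1 (a1 a)).2 (mem_image_of_mem j hk)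
          exact (hu.2 S' (a1.trans sdiff_subset) a2 fun i hi => Or.inl (a3 i hi)).trans_eq
            (sum_congr rfl fun e he => by simp [w1 S' a2 e he])

end

end Pool.Agent.MP_8e2770_co.H72
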