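import Pool.Agent.MP_8e2770_co.H72.Vanish

/-!
From local exactness on the charts to a global statement about logarithmic forms.
-/

namespace Pool.Agent.MP_8e2770_co.H72

open MvPolynomial Finset

noncomputable section

variable {K : Type} [Field K] {n : ℕ}

lemma acyc_map {M ι : Type} [AddCommGroup M] [Module K M] [LinearOrder ι]
    {X X' : Finset ι → Submodule K M} (T : M ≃ₗ[K] M) (h1 : ∀ σ, ∀ x ∈ X σ, T x ∈ X' σ)
    (h2 : ∀ σ, ∀ x ∈ X' σ, T.symm x ∈ X σ) (h : Acyc cech (Tot X) ⊥) : Acyc cech (Tot X') ⊥ := by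
  intro f hf hd
  obtain ⟨g, hg, hfg⟩ := h (fun σ => T.symm.toLinearMap (f σ))
    (mem_Tot.2 fun σ => h2 σ _ (mem_Tot.1 hf σ)) (by
      rw [Submodule.mem_bot] at hd ⊢
      rw [cech_comp, hd]; ext; simp)
  refine ⟨fun σ => T.toLinearMap (g σ), mem_Tot.2 fun σ => h1 σ _ (mem_Tot.1 hg σ), ?_⟩
  rw [Submodule.mem_bot, sub_eq_zero] at hfg ⊢
  rw [cech_comp, ← hfg]
  ext σ; simp

/-- The operator grading forms by their degree. -/
def deg (t : K) : Om K n →ₐ[K] Om K n := omAlg (AlgHom.id K _) (t • LinearMap.id)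

lemma deg_smul (t : K) (f : FF K n) (x : Om K n) : deg t (f • x) = f • deg t x := omAlg_smul _ _ _ _

lemma deg_dv (t : K) (v : Fin n → K) : deg t (dv v) = t • dv v := by simp [deg, omAlg_dv]

lemma deg_d (t : K) (x : Om K n) : deg t (d x) = t • d (deg t x) := by
  induction x using om_induction' with
  | smul f => simp [d_smul, d_one, df, deg_smul, deg_dv, smul_sum, smul_comm t]
  | add a b ha hb => simp [ha, hb]
  | mul v a ha => simp [d_dv_mul, deg_dv, ha]

lemma mem_of_deg (t : K) {Z : Submodule K (Om K n)}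
    (hZ : ∀ q : ℕ, q ≤ n → Eig (deg t).toLinearMap t q ≤ Z) (x : Om K n) : x ∈ Z := by
  let pr : List (Fin n) → Om K n := fun l => (l.map fun i => dv (Pi.single i 1)).prod
  let W : Submodule K (Om K n) := Submodule.span K {y | ∃ (f : FF K n) (l : List (Fin n)),
    l.Nodup ∧ y = f • pr l}
  have z : ∀ l, ∀ i ∈ l, dv (Pi.single i 1) * pr l = 0 := fun l i hi => by
    induction l with
    | nil => simp at hi
    | cons a l ih =>
      simp only [pr, List.map_cons, List.prod_cons, ← mul_assoc]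
      rcases List.mem_cons.1 hi with rfl | hi
      · rw [dv_mul_self, zero_mul]
      · rw [dv_anticomm, neg_mul, mul_assoc, ih hi, mul_zero, neg_zero]
  have e : ∀ l, deg t (pr l) = t ^ l.length • pr l := fun l => by
    induction l with
    | nil => simp [pr]
    | cons a l ih =>
      simp only [pr, List.map_cons, List.prod_cons, map_mul, deg_dv] at ih ⊢
      simp [ih, pow_succ, smul_smul]
  refine (Submodule.span_le.2 ?_ : W ≤ Z) ?_
  · rintro _ ⟨f, l, hl, rfl⟩
    exact hZ l.length (by simpa using hl.length_le_card)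
      (mem_Eig.2 (by simp [deg_smul, e, smul_comm f]))
  induction x using om_induction' with
  | smul f => exact Submodule.subset_span ⟨f, [], by simp, by simp [pr]⟩
  | add a b ha hb => exact add_mem ha hb
  | mul v a ha =>
    rw [pi_eq_sum_univ' v, map_sum, sum_mul]
    refine sum_mem fun i _ => ?_
    rw [map_smul, smul_mul_assoc]
    refine Submodule.smul_mem _ _ ((Submodule.span_le.2 ?_ :
      W ≤ W.comap (LinearMap.mulLeft K (dv (Pi.single i 1)))) ha)
    rintro _ ⟨f, l, hl, rfl⟩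
    by_cases hi : i ∈ l
    · simp [z l i hi]
    · exact Submodule.subset_span ⟨f, i :: l, by simp [hi, hl], by simp [pr]⟩

variable {E : Type} [Fintype E] [DecidableEq E] {h : E → Fin n → K}

omit [DecidableEq E] in
lemma deg_mem_Sp (t : K) {U : Set (E → ℤ)} {P : Finset E} : ∀ x ∈ Sp h U P, deg t x ∈ Sp h U P :=
  fun _ => Sp_map (deg t).toLinearMap fun u hu g hg => by
    have := Gs_mul_mem (W := (Gs h P).toSubmodule.comap (deg t).toLinearMap) (fun v x hx => ?_)
      (fun v x hx => ?_) (fun e he x hx => ?_) hg 1 (by simp)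
    · simpa [deg_smul] using mem_Sp hu this
    · simpa [deg_smul, L_apply] using pol_smul_mem_Gs (lin v) hx
    · simpa [deg_dv] using Subalgebra.smul_mem _ (mul_mem (dv_mem_Gs v) hx) t
    · simpa [deg_dv, deg_smul, om, smul_comm t] using
        Subalgebra.smul_mem _ (mul_mem (om_mem_Gs he) hx) t

/-- Cech vanishing and the zigzag. -/
theorem zigzag {E : Type} [Fintype E] [DecidableEq E] (h : E → Fin n → K) (hh : ∀ e, h e ≠ 0)
    (t : K) (ht : Function.Injective fun m : ℤ => t ^ m) (w : E → ℤ)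
    {A : Type} [AddCommGroup A] [Module K A] (p : A →ₗ[K] A) (hp : ∀ x, p (p x) = 0)
    (ψ : A →ₗ[K] Om K n) (hψ : ∀ x, ψ (p x) = d (ψ x))
    (Kc Lc : Finset (Finset E) → Submodule K A) (hKa : Antitone Kc) (hLa : Antitone Lc)
    (hKL : ∀ c, Kc c ≤ Lc c) (_hKp : ∀ c, ∀ x ∈ Kc c, p x ∈ Kc c)
    (hLp : ∀ c, ∀ x ∈ Lc c, p x ∈ Lc c)
    (hloc : ∀ c : Finset (Finset E), IsChain (· ⊆ ·) (c : Set (Finset E)) →
      ∀ x ∈ Lc c, p x ∈ Kc c → ∃ y ∈ Lc c, x - p y ∈ Kc c)
    (hψK : ∀ c : Finset (Finset E), IsChain (· ⊆ ·) (c : Set (Finset E)) →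
      ∀ x ∈ Kc c, ψ x ∈ Fw h (fun S => ∑ e ∈ S, w e) c)
    (v : A) (hv : ∀ c : Finset (Finset E), IsChain (· ⊆ ·) (c : Set (Finset E)) → v ∈ Lc c)
    (hv0 : p v = 0) :
    ∃ g ∈ Gs h Finset.univ, ∃ η, ψ v = mono h w • g + d η := by
  classical
  have h0 := ne_zero_of_inj ht
  let C := {c : Finset (Finset E) // IsChain (· ⊆ ·) (c : Set (Finset E))}
  let c : Fin (Fintype.card C) → Finset (Finset E) := fun i => ((Fintype.equivFin C).symm i).1
  have hc : ∀ i, IsChain (· ⊆ ·) (c i : Set (Finset E)) := fun i => ((Fintype.equivFin C).symm i).2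
  have hc' : ∀ c₀ : Finset (Finset E), IsChain (· ⊆ ·) (c₀ : Set (Finset E)) → ∃ i, c i = c₀ :=
    fun c₀ h₀ => ⟨Fintype.equivFin C ⟨c₀, h₀⟩, by simp [c]⟩
  let cs : Finset (Fin (Fintype.card C)) → Finset (Finset E) :=
    fun σ => univ.filter fun S => ∀ i ∈ σ, S ∈ c i
  have cs1 : Antitone cs := fun σ σ' hσ S => by
    simpa [cs] using fun a i hi => a i (hσ hi)
  have cs2 : ∀ σ, σ ≠ ∅ → IsChain (· ⊆ ·) (cs σ : Set (Finset E)) := fun σ hσ => by
    obtain ⟨i, hi⟩ := nonempty_iff_ne_empty.2 hσ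
    exact (hc i).mono fun S => by simpa [cs] using fun a => a i hi
  have mon : ∀ Z : Finset (Finset E) → Submodule K A, Antitone Z →
      Monotone fun σ => if σ = ∅ then ⊥ else Z (cs σ) := fun Z hZ σ σ' hσ => by
    dsimp only
    split_ifs with h1 h2 h2
    · exact le_rfl
    · exact bot_le
    · exact absurd (subset_empty.1 (h2 ▸ hσ)) h1
    · exact hZ (cs1 hσ)
  have e1 : (mono h w)⁻¹ = mono h (-w) :=
    inv_eq_of_mul_eq_one_right (by rw [← mono_add hh, add_neg_cancel, mono_zero])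
  have A1 : Acyc cech (Tot fun σ => Fw h (fun S => ∑ e ∈ S, w e) (cs σ)) ⊥ :=
    acyc_map (smE _ (mono_ne_zero hh w))
      (fun σ x => mono_smul_Sp hh w fun u hu S hS => by
        simpa [sum_add_distrib] using hu.2 S (subset_univ S) (mem_filter.1 hS).2)
      (fun σ x hx => by
        change (mono h w)⁻¹ • x ∈ _
        rw [e1]
        exact mono_smul_Sp hh _ (fun u hu => ⟨by simp, fun S _ hS => by
          simpa [sum_add_distrib] using hu S (mem_filter.2 ⟨mem_univ _, hS⟩)⟩) hx)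
      (vanish c hh ht hc hc' univ)
  have A2 : Acyc (tot d) (Tot fun σ => Fw h (fun S => ∑ e ∈ S, w e) (cs σ)) ⊥ := by
    refine acyc_tot_of_cech d_d (fun q => Ge (deg t).toLinearMap t q)
      (fun q q' hq => Ge_anti (by exact_mod_cast hq)) (n + 1)
      (fun σ x _ => mem_of_deg t (fun q _ => Eig_le_Ge (by simp)) x)
      (eq_bot_iff.2 fun x hx => eq_zero_of_Ge_Lt ht hx
        (mem_of_deg t (fun q hq => Eig_le_Lt (by omega)) x))
      (fun σ q x hx => ⟨d_mem_Sp hh hx.1, ?_⟩)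
      fun q => acyc_inf (disjoint_Ge_Lt ht q) (fun σ x hx => ?_) A1
    · simpa using Ge_map (T' := (deg t).toLinearMap) h0 d 1 (by simp [deg_d]) hx.2
    · obtain ⟨y, hy, z, -, h1, h2, rfl⟩ := split (T := (deg t).toLinearMap) ht (deg_mem_Sp t) hx
        (mem_of_deg t (fun q _ => Eig_le_Gr _) x) q
      exact Submodule.add_mem_sup ⟨hy, h1⟩ h2
  obtain ⟨i₀, -⟩ := hc' ∅ (by simp)
  obtain ⟨α, hα, η, e⟩ := cube_zigzag i₀ hp ψ hψ (mon Lc hLa) (mon Kc hKa)
    (fun σ => by split_ifs <;> simp [hKL]) (by simp)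
    (fun σ => by split_ifs; exacts [by simp +contextual, hLp _])
    (fun σ => by split_ifs with hσ; exacts [Acyc.refl _, hloc _ (cs2 σ hσ)]) A2
    (fun σ => by split_ifs with hσ; exacts [by simp +contextual, hψK _ (cs2 σ hσ)])
    (fun i => by simpa using hv _ (cs2 {i} (by simp))) hv0
  have : α ∈ (Gs h univ).toSubmodule.map (sm (mono h w)) := by
    refine Sp_le (fun u hu g hg => ?_) hα
    obtain ⟨q, hq⟩ := exists_pol_mono (h := h) (u := u - w) fun e => by
      simpa using hu {e} (by simp [cs])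
    refine ⟨pol q • g, pol_smul_mem_Gs q hg, ?_⟩
    rw [sm_apply, smul_smul, ← hq, ← mono_add hh, add_sub_cancel]
  obtain ⟨g, hg, rfl⟩ := this
  exact ⟨g, hg, η, e⟩

end

end Pool.Agent.MP_8e2770_co.H72
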